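import Mathlib

/-!
# Models of second-order arithmetic: formulas, schemes, `RCA₀`, `M`-finite sets

Everything needed to state the question on definable choice functions for `Π_n` sets in models of
`RCA₀ + BΣ_n + ¬ IΣ_n`.
-/

set_option autoImplicit false

namespace Pool.Agent.Lib.MP_0d2548_lc

/-- Terms of the language of second-order arithmetic (number variables are indexed by `ℕ`). -/
inductive Tm : Type
  | var (i : ℕ)
  | zero
  | one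
  | add (s t : Tm)
  | mul (s t : Tm)

/-- Formulas of the language of second-order arithmetic.  Number variables and set variables are
both indexed by `ℕ`. -/
inductive Fm : Type
  | eq (s t : Tm)
  | lt (s t : Tm)
  | mem (t : Tm) (X : ℕ)
  | not (φ : Fm)
  | and (φ ψ : Fm)
  | or (φ ψ : Fm)
  | exN (x : ℕ) (φ : Fm)
  | allN (x : ℕ) (φ : Fm)
  | exS (X : ℕ) (φ : Fm)
  | allS (X : ℕ) (φ : Fm)

/-- A structure for the language of second-order arithmetic: a first-order part `M` with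
`0, 1, +, ·, <` and a family `S` of subsets of `M` as second-order part. -/
structure Str where
  /-- the first-order part -/
  M : Type
  /-- zero -/
  zero : M
  /-- one -/
  one : M
  /-- addition -/
  add : M → M → M
  /-- multiplication -/
  mul : M → M → M
  /-- the order -/
  lt : M → M → Prop
  /-- the second-order part -/
  S : Set (Set M)

/-- The value of a term. -/
def Tm.val (𝓜 : Str) (v : ℕ → 𝓜.M) : Tm → 𝓜.M
  | .var i => v i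
  | .zero => 𝓜.zero
  | .one => 𝓜.one
  | .add s t => 𝓜.add (s.val 𝓜 v) (t.val 𝓜 v)
  | .mul s t => 𝓜.mul (s.val 𝓜 v) (t.val 𝓜 v)

/-- Satisfaction.  `v` interprets the number variables and `V` the set variables; set quantifiers
range over the second-order part. -/
def Sat (𝓜 : Str) : (ℕ → 𝓜.M) → (ℕ → Set 𝓜.M) → Fm → Prop
  | v, _, .eq s t => s.val 𝓜 v = t.val 𝓜 v
  | v, _, .lt s t => 𝓜.lt (s.val 𝓜 v) (t.val 𝓜 v)
  | v, V, .mem t X => t.val 𝓜 v ∈ V X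
  | v, V, .not φ => ¬ Sat 𝓜 v V φ
  | v, V, .and φ ψ => Sat 𝓜 v V φ ∧ Sat 𝓜 v V ψ
  | v, V, .or φ ψ => Sat 𝓜 v V φ ∨ Sat 𝓜 v V ψ
  | v, V, .exN x φ => ∃ a : 𝓜.M, Sat 𝓜 (Function.update v x a) V φ
  | v, V, .allN x φ => ∀ a : 𝓜.M, Sat 𝓜 (Function.update v x a) V φ
  | v, V, .exS X φ => ∃ Z ∈ 𝓜.S, Sat 𝓜 v (Function.update V X Z) φ
  | v, V, .allS X φ => ∀ Z ∈ 𝓜.S, Sat 𝓜 v (Function.update V X Z) φ

/-- The number variable `x` occurs in a term. -/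
def Tm.Occurs (x : ℕ) : Tm → Prop
  | .var i => i = x
  | .zero => False
  | .one => False
  | .add s t => s.Occurs x ∨ t.Occurs x
  | .mul s t => s.Occurs x ∨ t.Occurs x

/-- `Δ⁰₀` formulas (set variables are allowed as parameters): all quantifiers are bounded number
quantifiers `∃ x < t` and `∀ x < t`, where `x` does not occur in `t`. -/
inductive IsDelta0 : Fm → Prop
  | eq (s t : Tm) : IsDelta0 (.eq s t)
  | lt (s t : Tm) : IsDelta0 (.lt s t)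
  | mem (t : Tm) (X : ℕ) : IsDelta0 (.mem t X)
  | not {φ : Fm} : IsDelta0 φ → IsDelta0 (.not φ)
  | and {φ ψ : Fm} : IsDelta0 φ → IsDelta0 ψ → IsDelta0 (.and φ ψ)
  | or {φ ψ : Fm} : IsDelta0 φ → IsDelta0 ψ → IsDelta0 (.or φ ψ)
  | bex (x : ℕ) (t : Tm) {φ : Fm} : ¬ t.Occurs x → IsDelta0 φ →
      IsDelta0 (.exN x (.and (.lt (.var x) t) φ))
  | ball (x : ℕ) (t : Tm) {φ : Fm} : ¬ t.Occurs x → IsDelta0 φ →
      IsDelta0 (.allN x (.or (.not (.lt (.var x) t)) φ))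

mutual

/-- `Σ⁰_n` formulas: `Σ⁰_0` formulas are the `Δ⁰₀` formulas, and a `Σ⁰_{n+1}` formula is a block of
existential number quantifiers in front of a `Π⁰_n` formula. -/
inductive IsSigma : ℕ → Fm → Prop
  | zero {φ : Fm} : IsDelta0 φ → IsSigma 0 φ
  | ofPi {n : ℕ} {φ : Fm} : IsPi n φ → IsSigma (n + 1) φ
  | ex {n : ℕ} {φ : Fm} (x : ℕ) : IsSigma (n + 1) φ → IsSigma (n + 1) (.exN x φ)

/-- `Π⁰_n` formulas: `Π⁰_0` formulas are the `Δ⁰₀` formulas, and a `Π⁰_{n+1}` formula is a block of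
universal number quantifiers in front of a `Σ⁰_n` formula. -/
inductive IsPi : ℕ → Fm → Prop
  | zero {φ : Fm} : IsDelta0 φ → IsPi 0 φ
  | ofSigma {n : ℕ} {φ : Fm} : IsSigma n φ → IsPi (n + 1) φ
  | all {n : ℕ} {φ : Fm} (x : ℕ) : IsPi (n + 1) φ → IsPi (n + 1) (.allN x φ)

end

/-- The basic axioms of second-order arithmetic (Simpson, Definition I.2.4 (i)). -/
structure BasicAxioms (𝓜 : Str) : Prop where
  succ_ne_zero : ∀ a, 𝓜.add a 𝓜.one ≠ 𝓜.zero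
  succ_inj : ∀ a b, 𝓜.add a 𝓜.one = 𝓜.add b 𝓜.one → a = b
  add_zero : ∀ a, 𝓜.add a 𝓜.zero = a
  add_succ : ∀ a b, 𝓜.add a (𝓜.add b 𝓜.one) = 𝓜.add (𝓜.add a b) 𝓜.one
  mul_zero : ∀ a, 𝓜.mul a 𝓜.zero = 𝓜.zero
  mul_succ : ∀ a b, 𝓜.mul a (𝓜.add b 𝓜.one) = 𝓜.add (𝓜.mul a b) a
  not_lt_zero : ∀ a, ¬ 𝓜.lt a 𝓜.zero
  lt_succ : ∀ a b, 𝓜.lt a (𝓜.add b 𝓜.one) ↔ (𝓜.lt a b ∨ a = b)

/-- `IΣ_n`: induction for `Σ⁰_n` formulas, with arbitrary number and set parameters. -/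
def ISigma (𝓜 : Str) (n : ℕ) : Prop :=
  ∀ φ : Fm, IsSigma n φ → ∀ (v : ℕ → 𝓜.M) (V : ℕ → Set 𝓜.M), (∀ i, V i ∈ 𝓜.S) → ∀ x : ℕ,
    Sat 𝓜 (Function.update v x 𝓜.zero) V φ →
    (∀ a, Sat 𝓜 (Function.update v x a) V φ →
      Sat 𝓜 (Function.update v x (𝓜.add a 𝓜.one)) V φ) →
    ∀ a, Sat 𝓜 (Function.update v x a) V φ

/-- `BΣ_n`: bounding (collection) for `Σ⁰_n` formulas, with arbitrary number and set
parameters: `∀ x < a ∃ y φ(x, y)` implies `∃ b ∀ x < a ∃ y < b φ(x, y)`. -/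
def BSigma (𝓜 : Str) (n : ℕ) : Prop :=
  ∀ φ : Fm, IsSigma n φ → ∀ (v : ℕ → 𝓜.M) (V : ℕ → Set 𝓜.M), (∀ i, V i ∈ 𝓜.S) →
    ∀ x y : ℕ, x ≠ y → ∀ a : 𝓜.M,
    (∀ c, 𝓜.lt c a → ∃ d, Sat 𝓜 (Function.update (Function.update v x c) y d) V φ) →
    ∃ b, ∀ c, 𝓜.lt c a → ∃ d, 𝓜.lt d b ∧
      Sat 𝓜 (Function.update (Function.update v x c) y d) V φ

/-- `Δ⁰₁` comprehension, with arbitrary number and set parameters. -/
def Delta1CA (𝓜 : Str) : Prop :=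
  ∀ φ ψ : Fm, IsSigma 1 φ → IsPi 1 ψ → ∀ (v : ℕ → 𝓜.M) (V : ℕ → Set 𝓜.M),
    (∀ i, V i ∈ 𝓜.S) → ∀ x : ℕ,
    (∀ a, Sat 𝓜 (Function.update v x a) V φ ↔ Sat 𝓜 (Function.update v x a) V ψ) →
    ∃ Z ∈ 𝓜.S, ∀ a, a ∈ Z ↔ Sat 𝓜 (Function.update v x a) V φ

/-- Models of `RCA₀`: basic axioms, `IΣ_1` and `Δ⁰₁` comprehension. -/
structure RCA0 (𝓜 : Str) : Prop where
  basic : BasicAxioms 𝓜
  ind : ISigma 𝓜 1
  comp : Delta1CA 𝓜

/-- `X` is a `Π_n` set of `𝓜`: it is defined by a `Π⁰_n` formula with number parameters and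
set parameters from `𝓜`. -/
def IsPiSet (𝓜 : Str) (n : ℕ) (X : Set 𝓜.M) : Prop :=
  ∃ φ : Fm, IsPi n φ ∧ ∃ (v : ℕ → 𝓜.M) (V : ℕ → Set 𝓜.M), (∀ i, V i ∈ 𝓜.S) ∧
    ∃ x : ℕ, ∀ a, a ∈ X ↔ Sat 𝓜 (Function.update v x a) V φ

/-- The function `f` is definable in `𝓜`: its graph is defined by some formula of the language of
second-order arithmetic (number and set quantifiers allowed), with number parameters and set
parameters from `𝓜`. -/
def IsDefinableFun (𝓜 : Str) (f : 𝓜.M → 𝓜.M) : Prop :=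
  ∃ (φ : Fm) (v : ℕ → 𝓜.M) (V : ℕ → Set 𝓜.M) (x y : ℕ), (∀ i, V i ∈ 𝓜.S) ∧ x ≠ y ∧
    ∀ a b, f a = b ↔ Sat 𝓜 (Function.update (Function.update v x a) y b) V φ

/-- The pairing function `(a, b) = (a + b)² + a` (Simpson, Section II.2). -/
def Str.pair (𝓜 : Str) (a b : 𝓜.M) : 𝓜.M :=
  𝓜.add (𝓜.mul (𝓜.add a b) (𝓜.add a b)) a

/-- `c = ((k, m), n)` and `A` is the set of all `i < k` such that `m · (i + 1) + 1` divides `n`. -/
def Str.PreCode (𝓜 : Str) (c : 𝓜.M) (A : Set 𝓜.M) : Prop :=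
  ∃ k m n : 𝓜.M, c = 𝓜.pair (𝓜.pair k m) n ∧
    ∀ i, i ∈ A ↔ (𝓜.lt i k ∧
      ∃ q, 𝓜.mul (𝓜.add (𝓜.mul m (𝓜.add i 𝓜.one)) 𝓜.one) q = n)

/-- `c` is the canonical code of the `𝓜`-finite set `A` (Simpson, Section II.2): the least number
`((k, m), n)` such that `A` is the set of all `i < k` with `m · (i + 1) + 1` dividing `n`. -/
def Str.IsCode (𝓜 : Str) (c : 𝓜.M) (A : Set 𝓜.M) : Prop :=
  𝓜.PreCode c A ∧ ∀ c', 𝓜.lt c' c → ¬ 𝓜.PreCode c' A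

/-- `Z` is (the graph of) the sequence `⟨A s : s ∈ M⟩` of `𝓜`-finite sets: for each `s` there is
exactly one `c` with `(s, c) ∈ Z`, and this `c` is the canonical code of `A s`. -/
def Str.IsSeq (𝓜 : Str) (Z : Set 𝓜.M) (A : 𝓜.M → Set 𝓜.M) : Prop :=
  ∀ s, ∃ c, (∀ c', 𝓜.pair s c' ∈ Z ↔ c' = c) ∧ 𝓜.IsCode c (A s)

end Pool.Agent.Lib.MP_0d2548_lc
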