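import Mathlib

/-!
# Primitive recursive predicates and the arithmetical hierarchy on `ℕ` (semantic classes)
-/

set_option autoImplicit false

namespace Pool.Agent.Lib.MP_0d2548_lc

/-- Pairing `(a + b)² + a`. -/
def sp (a b : ℕ) : ℕ := (a + b) * (a + b) + a

/-- first component -/
def sf (z : ℕ) : ℕ := z - Nat.sqrt z * Nat.sqrt z

/-- second component -/
def ss (z : ℕ) : ℕ := Nat.sqrt z - sf z

lemma sqrt_sp (a b : ℕ) : Nat.sqrt (sp a b) = a + b := by
  symm
  rw [Nat.eq_sqrt]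
  unfold sp
  constructor <;> nlinarith

@[simp] lemma sf_sp (a b : ℕ) : sf (sp a b) = a := by
  unfold sf; rw [sqrt_sp]; unfold sp; omega

@[simp] lemma ss_sp (a b : ℕ) : ss (sp a b) = b := by
  unfold ss; rw [sf_sp, sqrt_sp]; omega

lemma sp_inj {a b c d : ℕ} (h : sp a b = sp c d) : a = c ∧ b = d := by
  have h1 := congrArg sf h
  have h2 := congrArg ss h
  simp only [sf_sp, ss_sp] at h1 h2
  exact ⟨h1, h2⟩

lemma le_sp_left (a b : ℕ) : a ≤ sp a b := by unfold sp; nlinarith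

lemma le_sp_right (a b : ℕ) : b ≤ sp a b := by unfold sp; nlinarith

lemma sp_mono {a b c d : ℕ} (h1 : a ≤ c) (h2 : b ≤ d) : sp a b ≤ sp c d := by
  unfold sp
  have : a + b ≤ c + d := by omega
  nlinarith [Nat.mul_le_mul this this]

lemma sf_le (z : ℕ) : sf z ≤ z := by
  unfold sf; omega

lemma ss_le (z : ℕ) : ss z ≤ z := by
  unfold ss; have := Nat.sqrt_le_self z; omega

section primrec

open Primrec

lemma primrec_sp : Primrec₂ sp := by
  unfold sp
  exact (nat_add.comp (nat_mul.comp (nat_add.comp .fst .snd) (nat_add.comp .fst .snd)) .fst).to₂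

lemma primrec_sqrt : Primrec Nat.sqrt := by
  have h := Nat.Primrec'.prim_iff₁.1 (Nat.Primrec'.sqrt)
  exact h

lemma primrec_sf : Primrec sf := by
  unfold sf
  exact nat_sub.comp .id (nat_mul.comp primrec_sqrt primrec_sqrt)

lemma primrec_ss : Primrec ss := by
  unfold ss
  exact nat_sub.comp primrec_sqrt primrec_sf

variable {α : Type*} [Primcodable α]

lemma ppred_bex {f : α → ℕ} {R : α → ℕ → Prop} (hf : Primrec f) (hR : PrimrecRel R) :
    PrimrecPred fun a => ∃ i < f a, R a i := by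
  have h1 : PrimrecRel fun (L : List ℕ) (a : α) => ∃ i ∈ L, R a i :=
    PrimrecRel.exists_mem_list (R := fun i a => R a i) (hR.comp .snd .fst)
  exact (h1.comp (list_range.comp hf) .id).of_eq (by simp)

lemma ppred_ball {f : α → ℕ} {R : α → ℕ → Prop} (hf : Primrec f) (hR : PrimrecRel R) :
    PrimrecPred fun a => ∀ i < f a, R a i := by
  have h1 : PrimrecRel fun (L : List ℕ) (a : α) => ∀ i ∈ L, R a i :=
    PrimrecRel.forall_mem_list (R := fun i a => R a i) (hR.comp .snd .fst)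
  exact (h1.comp (list_range.comp hf) .id).of_eq (by simp)

lemma ppred_const (p : Prop) : PrimrecPred fun _ : α => p := by
  classical
  exact ⟨fun _ => Classical.propDecidable p, Primrec.const _⟩

lemma ppred_imp {p q : α → Prop} (hp : PrimrecPred p) (hq : PrimrecPred q) :
    PrimrecPred fun a => p a → q a :=
  (hp.not.or hq).of_eq fun a => by tauto

lemma ppred_iff {p q : α → Prop} (hp : PrimrecPred p) (hq : PrimrecPred q) :
    PrimrecPred fun a => (p a ↔ q a) :=
  ((ppred_imp hp hq).and (ppred_imp hq hp)).of_eq fun a => by tauto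

end primrec

/-- `Σ_j` predicates of natural numbers. -/
def SigR : ℕ → (ℕ → Prop) → Prop
  | 0, P => PrimrecPred P
  | j + 1, P => ∃ Q : ℕ → Prop, SigR j (fun x => ¬ Q x) ∧ ∀ x, P x ↔ ∃ y, Q (sp y x)

/-- `Π_j` predicates of natural numbers. -/
def PiR (j : ℕ) (P : ℕ → Prop) : Prop := SigR j fun x => ¬ P x

lemma SigR.congr {j : ℕ} {P P' : ℕ → Prop} (h : SigR j P) (e : ∀ x, P x ↔ P' x) : SigR j P' := by
  have : P = P' := funext fun x => propext (e x)
  rwa [← this]

lemma PiR.congr {j : ℕ} {P P' : ℕ → Prop} (h : PiR j P) (e : ∀ x, P x ↔ P' x) : PiR j P' :=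
  SigR.congr h fun x => not_congr (e x)

lemma SigR.not {j : ℕ} {P : ℕ → Prop} (h : SigR j P) : PiR j fun x => ¬ P x :=
  SigR.congr h fun _ => not_not.symm

lemma PiR.not {j : ℕ} {P : ℕ → Prop} (h : PiR j P) : SigR j fun x => ¬ P x := h

lemma piR_zero {P : ℕ → Prop} : PiR 0 P ↔ PrimrecPred P :=
  ⟨fun h => (PrimrecPred.not h).of_eq fun _ => not_not, fun h => PrimrecPred.not h⟩

lemma sigR_succ {j : ℕ} {P Q : ℕ → Prop} (h : PiR j Q) (e : ∀ x, P x ↔ ∃ y, Q (sp y x)) :
    SigR (j + 1) P := ⟨Q, h, e⟩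

lemma piR_succ {j : ℕ} {P Q : ℕ → Prop} (h : SigR j Q) (e : ∀ x, P x ↔ ∀ y, Q (sp y x)) :
    PiR (j + 1) P := ⟨fun x => ¬ Q x, h.not, fun x => by
      change ¬ P x ↔ ∃ y, ¬ Q (sp y x)
      rw [e]; push Not; rfl⟩

lemma piR_succ_iff {j : ℕ} {P : ℕ → Prop} :
    PiR (j + 1) P ↔ ∃ Q, SigR j Q ∧ ∀ x, P x ↔ ∀ y, Q (sp y x) := by
  constructor
  · rintro ⟨Q, h, e⟩
    refine ⟨fun x => ¬ Q x, h, fun x => ?_⟩
    have := e x
    constructor
    · intro h y hy; exact (this.2 ⟨y, hy⟩) h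
    · intro h; by_contra hc; obtain ⟨y, hy⟩ := this.1 hc; exact h y hy
  · rintro ⟨Q, h, e⟩; exact piR_succ h e

/-- closure under primitive recursive substitution -/
lemma SigR.comp {j : ℕ} {P : ℕ → Prop} (h : SigR j P) {f : ℕ → ℕ} (hf : Primrec f) :
    SigR j fun x => P (f x) := by
  induction j generalizing P f with
  | zero => exact PrimrecPred.comp h hf
  | succ j ih =>
    obtain ⟨Q, hQ, e⟩ := h
    refine ⟨fun z => Q (sp (sf z) (f (ss z))), ?_, fun x => ?_⟩
    · exact ih hQ (f := fun z => sp (sf z) (f (ss z)))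
        (primrec_sp.comp primrec_sf (hf.comp primrec_ss))
    · simp [e]

lemma PiR.comp {j : ℕ} {P : ℕ → Prop} (h : PiR j P) {f : ℕ → ℕ} (hf : Primrec f) :
    PiR j fun x => P (f x) := SigR.comp h hf

lemma sigR_of_pi {j : ℕ} {P : ℕ → Prop} (h : PiR j P) : SigR (j + 1) P := by
  refine sigR_succ (Q := fun z => P (ss z)) (h.comp primrec_ss) fun x => ?_
  simp

lemma piR_of_sig {j : ℕ} {P : ℕ → Prop} (h : SigR j P) : PiR (j + 1) P :=
  sigR_of_pi (P := fun x => ¬ P x) h.not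

lemma sigR_mono_succ {j : ℕ} {P : ℕ → Prop} (h : SigR j P) : SigR (j + 1) P := by
  induction j generalizing P with
  | zero => exact sigR_of_pi (piR_zero.2 h)
  | succ j ih =>
    obtain ⟨Q, hQ, e⟩ := h
    exact ⟨Q, ih hQ, e⟩

lemma piR_mono_succ {j : ℕ} {P : ℕ → Prop} (h : PiR j P) : PiR (j + 1) P :=
  sigR_mono_succ h

lemma sigR_mono {i j : ℕ} (hij : i ≤ j) {P : ℕ → Prop} (h : SigR i P) : SigR j P := by
  induction hij with
  | refl => exact h
  | step _ ih => exact sigR_mono_succ ih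

lemma piR_mono {i j : ℕ} (hij : i ≤ j) {P : ℕ → Prop} (h : PiR i P) : PiR j P :=
  sigR_mono hij h

lemma sigR_of_primrec {j : ℕ} {P : ℕ → Prop} (h : PrimrecPred P) : SigR j P :=
  sigR_mono (Nat.zero_le j) h

lemma piR_of_primrec {j : ℕ} {P : ℕ → Prop} (h : PrimrecPred P) : PiR j P :=
  sigR_of_primrec h.not

lemma sigR_and_or (j : ℕ) : (∀ P Q : ℕ → Prop, SigR j P → SigR j Q → SigR j fun x => P x ∧ Q x) ∧
    (∀ P Q : ℕ → Prop, SigR j P → SigR j Q → SigR j fun x => P x ∨ Q x) := by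
  induction j with
  | zero => exact ⟨fun P Q hP hQ => PrimrecPred.and hP hQ, fun P Q hP hQ => PrimrecPred.or hP hQ⟩
  | succ j ih =>
    obtain ⟨iha, iho⟩ := ih
    have pa : ∀ P Q : ℕ → Prop, PiR j P → PiR j Q → PiR j fun x => P x ∧ Q x :=
      fun P Q hP hQ => SigR.congr (iho _ _ hP hQ) fun x => by tauto
    have po : ∀ P Q : ℕ → Prop, PiR j P → PiR j Q → PiR j fun x => P x ∨ Q x :=
      fun P Q hP hQ => SigR.congr (iha _ _ hP hQ) fun x => by tauto
    constructor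
    · rintro P Q ⟨P', hP, eP⟩ ⟨Q', hQ, eQ⟩
      refine sigR_succ (Q := fun z => P' (sp (sf (sf z)) (ss z)) ∧ Q' (sp (ss (sf z)) (ss z)))
        (pa _ _ ?_ ?_) fun x => ?_
      · exact PiR.comp hP (primrec_sp.comp (primrec_sf.comp primrec_sf) primrec_ss)
      · exact PiR.comp hQ (primrec_sp.comp (primrec_ss.comp primrec_sf) primrec_ss)
      · rw [eP, eQ]
        constructor
        · rintro ⟨⟨y, hy⟩, ⟨z, hz⟩⟩
          exact ⟨sp y z, by simpa using ⟨hy, hz⟩⟩
        · rintro ⟨y, hy⟩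
          simp only [sf_sp, ss_sp] at hy
          exact ⟨⟨_, hy.1⟩, ⟨_, hy.2⟩⟩
    · rintro P Q ⟨P', hP, eP⟩ ⟨Q', hQ, eQ⟩
      refine sigR_succ (Q := fun z => P' z ∨ Q' z) (po _ _ hP hQ) fun x => ?_
      rw [eP, eQ]
      constructor
      · rintro (⟨y, hy⟩ | ⟨y, hy⟩)
        · exact ⟨y, Or.inl hy⟩
        · exact ⟨y, Or.inr hy⟩
      · rintro ⟨y, hy | hy⟩
        · exact Or.inl ⟨y, hy⟩
        · exact Or.inr ⟨y, hy⟩

lemma SigR.and {j : ℕ} {P Q : ℕ → Prop} (hP : SigR j P) (hQ : SigR j Q) :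
    SigR j fun x => P x ∧ Q x := (sigR_and_or j).1 P Q hP hQ

lemma SigR.or {j : ℕ} {P Q : ℕ → Prop} (hP : SigR j P) (hQ : SigR j Q) :
    SigR j fun x => P x ∨ Q x := (sigR_and_or j).2 P Q hP hQ

lemma PiR.and {j : ℕ} {P Q : ℕ → Prop} (hP : PiR j P) (hQ : PiR j Q) :
    PiR j fun x => P x ∧ Q x := SigR.congr (SigR.or hP hQ) fun x => by tauto

lemma PiR.or {j : ℕ} {P Q : ℕ → Prop} (hP : PiR j P) (hQ : PiR j Q) :
    PiR j fun x => P x ∨ Q x := SigR.congr (SigR.and hP hQ) fun x => by tauto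

/-- closure of `Σ_{j+1}` under existential quantification -/
lemma SigR.ex {j : ℕ} {P : ℕ → Prop} (h : SigR (j + 1) P) :
    SigR (j + 1) fun x => ∃ y, P (sp y x) := by
  obtain ⟨Q, hQ, e⟩ := h
  refine sigR_succ (Q := fun z => Q (sp (sf (sf z)) (sp (ss (sf z)) (ss z)))) ?_ fun x => ?_
  · exact PiR.comp hQ (primrec_sp.comp (primrec_sf.comp primrec_sf)
      (primrec_sp.comp (primrec_ss.comp primrec_sf) primrec_ss))
  · constructor
    · rintro ⟨y, hy⟩
      obtain ⟨z, hz⟩ := (e _).1 hy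
      exact ⟨sp z y, by simpa using hz⟩
    · rintro ⟨w, hw⟩
      simp only [sf_sp, ss_sp] at hw
      exact ⟨_, (e _).2 ⟨_, hw⟩⟩

lemma PiR.all {j : ℕ} {P : ℕ → Prop} (h : PiR (j + 1) P) :
    PiR (j + 1) fun x => ∀ y, P (sp y x) :=
  SigR.congr (SigR.ex (P := fun x => ¬ P x) h) fun x => by push Not; rfl

lemma sigR_bounded (j : ℕ) : (∀ (P : ℕ → Prop) (f : ℕ → ℕ), SigR j P → Primrec f →
      SigR j fun x => ∃ i < f x, P (sp i x)) ∧
    (∀ (P : ℕ → Prop) (f : ℕ → ℕ), SigR j P → Primrec f →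
      SigR j fun x => ∀ i < f x, P (sp i x)) := by
  induction j with
  | zero =>
    constructor
    · intro P f hP hf
      exact ppred_bex (R := fun x i => P (sp i x)) hf
        (PrimrecPred.comp (p := P) hP (primrec_sp.comp .snd .fst))
    · intro P f hP hf
      exact ppred_ball (R := fun x i => P (sp i x)) hf
        (PrimrecPred.comp (p := P) hP (primrec_sp.comp .snd .fst))
  | succ j ih =>
    obtain ⟨ihe, iha⟩ := ih
    have pa : ∀ (P : ℕ → Prop) (f : ℕ → ℕ), PiR j P → Primrec f →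
        PiR j fun x => ∀ i < f x, P (sp i x) :=
      fun P f hP hf => SigR.congr (ihe _ f hP hf) fun x => by push Not; rfl
    have pe : ∀ (P : ℕ → Prop) (f : ℕ → ℕ), PiR j P → Primrec f →
        PiR j fun x => ∃ i < f x, P (sp i x) :=
      fun P f hP hf => SigR.congr (iha _ f hP hf) fun x => by push Not; rfl
    constructor
    · intro P f hP hf
      refine SigR.congr (P := fun x => ∃ i, (fun z => sf z < f (ss z) ∧ P z) (sp i x)) ?_
        fun x => by simp
      refine SigR.ex (P := fun z => sf z < f (ss z) ∧ P z) (SigR.and ?_ hP)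
      exact sigR_of_primrec (nat_lt'.comp primrec_sf (hf.comp primrec_ss))
    · rintro P f ⟨Q, hQ, e⟩ hf
      -- `∀ i < f x, ∃ y, Q (sp y (sp i x)) ↔ ∃ b, ∀ i < f x, ∃ y < b, Q (sp y (sp i x))`
      have h1 : PiR j fun z : ℕ => ∃ y < sf (ss z),
          (fun w => Q (sp (sf w) (sp (sf (ss w)) (ss (ss (ss w)))))) (sp y z) := by
        refine pe (fun w => Q (sp (sf w) (sp (sf (ss w)) (ss (ss (ss w))))))
          (fun z => sf (ss z)) ?_ (primrec_sf.comp primrec_ss)
        exact PiR.comp hQ (primrec_sp.comp primrec_sf (primrec_sp.comp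
          (primrec_sf.comp primrec_ss) (primrec_ss.comp (primrec_ss.comp primrec_ss))))
      -- here `z = sp i (sp b x)`
      have h2 := pa _ (fun z => f (ss z)) h1 (hf.comp primrec_ss)
      -- here `z = sp b x`
      refine sigR_succ h2 fun x => ?_
      simp only [sf_sp, ss_sp]
      constructor
      · intro h
        have h' : ∀ i : ℕ, ∃ y, i < f x → Q (sp y (sp i x)) := by
          intro i
          by_cases hi : i < f x
          · obtain ⟨y, hy⟩ := (e _).1 (h i hi)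
            exact ⟨y, fun _ => hy⟩
          · exact ⟨0, fun h => absurd h hi⟩
        choose g hg using h'
        refine ⟨(Finset.range (f x)).sup g + 1, fun i hi => ⟨g i, ?_, hg i hi⟩⟩
        exact Nat.lt_succ_of_le (Finset.le_sup (f := g) (Finset.mem_range.2 hi))
      · rintro ⟨b, hb⟩ i hi
        obtain ⟨y, -, hy⟩ := hb i hi
        exact (e _).2 ⟨y, hy⟩
where
  nat_lt' : PrimrecRel fun a b : ℕ => a < b := Primrec.nat_lt

lemma SigR.bex {j : ℕ} {P : ℕ → Prop} {f : ℕ → ℕ} (hP : SigR j P) (hf : Primrec f) :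
    SigR j fun x => ∃ i < f x, P (sp i x) := (sigR_bounded j).1 P f hP hf

lemma SigR.ball {j : ℕ} {P : ℕ → Prop} {f : ℕ → ℕ} (hP : SigR j P) (hf : Primrec f) :
    SigR j fun x => ∀ i < f x, P (sp i x) := (sigR_bounded j).2 P f hP hf

lemma PiR.ball {j : ℕ} {P : ℕ → Prop} {f : ℕ → ℕ} (hP : PiR j P) (hf : Primrec f) :
    PiR j fun x => ∀ i < f x, P (sp i x) :=
  SigR.congr (SigR.bex (P := fun x => ¬ P x) hP hf) fun x => by push Not; rfl

lemma PiR.bex {j : ℕ} {P : ℕ → Prop} {f : ℕ → ℕ} (hP : PiR j P) (hf : Primrec f) :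
    PiR j fun x => ∃ i < f x, P (sp i x) :=
  SigR.congr (SigR.ball (P := fun x => ¬ P x) hP hf) fun x => by push Not; rfl

end Pool.Agent.Lib.MP_0d2548_lc
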