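import Mathlib
import Pool.Agent.Lib.MP_0d2548_lc.Prim

/-!
# Universal predicates and the dominating function
-/

set_option autoImplicit false

namespace Pool.Agent.Lib.MP_0d2548_lc

open Nat.Partrec (Code)
open Nat.Partrec.Code Primrec

/-- program number `e` halts on input `p` within `w` steps -/
def Halt (e p w : ℕ) : Prop := (evaln w (Denumerable.ofNat Code e) p).isSome = true

/-- program number `e` halts on input `z` within `w` steps, with output `0` -/
def Acc (e z w : ℕ) : Prop := evaln w (Denumerable.ofNat Code e) z = some 0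

lemma Halt.mono {e p w w' : ℕ} (h : Halt e p w) (hw : w ≤ w') : Halt e p w' := by
  unfold Halt at *
  obtain ⟨x, hx⟩ := Option.isSome_iff_exists.1 h
  have : x ∈ evaln w' (Denumerable.ofNat Code e) p := evaln_mono hw hx
  rw [Option.mem_def.1 this]; rfl

lemma primrec_evaln' : Primrec fun z : ℕ × ℕ × ℕ => evaln z.2.2 (Denumerable.ofNat Code z.1) z.2.1 :=
  primrec_evaln.comp (Primrec.pair (Primrec.pair (Primrec.snd.comp Primrec.snd)
    ((Primrec.ofNat Code).comp Primrec.fst)) (Primrec.fst.comp Primrec.snd))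

lemma ppred_halt {α : Type*} [Primcodable α] {f g k : α → ℕ} (hf : Primrec f) (hg : Primrec g)
    (hk : Primrec k) : PrimrecPred fun a => Halt (f a) (g a) (k a) := by
  have h : Primrec fun z : ℕ × ℕ × ℕ =>
      (evaln z.2.2 (Denumerable.ofNat Code z.1) z.2.1).isSome :=
    Primrec.option_isSome.comp primrec_evaln'
  have h2 : PrimrecPred fun a =>
      (evaln (k a) (Denumerable.ofNat Code (f a)) (g a)).isSome = true := by
    have := Primrec.eq.comp (h.comp (Primrec.pair hf (Primrec.pair hg hk)))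
      (Primrec.const true)
    exact this
  exact h2

lemma ppred_acc {α : Type*} [Primcodable α] {f g k : α → ℕ} (hf : Primrec f) (hg : Primrec g)
    (hk : Primrec k) : PrimrecPred fun a => Acc (f a) (g a) (k a) := by
  have h2 : PrimrecPred fun a =>
      evaln (k a) (Denumerable.ofNat Code (f a)) (g a) = some 0 :=
    Primrec.eq.comp (primrec_evaln'.comp (Primrec.pair hf (Primrec.pair hg hk)))
      (Primrec.const (some 0))
  exact h2

/-- universal `Σ_j` predicates (for `j = 0`: the complement of bounded halting) -/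
def U : ℕ → ℕ → ℕ → Prop
  | 0, e, x => ¬ Halt e (ss x) (sf x)
  | j + 1, e, x => ∃ y, ¬ U j e (sp y x)

lemma sigR_U (j : ℕ) : SigR j fun z => U j (sf z) (ss z) := by
  induction j with
  | zero =>
    exact (ppred_halt primrec_sf (primrec_ss.comp primrec_ss) (primrec_sf.comp primrec_ss)).not
  | succ j ih =>
    refine sigR_succ (Q := fun z => ¬ U j (sf (ss z)) (sp (sf z) (ss (ss z)))) ?_ fun x => ?_
    · have := SigR.comp ih (f := fun z => sp (sf (ss z)) (sp (sf z) (ss (ss z))))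
        (primrec_sp.comp (primrec_sf.comp primrec_ss)
          (primrec_sp.comp primrec_sf (primrec_ss.comp primrec_ss)))
      simp only [sf_sp, ss_sp] at this
      exact this.not
    · simp [U]

/-- the search program for a primitive recursive predicate -/
lemma exists_search {Q : ℕ → Prop} (hQ : PrimrecPred Q) :
    ∃ e, (∀ p, (∃ y, Q (sp y p)) → ∃ w, Halt e p w) ∧
      ∀ w p, Halt e p w → ∃ y < w, Q (sp y p) := by
  classical
  obtain ⟨dQ, hq⟩ := hQ
  -- `f z = 0` iff `Q`
  let f : ℕ → ℕ := fun z => if Q (sp z.unpair.2 z.unpair.1) then 0 else 1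
  have hf : Primrec f := by
    refine Primrec.ite ?_ (Primrec.const 0) (Primrec.const 1)
    exact PrimrecPred.comp (p := Q) ⟨dQ, hq⟩ (primrec_sp.comp
      (Primrec.snd.comp Primrec.unpair) (Primrec.fst.comp Primrec.unpair))
  have hf' : Nat.Partrec (fun z => Part.some (f z)) := Nat.Partrec.of_primrec (Primrec.nat_iff.1 hf)
  have hr := Nat.Partrec.rfind hf'
  obtain ⟨c, hc⟩ := exists_code.1 hr
  have hdom : ∀ p y, y ∈ eval c p → Q (sp y p) := by
    intro p y hy
    rw [hc] at hy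
    have := Nat.rfind_spec hy
    simp [f] at this
    exact this
  refine ⟨Encodable.encode (Code.comp Code.id c), ?_, ?_⟩
  · intro p hp
    have : (eval c p).Dom := by
      rw [hc]
      refine Nat.rfind_dom.2 ?_
      obtain ⟨y, hy⟩ := hp
      exact ⟨y, by simp [f, hy], fun _ => by simp⟩
    obtain ⟨y, hy⟩ := Part.dom_iff_mem.1 this
    have h2 : y ∈ eval (Code.comp Code.id c) p := by
      simp only [eval]
      refine Part.mem_bind hy ?_
      rw [eval_id]; exact Part.mem_some y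
    obtain ⟨w, hw⟩ := evaln_complete.1 h2
    refine ⟨w, ?_⟩
    unfold Halt
    rw [Denumerable.ofNat_encode, Option.mem_def.1 hw]; rfl
  · intro w p hw
    unfold Halt at hw
    rw [Denumerable.ofNat_encode] at hw
    obtain ⟨x, hx⟩ := Option.isSome_iff_exists.1 hw
    cases w with
    | zero => simp [evaln] at hx
    | succ w =>
      simp only [evaln, bind, Option.bind_eq_some_iff, Option.guard_eq_some'] at hx
      obtain ⟨-, -, y, hy, hx⟩ := hx
      exact ⟨y, evaln_bound hx, hdom p y (evaln_sound hy)⟩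

/-- deciding programs for primitive recursive predicates -/
lemma exists_decider {P : ℕ → Prop} (hP : PrimrecPred P) :
    ∃ e, (∀ z w, Acc e z w → P z) ∧ (∀ z w, Halt e z w → P z → Acc e z w) ∧
      ∀ z, ∃ w, Halt e z w := by
  classical
  obtain ⟨dP, hp⟩ := hP
  let f : ℕ → ℕ := fun z => if P z then 0 else 1
  have hf : Primrec f := Primrec.ite (⟨dP, hp⟩ : PrimrecPred P) (Primrec.const 0) (Primrec.const 1)
  have hf' : Nat.Partrec (fun z => Part.some (f z)) := Nat.Partrec.of_primrec (Primrec.nat_iff.1 hf)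
  obtain ⟨c, hc⟩ := exists_code.1 hf'
  have key : ∀ w z x, evaln w c z = some x → x = f z := by
    intro w z x hx
    have := evaln_sound (Option.mem_def.2 hx)
    rw [hc] at this
    exact Part.mem_some_iff.1 this
  refine ⟨Encodable.encode c, ?_, ?_, ?_⟩
  · intro z w h
    unfold Acc at h
    rw [Denumerable.ofNat_encode] at h
    have := key w z 0 h
    by_contra hP
    simp [f, hP] at this
  · intro z w h hPz
    unfold Halt at h
    unfold Acc
    rw [Denumerable.ofNat_encode] at *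
    obtain ⟨x, hx⟩ := Option.isSome_iff_exists.1 h
    rw [hx, key w z x hx]
    simp [f, hPz]
  · intro z
    have : f z ∈ eval c z := by rw [hc]; exact Part.mem_some _
    obtain ⟨w, hw⟩ := evaln_complete.1 this
    refine ⟨w, ?_⟩
    unfold Halt
    rw [Denumerable.ofNat_encode, Option.mem_def.1 hw]; rfl

/-- universality -/
lemma exists_univ (j : ℕ) : ∀ R : ℕ → Prop, SigR (j + 1) R → ∃ e, ∀ x, R x ↔ U (j + 1) e x := by
  induction j with
  | zero =>
    rintro R ⟨Q, hQ, e⟩
    obtain ⟨c, h1, h2⟩ := exists_search (piR_zero.1 hQ)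
    refine ⟨c, fun x => ?_⟩
    rw [e]
    simp only [U, sf_sp, ss_sp, not_not]
    constructor
    · exact h1 x
    · rintro ⟨w, hw⟩
      obtain ⟨y, -, hy⟩ := h2 w x hw
      exact ⟨y, hy⟩
  | succ j ih =>
    rintro R ⟨Q, hQ, e⟩
    obtain ⟨c, hc⟩ := ih _ hQ
    refine ⟨c, fun x => ?_⟩
    rw [e]
    change _ ↔ ∃ y, ¬ U (j + 1) c (sp y x)
    refine exists_congr fun y => ?_
    rw [← hc]; tauto

/-- `b` bounds the least witnesses of the first `a` many `Π_j` predicates with parameters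
at most `a`. -/
def Am (j a b : ℕ) : Prop :=
  a < b ∧ ∀ e < a + 1, ∀ p < a + 1, (∃ y, ¬ U j e (sp y p)) → ∃ y < b, ¬ U j e (sp y p)

lemma exists_Am (j a : ℕ) : ∃ b, Am j a b := by
  have h : ∀ e p : ℕ, ∃ b, (∃ y, ¬ U j e (sp y p)) → ∃ y < b, ¬ U j e (sp y p) := by
    intro e p
    by_cases h : ∃ y, ¬ U j e (sp y p)
    · obtain ⟨y, hy⟩ := h; exact ⟨y + 1, fun _ => ⟨y, Nat.lt_succ_self y, hy⟩⟩
    · exact ⟨0, fun h' => absurd h' h⟩
  choose g hg using h
  let G : ℕ → ℕ := fun e => (Finset.range (a + 1)).sup (g e)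
  refine ⟨(Finset.range (a + 1)).sup G + a + 1, by omega, fun e he p hp hy => ?_⟩
  obtain ⟨y, hy1, hy2⟩ := hg e p hy
  refine ⟨y, ?_, hy2⟩
  have h1 : g e p ≤ G e := Finset.le_sup (f := g e) (Finset.mem_range.2 hp)
  have h2 : G e ≤ (Finset.range (a + 1)).sup G := Finset.le_sup (f := G) (Finset.mem_range.2 he)
  omega

/-- the least `b` with `Am j a b` -/
noncomputable def mm (j a : ℕ) : ℕ := sInf {b | Am j a b}

lemma mm_spec (j a : ℕ) : Am j a (mm j a) := Nat.sInf_mem (exists_Am j a)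

lemma mm_min {j a b : ℕ} (h : b < mm j a) : ¬ Am j a b := fun hb =>
  absurd (Nat.sInf_le (s := {b | Am j a b}) hb) (not_le.2 h)

lemma eq_mm {j a b : ℕ} (h1 : Am j a b) (h2 : ∀ b' < b, ¬ Am j a b') : b = mm j a := by
  refine le_antisymm ?_ (Nat.sInf_le h1)
  by_contra hc
  exact h2 _ (not_le.1 hc) (mm_spec j a)

lemma lt_mm (j a : ℕ) : a < mm j a := (mm_spec j a).1

lemma piR_Am (j : ℕ) : PiR (j + 1) fun z => Am j (sf z) (ss z) := by
  -- on `z = sp y (sp p (sp e (sp a b)))`
  have hU : SigR j fun z => U j (sf (ss (ss z))) (sp (sf z) (sf (ss z))) := by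
    have := SigR.comp (sigR_U j) (f := fun z => sp (sf (ss (ss z))) (sp (sf z) (sf (ss z))))
      (primrec_sp.comp (primrec_sf.comp (primrec_ss.comp primrec_ss))
        (primrec_sp.comp primrec_sf (primrec_sf.comp primrec_ss)))
    simpa only [sf_sp, ss_sp] using this
  have h1 : PiR j fun z => ∃ y < ss (ss (ss z)),
      (fun w => ¬ U j (sf (ss (ss w))) (sp (sf w) (sf (ss w)))) (sp y z) := by
    exact PiR.bex (P := fun w => ¬ U j (sf (ss (ss w))) (sp (sf w) (sf (ss w))))
      (f := fun z => ss (ss (ss z))) hU.not (primrec_ss.comp (primrec_ss.comp primrec_ss))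
  -- `h1` is a predicate of `z = sp p (sp e (sp a b))`
  have h2 : PiR (j + 1) fun z => U j (sf (ss (ss z))) (sp (sf z) (sf (ss z))) ∨
      ∃ y < ss (ss (ss (ss z))), ¬ U j (sf (ss (ss z))) (sp y (sf (ss z))) := by
    refine PiR.or (piR_of_sig hU) (piR_mono_succ ?_)
    have := PiR.comp h1 (f := ss) primrec_ss
    simpa only [sf_sp, ss_sp] using this
  have h3 := PiR.all h2
  simp only [sf_sp, ss_sp] at h3
  have h4 := PiR.ball (f := fun z => sf (ss z) + 1) h3
    (Primrec.succ.comp (primrec_sf.comp primrec_ss))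
  simp only [sf_sp, ss_sp] at h4
  have h5 := PiR.ball (f := fun z => sf z + 1) h4 (Primrec.succ.comp primrec_sf)
  simp only [sf_sp, ss_sp] at h5
  have h6 : PiR (j + 1) fun z => sf z < ss z :=
    piR_of_primrec (Primrec.nat_lt.comp primrec_sf primrec_ss)
  refine PiR.congr (PiR.and h6 h5) fun z => ?_
  unfold Am
  refine and_congr Iff.rfl (forall_congr' fun e => forall_congr' fun _ => forall_congr' fun p =>
    forall_congr' fun _ => ?_)
  constructor
  · rintro h ⟨y, hy⟩
    rcases h y with h | h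
    · exact absurd h hy
    · exact h
  · intro h y
    by_cases hy : U j e (sp y p)
    · exact Or.inl hy
    · exact Or.inr (h ⟨y, hy⟩)

/-- the dominating function -/
noncomputable def hh (j : ℕ) : ℕ → ℕ
  | 0 => 0
  | k + 1 => sp (mm j (hh j k)) (hh j k)

lemma hh_lt_succ (j k : ℕ) : hh j k < hh j (k + 1) :=
  lt_of_lt_of_le (lt_mm j _) (le_sp_left _ _)

lemma hh_strictMono (j : ℕ) : StrictMono (hh j) := strictMono_nat_of_lt_succ (hh_lt_succ j)

lemma le_hh (j k : ℕ) : k ≤ hh j k := (hh_strictMono j).id_le k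

lemma sp_le_hh {j k x y : ℕ} (hx : x ≤ hh j k) (hy : y ≤ hh j k) : sp x y ≤ hh j (k + 1) :=
  sp_mono (hx.trans (lt_mm j _).le) hy

/-- domination for `Π_j` predicates -/
lemma dom_pi {j : ℕ} {Q : ℕ → Prop} (hQ : PiR j Q) : ∃ k₀, ∀ k ≥ k₀, ∀ p ≤ hh j k,
    (∃ y, Q (sp y p)) → ∃ y < hh j (k + 1), Q (sp y p) := by
  cases j with
  | zero =>
    obtain ⟨e, h1, h2⟩ := exists_search (piR_zero.1 hQ)
    refine ⟨e, fun k hk p hp hy => ?_⟩
    obtain ⟨w, hw⟩ := h1 p hy
    have := (mm_spec 0 (hh 0 k)).2 e (by have := le_hh 0 k; omega) p (by omega)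
      ⟨w, by simpa [U] using hw⟩
    obtain ⟨y, hy1, hy2⟩ := this
    simp only [U, sf_sp, ss_sp, not_not] at hy2
    obtain ⟨y', h3, h4⟩ := h2 y p hy2
    exact ⟨y', lt_of_lt_of_le (h3.trans hy1) (le_sp_left _ _), h4⟩
  | succ j =>
    obtain ⟨e, he⟩ := exists_univ j _ hQ
    refine ⟨e, fun k hk p hp hy => ?_⟩
    obtain ⟨y, hy⟩ := hy
    have := (mm_spec (j + 1) (hh (j + 1) k)).2 e (by have := le_hh (j + 1) k; omega) p (by omega)
      ⟨y, by rw [← he]; simpa using hy⟩
    obtain ⟨y, hy1, hy2⟩ := this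
    rw [← he, not_not] at hy2
    exact ⟨y, lt_of_lt_of_le hy1 (le_sp_left _ _), hy2⟩

/-- domination for `Σ_{j+1}` predicates -/
lemma dom_sigma {j : ℕ} {Q : ℕ → Prop} (hQ : SigR (j + 1) Q) : ∃ k₀, ∀ k ≥ k₀, ∀ p ≤ hh j k,
    (∃ y, Q (sp y p)) → ∃ y < hh j (k + 1), Q (sp y p) := by
  obtain ⟨R, hR, e⟩ := hQ
  have h1 : PiR j fun z => R (sp (sf (sf z)) (sp (ss (sf z)) (ss z))) :=
    PiR.comp hR (primrec_sp.comp (primrec_sf.comp primrec_sf)
      (primrec_sp.comp (primrec_ss.comp primrec_sf) primrec_ss))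
  obtain ⟨k₀, hk⟩ := dom_pi h1
  refine ⟨k₀, fun k hk0 p hp hy => ?_⟩
  obtain ⟨y, hy⟩ := hy
  obtain ⟨w, hw⟩ := (e _).1 hy
  obtain ⟨u, hu1, hu2⟩ := hk k hk0 p hp ⟨sp w y, by simpa using hw⟩
  simp only [sf_sp, ss_sp] at hu2
  exact ⟨ss u, lt_of_le_of_lt (ss_le u) hu1, (e _).2 ⟨_, hu2⟩⟩

/-- iterated second component -/
def pr (c i : ℕ) : ℕ := ss^[i] c

lemma primrec_pr : Primrec₂ pr := by
  unfold pr
  exact (Primrec.nat_iterate Primrec.snd Primrec.fst (primrec_ss.comp Primrec.snd).to₂).to₂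

lemma pr_zero (c : ℕ) : pr c 0 = c := rfl

lemma pr_hh (j k i : ℕ) : pr (hh j (k + i)) i = hh j k := by
  induction i with
  | zero => rfl
  | succ i ih =>
    have h : pr (hh j (k + (i + 1))) (i + 1) = pr (ss (hh j (k + (i + 1)))) i := rfl
    rw [h, show k + (i + 1) = (k + i) + 1 from rfl]
    rw [show hh j (k + i + 1) = sp (mm j (hh j (k + i))) (hh j (k + i)) from rfl, ss_sp]
    exact ih

lemma pr_hh' (j : ℕ) {k i : ℕ} (h : i ≤ k) : pr (hh j k) i = hh j (k - i) := by
  obtain ⟨l, rfl⟩ := Nat.exists_eq_add_of_le h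
  rw [Nat.add_comm, pr_hh]; congr 1; omega

/-- `Π`-part of the graph of `hh`: on `z = sp c k` -/
def Gr1 (j z : ℕ) : Prop := pr (sf z) (ss z) = 0 ∧ ∀ i < ss z,
  pr (sf z) i = sp (sf (pr (sf z) i)) (ss (pr (sf z) i)) ∧
    Am j (ss (pr (sf z) i)) (sf (pr (sf z) i))

/-- `Σ`-part of the graph of `hh`: on `z = sp c k` -/
def Gr2 (j z : ℕ) : Prop := ∀ i < ss z, ∀ b < sf (pr (sf z) i), ¬ Am j (ss (pr (sf z) i)) b

lemma graph_hh (j c k : ℕ) : c = hh j k ↔ Gr1 j (sp c k) ∧ Gr2 j (sp c k) := by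
  unfold Gr1 Gr2
  simp only [sf_sp, ss_sp]
  constructor
  · rintro rfl
    have key : ∀ i < k, pr (hh j k) i = sp (mm j (hh j (k - i - 1))) (hh j (k - i - 1)) := by
      intro i hi
      rw [pr_hh' j hi.le]
      obtain ⟨l, hl⟩ : ∃ l, k - i = l + 1 := ⟨k - i - 1, by omega⟩
      rw [hl]; rfl
    refine ⟨⟨by rw [pr_hh' j le_rfl, Nat.sub_self]; rfl, fun i hi => ?_⟩, fun i hi => ?_⟩
    · rw [key i hi, sf_sp, ss_sp]; exact ⟨rfl, mm_spec _ _⟩
    · rw [key i hi, sf_sp, ss_sp]; exact fun b hb => mm_min hb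
  · rintro ⟨⟨h0, h1⟩, h2⟩
    have : ∀ i ≤ k, pr c (k - i) = hh j i := by
      intro i
      induction i with
      | zero => intro _; simpa [hh] using h0
      | succ i ih =>
        intro hi
        have ih' := ih (by omega)
        obtain ⟨h3, h4⟩ := h1 (k - (i + 1)) (by omega)
        have h5 := h2 (k - (i + 1)) (by omega)
        have h6 : ss (pr c (k - (i + 1))) = pr c (k - i) := by
          rw [show k - i = (k - (i + 1)) + 1 by omega]
          unfold pr
          rw [Function.iterate_succ_apply']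
        rw [h6, ih'] at h4 h5 h3
        rw [h3, eq_mm h4 h5]; rfl
    have := this k le_rfl
    rw [Nat.sub_self] at this
    exact this

lemma piR_Gr1 (j : ℕ) : PiR (j + 1) (Gr1 j) := by
  unfold Gr1
  refine PiR.and (piR_of_primrec ?_) ?_
  · exact Primrec.eq.comp (primrec_pr.comp primrec_sf primrec_ss) (Primrec.const 0)
  · have hp : Primrec fun z => pr (sf (ss z)) (sf z) :=
      primrec_pr.comp (primrec_sf.comp primrec_ss) primrec_sf
    have h1 : PiR (j + 1) fun z => pr (sf (ss z)) (sf z) =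
        sp (sf (pr (sf (ss z)) (sf z))) (ss (pr (sf (ss z)) (sf z))) ∧
        Am j (ss (pr (sf (ss z)) (sf z))) (sf (pr (sf (ss z)) (sf z))) := by
      refine PiR.and (piR_of_primrec ?_) ?_
      · exact Primrec.eq.comp hp (primrec_sp.comp (primrec_sf.comp hp) (primrec_ss.comp hp))
      · have := PiR.comp (piR_Am j) (f := fun z => sp (ss (pr (sf (ss z)) (sf z)))
          (sf (pr (sf (ss z)) (sf z)))) (primrec_sp.comp (primrec_ss.comp hp) (primrec_sf.comp hp))
        simpa only [sf_sp, ss_sp] using this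
    have h2 := PiR.ball (f := fun z => ss z) h1 primrec_ss
    simpa only [sf_sp, ss_sp] using h2

lemma sigR_Gr2 (j : ℕ) : SigR (j + 1) (Gr2 j) := by
  unfold Gr2
  -- on `z = sp b (sp i (sp c k))`
  have hp : Primrec fun z => pr (sf (ss (ss z))) (sf (ss z)) :=
    primrec_pr.comp (primrec_sf.comp (primrec_ss.comp primrec_ss)) (primrec_sf.comp primrec_ss)
  have hp' : Primrec fun z => pr (sf (ss z)) (sf z) :=
    primrec_pr.comp (primrec_sf.comp primrec_ss) primrec_sf
  have h1 : SigR (j + 1) fun z => ¬ Am j (ss (pr (sf (ss (ss z))) (sf (ss z)))) (sf z) := by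
    have := SigR.comp (f := fun z => sp (ss (pr (sf (ss (ss z))) (sf (ss z)))) (sf z))
      (piR_Am j).not (primrec_sp.comp (primrec_ss.comp hp) primrec_sf)
    simpa only [sf_sp, ss_sp] using this
  have h2 := SigR.ball (f := fun z => sf (pr (sf (ss z)) (sf z))) h1 (primrec_sf.comp hp')
  simp only [sf_sp, ss_sp] at h2
  have h3 := SigR.ball (f := fun z => ss z) h2 primrec_ss
  simpa only [sf_sp, ss_sp] using h3

end Pool.Agent.Lib.MP_0d2548_lc
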