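import Mathlib
import Pool.Agent.Lib.MP_0d2548_lc.Univ

/-!
# The cut model inside a definable ultrapower of `ℕ`
-/

set_option autoImplicit false

namespace Pool.Agent.Lib.MP_0d2548_lc

open Nat.Partrec (Code)
open Nat.Partrec.Code Filter

/-- codes for a countable class of functions -/
inductive Cd : Type
  | base (c : Code)
  | h
  | comp (a b : Cd)
  | pair (a b : Cd)
  | mu (a : Cd)

open Classical in
/-- the function coded by a code -/
noncomputable def Cd.ev (j : ℕ) : Cd → ℕ → ℕ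
  | .base c => fun n => if h : (eval c n).Dom then (eval c n).get h else 0
  | .h => hh j
  | .comp a b => fun n => a.ev j (b.ev j n)
  | .pair a b => fun n => sp (a.ev j n) (b.ev j n)
  | .mu a => fun n => sInf {y | a.ev j (sp y n) = 0}

/-- tree encoding used for countability -/
noncomputable def Cd.enc : Cd → ℕ
  | .base c => Nat.pair 0 (Encodable.encode c)
  | .h => Nat.pair 1 0
  | .comp a b => Nat.pair 2 (Nat.pair a.enc b.enc)
  | .pair a b => Nat.pair 3 (Nat.pair a.enc b.enc)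
  | .mu a => Nat.pair 4 a.enc

lemma Cd.enc_injective : Function.Injective Cd.enc := by
  intro a
  induction a with
  | base c =>
    intro b h
    cases b <;> simp [Cd.enc, Nat.pair_eq_pair] at h ⊢
    exact h
  | h => intro b h; cases b <;> simp [Cd.enc, Nat.pair_eq_pair] at h ⊢
  | comp a1 a2 ih1 ih2 =>
    intro b h
    cases b <;> simp [Cd.enc, Nat.pair_eq_pair] at h ⊢
    exact ⟨ih1 h.1, ih2 h.2⟩
  | pair a1 a2 ih1 ih2 =>
    intro b h
    cases b <;> simp [Cd.enc, Nat.pair_eq_pair] at h ⊢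
    exact ⟨ih1 h.1, ih2 h.2⟩
  | mu a ih =>
    intro b h
    cases b <;> simp [Cd.enc, Nat.pair_eq_pair] at h ⊢
    exact ih h

instance : Countable Cd := Cd.enc_injective.countable

/-- the countable class of functions -/
def Bf (j : ℕ) (f : ℕ → ℕ) : Prop := ∃ c : Cd, c.ev j = f

/-- predicates decided by a function of the class -/
def BP (j : ℕ) (P : ℕ → Prop) : Prop := ∃ f, Bf j f ∧ ∀ x, P x ↔ f x = 0

variable {j : ℕ}

lemma Bf.of_primrec {f : ℕ → ℕ} (hf : Primrec f) : Bf j f := by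
  have hf' : Nat.Partrec (fun z => Part.some (f z)) := Nat.Partrec.of_primrec (Primrec.nat_iff.1 hf)
  obtain ⟨c, hc⟩ := exists_code.1 hf'
  refine ⟨.base c, ?_⟩
  funext n
  simp [Cd.ev, hc]

lemma Bf.h : Bf j (hh j) := ⟨.h, rfl⟩

lemma Bf.comp {f g : ℕ → ℕ} (hf : Bf j f) (hg : Bf j g) : Bf j fun n => f (g n) := by
  obtain ⟨a, rfl⟩ := hf; obtain ⟨b, rfl⟩ := hg; exact ⟨.comp a b, rfl⟩

lemma Bf.pair {f g : ℕ → ℕ} (hf : Bf j f) (hg : Bf j g) : Bf j fun n => sp (f n) (g n) := by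
  obtain ⟨a, rfl⟩ := hf; obtain ⟨b, rfl⟩ := hg; exact ⟨.pair a b, rfl⟩

lemma Bf.id : Bf j fun n => n := Bf.of_primrec Primrec.id

lemma BP.mu {P : ℕ → Prop} (hP : BP j P) : Bf j fun n => sInf {y | P (sp y n)} := by
  obtain ⟨f, ⟨c, hc⟩, hf⟩ := hP
  refine ⟨.mu c, ?_⟩
  funext n
  simp [Cd.ev, hc, hf]

lemma BP.congr {P Q : ℕ → Prop} (hP : BP j P) (e : ∀ x, P x ↔ Q x) : BP j Q := by
  obtain ⟨f, hf, h⟩ := hP; exact ⟨f, hf, fun x => (e x).symm.trans (h x)⟩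

lemma BP.comp {P : ℕ → Prop} (hP : BP j P) {g : ℕ → ℕ} (hg : Bf j g) : BP j fun x => P (g x) := by
  obtain ⟨f, hf, h⟩ := hP; exact ⟨_, hf.comp hg, fun x => h (g x)⟩

lemma BP.of_primrec {P : ℕ → Prop} (hP : PrimrecPred P) : BP j P := by
  obtain ⟨dP, hp⟩ := hP
  refine ⟨fun x => if P x then 0 else 1, Bf.of_primrec (Primrec.ite ⟨dP, hp⟩
    (Primrec.const 0) (Primrec.const 1)), fun x => ?_⟩
  by_cases h : P x <;> simp [h]

lemma BP.not {P : ℕ → Prop} (hP : BP j P) : BP j fun x => ¬ P x := by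
  obtain ⟨f, hf, h⟩ := hP
  refine ⟨_, (Bf.of_primrec (Primrec.nat_sub.comp (Primrec.const 1) Primrec.id)).comp hf,
    fun x => ?_⟩
  change ¬ P x ↔ 1 - f x = 0
  rw [h]; omega

lemma BP.and {P Q : ℕ → Prop} (hP : BP j P) (hQ : BP j Q) : BP j fun x => P x ∧ Q x := by
  obtain ⟨f, hf, h⟩ := hP
  obtain ⟨g, hg, h'⟩ := hQ
  refine ⟨_, (Bf.of_primrec (f := fun z => sf z + ss z)
    (Primrec.nat_add.comp primrec_sf primrec_ss)).comp (hf.pair hg), fun x => ?_⟩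
  simp only [h, h', sf_sp, ss_sp]; omega

lemma BP.or {P Q : ℕ → Prop} (hP : BP j P) (hQ : BP j Q) : BP j fun x => P x ∨ Q x :=
  ((hP.not.and hQ.not).not).congr fun x => by tauto

lemma BP.imp {P Q : ℕ → Prop} (hP : BP j P) (hQ : BP j Q) : BP j fun x => P x → Q x :=
  (hP.not.or hQ).congr fun x => by tauto

lemma BP.iff {P Q : ℕ → Prop} (hP : BP j P) (hQ : BP j Q) : BP j fun x => (P x ↔ Q x) :=
  ((hP.imp hQ).and (hQ.imp hP)).congr fun x => by tauto

lemma BP.ex {P : ℕ → Prop} (hP : BP j P) : BP j fun x => ∃ y, P (sp y x) := by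
  refine (hP.comp (hP.mu.pair Bf.id)).congr fun x => ?_
  constructor
  · intro h; exact ⟨_, h⟩
  · intro h; exact Nat.sInf_mem (s := {y | P (sp y x)}) h

lemma BP.all {P : ℕ → Prop} (hP : BP j P) : BP j fun x => ∀ y, P (sp y x) :=
  (hP.not.ex.not).congr fun x => by push Not; rfl

lemma BP.bex {P : ℕ → Prop} (hP : BP j P) {f : ℕ → ℕ} (hf : Bf j f) :
    BP j fun x => ∃ y < f x, P (sp y x) := by
  have h1 : BP j fun z => sf z < f (ss z) := by
    have := (BP.of_primrec (j := j) (P := fun z => sf z < ss z)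
      (Primrec.nat_lt.comp primrec_sf primrec_ss)).comp
      ((Bf.of_primrec primrec_sf).pair (hf.comp (Bf.of_primrec primrec_ss)))
    simpa only [sf_sp, ss_sp] using this
  exact (h1.and hP).ex.congr fun x => by simp

lemma BP.ball {P : ℕ → Prop} (hP : BP j P) {f : ℕ → ℕ} (hf : Bf j f) :
    BP j fun x => ∀ y < f x, P (sp y x) :=
  (hP.not.bex hf).not.congr fun x => by push Not; rfl

lemma BP.of_sigR {i : ℕ} {P : ℕ → Prop} (h : SigR i P) : BP j P := by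
  induction i generalizing P with
  | zero => exact BP.of_primrec h
  | succ i ih =>
    obtain ⟨Q, hQ, e⟩ := h
    have : BP j Q := (ih hQ).not.congr fun x => not_not
    exact this.ex.congr fun x => (e x).symm

lemma BP.of_piR {i : ℕ} {P : ℕ → Prop} (h : PiR i P) : BP j P :=
  (BP.of_sigR h).not.congr fun _ => not_not

/-- the ultrafilter -/
noncomputable def 𝓤 : Ultrafilter ℕ := hyperfilter ℕ

lemma ev_ge (k : ℕ) : ∀ᶠ t in (𝓤 : Filter ℕ), k ≤ t := by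
  have : (𝓤 : Filter ℕ) ≤ atTop := Nat.hyperfilter_le_atTop
  exact this (eventually_ge_atTop k)

lemma ev_not {P : ℕ → Prop} : (∀ᶠ t in (𝓤 : Filter ℕ), ¬ P t) ↔ ¬ ∀ᶠ t in (𝓤 : Filter ℕ), P t :=
  Ultrafilter.eventually_not

lemma ev_or {P Q : ℕ → Prop} : (∀ᶠ t in (𝓤 : Filter ℕ), P t ∨ Q t) ↔
    (∀ᶠ t in (𝓤 : Filter ℕ), P t) ∨ ∀ᶠ t in (𝓤 : Filter ℕ), Q t :=
  Ultrafilter.eventually_or

lemma ev_congr {P Q : ℕ → Prop} (h : ∀ᶠ t in (𝓤 : Filter ℕ), P t ↔ Q t) :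
    (∀ᶠ t in (𝓤 : Filter ℕ), P t) ↔ ∀ᶠ t in (𝓤 : Filter ℕ), Q t :=
  Filter.eventually_congr h

variable (j)

/-- `f` is bounded by the cut -/
def Bd (f : ℕ → ℕ) : Prop := ∃ k, ∀ᶠ t in (𝓤 : Filter ℕ), f t < hh j (t + k)

/-- functions representing elements of the cut -/
def Fn : Type := {f : ℕ → ℕ // Bf j f ∧ Bd j f}

/-- equality almost everywhere -/
instance fnSetoid : Setoid (Fn j) where
  r f g := ∀ᶠ t in (𝓤 : Filter ℕ), f.1 t = g.1 t
  iseqv := ⟨fun _ => Eventually.of_forall fun _ => rfl,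
    fun h => h.mono fun _ h => h.symm,
    fun h h' => (h.and h').mono fun _ h => h.1.trans h.2⟩

/-- The first-order part of the model: a cut in a definable ultrapower of `ℕ`. -/
def Mo : Type := Quotient (fnSetoid j)

variable {j}

/-- the element represented by a function -/
def mk (f : ℕ → ℕ) (hf : Bf j f) (hb : Bd j f) : Mo j := Quotient.mk _ ⟨f, hf, hb⟩

/-- a representing function -/
noncomputable def rep (x : Mo j) : ℕ → ℕ := (Quotient.out x).1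

lemma rep_bf (x : Mo j) : Bf j (rep x) := (Quotient.out x).2.1

lemma rep_bd (x : Mo j) : Bd j (rep x) := (Quotient.out x).2.2

lemma rep_mk {f : ℕ → ℕ} (hf : Bf j f) (hb : Bd j f) :
    ∀ᶠ t in (𝓤 : Filter ℕ), rep (mk f hf hb) t = f t := by
  have h : (fnSetoid j).r (Quotient.out (mk f hf hb)) ⟨f, hf, hb⟩ :=
    Quotient.exact (Quotient.out_eq (mk f hf hb))
  exact h

lemma ext_iff' {x y : Mo j} : x = y ↔ ∀ᶠ t in (𝓤 : Filter ℕ), rep x t = rep y t := by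
  constructor
  · rintro rfl; exact Eventually.of_forall fun _ => rfl
  · intro h
    rw [← Quotient.out_eq x, ← Quotient.out_eq y]
    exact Quotient.sound h

instance : Countable (Mo j) := by
  have h : Function.Surjective (fun c : {c : Cd // Bd j (c.ev j)} =>
      (mk (c.1.ev j) ⟨c.1, rfl⟩ c.2 : Mo j)) := by
    intro x
    obtain ⟨c, hc⟩ := rep_bf x
    have hb : Bd j (c.ev j) := hc ▸ rep_bd x
    refine ⟨⟨c, hb⟩, ?_⟩
    rw [ext_iff']
    refine (rep_mk (j := j) ⟨c, rfl⟩ hb).mono fun t ht => ?_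
    rw [ht, hc]
  exact h.countable

lemma Bd.mono {f g : ℕ → ℕ} (hg : Bd j g) (h : ∀ᶠ t in (𝓤 : Filter ℕ), f t ≤ g t) : Bd j f := by
  obtain ⟨k, hk⟩ := hg
  exact ⟨k, (hk.and h).mono fun t ht => lt_of_le_of_lt ht.2 ht.1⟩

lemma hh_le {k l : ℕ} (h : k ≤ l) (t : ℕ) : hh j (t + k) ≤ hh j (t + l) :=
  (hh_strictMono j).monotone (by omega)

lemma Bd.pair {f g : ℕ → ℕ} (hf : Bd j f) (hg : Bd j g) : Bd j fun t => sp (f t) (g t) := by
  obtain ⟨k, hk⟩ := hf
  obtain ⟨l, hl⟩ := hg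
  refine ⟨max k l + 2, (hk.and hl).mono fun t ht => ?_⟩
  have h1 : f t ≤ hh j (t + max k l) := ht.1.le.trans (hh_le (le_max_left _ _) t)
  have h2 : g t ≤ hh j (t + max k l) := ht.2.le.trans (hh_le (le_max_right _ _) t)
  exact lt_of_le_of_lt (sp_le_hh h1 h2) (hh_lt_succ j _)

/-- domination, in terms of functions bounded by the cut -/
lemma dom_bd {Q : ℕ → Prop} (hQ : SigR (j + 1) Q) {p : ℕ → ℕ} (hp : Bd j p)
    (h : ∀ᶠ t in (𝓤 : Filter ℕ), ∃ y, Q (sp y (p t))) :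
    ∃ k, ∀ᶠ t in (𝓤 : Filter ℕ), ∃ y < hh j (t + k), Q (sp y (p t)) := by
  obtain ⟨k, hk⟩ := hp
  obtain ⟨k₀, hk₀⟩ := dom_sigma hQ
  refine ⟨k + 1, ((hk.and h).and (ev_ge k₀)).mono fun t ht => ?_⟩
  obtain ⟨y, h1, h2⟩ := hk₀ (t + k) (by have := ht.2; omega) (p t) ht.1.1.le ht.1.2
  exact ⟨y, h1, h2⟩

lemma Bd.primrec {F : ℕ → ℕ} (hF : Primrec F) {p : ℕ → ℕ} (hp : Bd j p) :
    Bd j fun t => F (p t) := by
  have hQ : SigR (j + 1) fun z => sf z = F (ss z) :=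
    sigR_of_primrec (Primrec.eq.comp primrec_sf (hF.comp primrec_ss))
  obtain ⟨k, hk⟩ := dom_bd hQ hp (Eventually.of_forall fun t => ⟨F (p t), by simp⟩)
  refine ⟨k, hk.mono fun t ht => ?_⟩
  obtain ⟨y, h1, h2⟩ := ht
  simp only [sf_sp, ss_sp] at h2
  change F (p t) < _
  rwa [← h2]

/-- lift of a primitive recursive function -/
noncomputable def map (F : ℕ → ℕ) (hF : Primrec F) (x : Mo j) : Mo j :=
  mk (fun t => F (rep x t)) ((Bf.of_primrec hF).comp (rep_bf x)) ((rep_bd x).primrec hF)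

lemma rep_map {F : ℕ → ℕ} (hF : Primrec F) (x : Mo j) :
    ∀ᶠ t in (𝓤 : Filter ℕ), rep (map F hF x) t = F (rep x t) := rep_mk _ _

/-- lift of the pairing function -/
noncomputable def prd (x y : Mo j) : Mo j :=
  mk (fun t => sp (rep x t) (rep y t)) ((rep_bf x).pair (rep_bf y)) ((rep_bd x).pair (rep_bd y))

lemma rep_pp (x y : Mo j) :
    ∀ᶠ t in (𝓤 : Filter ℕ), rep (prd x y) t = sp (rep x t) (rep y t) := rep_mk _ _

lemma pp_inj {x y x' y' : Mo j} (h : prd x y = prd x' y') : x = x' ∧ y = y' := by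
  rw [ext_iff'] at h
  constructor <;> rw [ext_iff'] <;>
    filter_upwards [h, rep_pp x y, rep_pp x' y'] with t h1 h2 h3
  · exact (sp_inj (h2.symm.trans (h1.trans h3))).1
  · exact (sp_inj (h2.symm.trans (h1.trans h3))).2

/-- lift of a predicate -/
def lift (R : ℕ → Prop) (x : Mo j) : Prop := ∀ᶠ t in (𝓤 : Filter ℕ), R (rep x t)

lemma lift_pp {R : ℕ → Prop} {x y : Mo j} :
    lift R (prd x y) ↔ ∀ᶠ t in (𝓤 : Filter ℕ), R (sp (rep x t) (rep y t)) :=
  ev_congr ((rep_pp x y).mono fun t ht => by rw [ht])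

lemma lift_map {R : ℕ → Prop} {F : ℕ → ℕ} {hF : Primrec F} {x : Mo j} :
    lift R (map F hF x) ↔ lift (fun z => R (F z)) x :=
  ev_congr ((rep_map hF x).mono fun t ht => by rw [ht])

lemma lift_not {R : ℕ → Prop} {x : Mo j} : lift (fun z => ¬ R z) x ↔ ¬ lift R x := ev_not

lemma lift_and {R R' : ℕ → Prop} {x : Mo j} :
    lift (fun z => R z ∧ R' z) x ↔ lift R x ∧ lift R' x := eventually_and

lemma lift_or {R R' : ℕ → Prop} {x : Mo j} :
    lift (fun z => R z ∨ R' z) x ↔ lift R x ∨ lift R' x := ev_or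

/-- Łoś for least witnesses -/
lemma los {P : ℕ → Prop} (hP : BP j P) {g : ℕ → ℕ} (hg : Bf j g)
    (h : ∀ᶠ t in (𝓤 : Filter ℕ), ∃ y, P (sp y (g t))) :
    ∃ f, Bf j f ∧ ∀ᶠ t in (𝓤 : Filter ℕ), P (sp (f t) (g t)) ∧ ∀ y < f t, ¬ P (sp y (g t)) := by
  refine ⟨fun t => sInf {y | P (sp y (g t))}, hP.mu.comp hg, h.mono fun t ht => ⟨?_, ?_⟩⟩
  · exact Nat.sInf_mem (s := {y | P (sp y (g t))}) ht
  · intro y hy hPy
    exact absurd (Nat.sInf_le (s := {y | P (sp y (g t))}) hPy) (not_le.2 hy)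

/-- Łoś for existential quantifiers whose least witness lies in the cut -/
lemma los_Mo {P : ℕ → Prop} (hP : BP j P) {g : ℕ → ℕ} (hg : Bf j g)
    (h : ∃ b, Bd j b ∧ ∀ᶠ t in (𝓤 : Filter ℕ), ∃ y ≤ b t, P (sp y (g t))) :
    ∃ y : Mo j, (∀ᶠ t in (𝓤 : Filter ℕ), P (sp (rep y t) (g t))) ∧
      ∀ᶠ t in (𝓤 : Filter ℕ), ∀ z < rep y t, ¬ P (sp z (g t)) := by
  obtain ⟨b, hb, h⟩ := h
  obtain ⟨f, hf, h1⟩ := los hP hg (h.mono fun t ⟨y, _, hy⟩ => ⟨y, hy⟩)
  have hfb : Bd j f := by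
    refine hb.mono ?_
    filter_upwards [h, h1] with t h2 h3
    obtain ⟨y, h4, h5⟩ := h2
    by_contra hc
    exact h3.2 y (by omega) h5
  refine ⟨mk f hf hfb, ?_, ?_⟩
  · filter_upwards [h1, rep_mk hf hfb] with t h2 h3
    rw [h3]; exact h2.1
  · filter_upwards [h1, rep_mk hf hfb] with t h2 h3
    rw [h3]; exact h2.2

/-- `Σ_{j+1}` existential statements reflect to the cut -/
lemma lift_ex {Q : ℕ → Prop} (hQ : SigR (j + 1) Q) (x : Mo j) :
    lift (fun z => ∃ y, Q (sp y z)) x ↔ ∃ y : Mo j, lift Q (prd y x) := by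
  constructor
  · intro h
    obtain ⟨k, hk⟩ := dom_bd hQ (rep_bd x) h
    obtain ⟨y, hy, -⟩ := los_Mo (BP.of_sigR hQ) (rep_bf x) ⟨fun t => hh j (t + k), ⟨k + 1,
      Eventually.of_forall fun t => hh_lt_succ j _⟩, hk.mono fun t ⟨y, h1, h2⟩ => ⟨y, h1.le, h2⟩⟩
    exact ⟨y, lift_pp.2 hy⟩
  · rintro ⟨y, hy⟩
    exact (lift_pp.1 hy).mono fun t ht => ⟨_, ht⟩

lemma lift_all {Q : ℕ → Prop} (hQ : PiR (j + 1) Q) (x : Mo j) :
    lift (fun z => ∀ y, Q (sp y z)) x ↔ ∀ y : Mo j, lift Q (prd y x) := by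
  have := lift_ex (Q := fun z => ¬ Q z) hQ x
  have h2 : lift (fun z => ∀ y, Q (sp y z)) x ↔ ¬ lift (fun z => ∃ y, ¬ Q (sp y z)) x := by
    rw [← lift_not]
    refine ev_congr (Eventually.of_forall fun t => ?_)
    push Not; rfl
  rw [h2, this]
  push Not
  exact forall_congr' fun y => by rw [lift_not, not_not]

/-- bounded quantifiers -/
lemma lift_bex {Q : ℕ → Prop} (hQ : BP j Q) (x b : Mo j) :
    (∀ᶠ t in (𝓤 : Filter ℕ), ∃ y < rep b t, Q (sp y (rep x t))) ↔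
      ∃ y : Mo j, (∀ᶠ t in (𝓤 : Filter ℕ), rep y t < rep b t) ∧ lift Q (prd y x) := by
  constructor
  · intro h
    have hP : BP j fun z => sf z < ss (ss z) ∧ Q (sp (sf z) (sf (ss z))) := by
      refine BP.and (BP.of_primrec (Primrec.nat_lt.comp primrec_sf
        (primrec_ss.comp primrec_ss))) ?_
      exact hQ.comp (Bf.of_primrec (primrec_sp.comp primrec_sf (primrec_sf.comp primrec_ss)))
    obtain ⟨y, hy, -⟩ := los_Mo hP ((rep_bf x).pair (rep_bf b)) ⟨rep b, rep_bd b,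
      h.mono fun t ⟨y, h1, h2⟩ => ⟨y, h1.le, by simpa using ⟨h1, h2⟩⟩⟩
    simp only [sf_sp, ss_sp] at hy
    exact ⟨y, hy.mono fun t ht => ht.1, lift_pp.2 (hy.mono fun t ht => ht.2)⟩
  · rintro ⟨y, h1, h2⟩
    filter_upwards [h1, lift_pp.1 h2] with t h3 h4
    exact ⟨_, h3, h4⟩

lemma lift_ball {Q : ℕ → Prop} (hQ : BP j Q) (x b : Mo j) :
    (∀ᶠ t in (𝓤 : Filter ℕ), ∀ y < rep b t, Q (sp y (rep x t))) ↔
      ∀ y : Mo j, (∀ᶠ t in (𝓤 : Filter ℕ), rep y t < rep b t) → lift Q (prd y x) := by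
  have h := lift_bex hQ.not x b
  constructor
  · intro h1 y hy
    rw [lift_pp]
    filter_upwards [h1, hy] with t h2 h3
    exact h2 _ h3
  · intro h1
    by_contra hc
    have h2 : ∀ᶠ t in (𝓤 : Filter ℕ), ∃ y < rep b t, ¬ Q (sp y (rep x t)) := by
      rw [← ev_not] at hc
      filter_upwards [hc] with t ht
      push Not at ht; exact ht
    obtain ⟨y, h3, h4⟩ := h.1 h2
    exact (lift_not.1 h4) (h1 y h3)

end Pool.Agent.Lib.MP_0d2548_lc
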