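import Mathlib
import Pool.Agent.Lib.MP_0d2548_lc.Defs
import Pool.Agent.Lib.MP_0d2548_lc.Germ

/-!
# The model: basic axioms, induction, comprehension, bounding
-/

set_option autoImplicit false

namespace Pool.Agent.Lib.MP_0d2548_lc

open Filter

variable {j : ℕ}

/-- predicates on the cut given by lifts of `Σ_i` predicates, with a parameter -/
def LL (j i : ℕ) (P : Mo j → Prop) : Prop :=
  ∃ R : ℕ → Prop, SigR i R ∧ ∃ p : Mo j, ∀ x, P x ↔ lift R (prd x p)

lemma bd_const (c : ℕ) : Bd j fun _ => c :=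
  ⟨c + 1, Eventually.of_forall fun t => by
    have := le_hh j (t + (c + 1))
    change c < _
    omega⟩

/-- standard elements -/
noncomputable def cst (j c : ℕ) : Mo j := mk (fun _ => c) (Bf.of_primrec (Primrec.const c)) (bd_const c)

lemma rep_cst (c : ℕ) : ∀ᶠ t in (𝓤 : Filter ℕ), rep (cst j c) t = c := rep_mk _ _

lemma primrec_add' : Primrec fun z => sf z + ss z := Primrec.nat_add.comp primrec_sf primrec_ss

lemma primrec_mul' : Primrec fun z => sf z * ss z := Primrec.nat_mul.comp primrec_sf primrec_ss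

/-- The model. -/
@[reducible] noncomputable def mo (j : ℕ) : Str where
  M := Mo j
  zero := cst j 0
  one := cst j 1
  add x y := map (fun z => sf z + ss z) primrec_add' (prd x y)
  mul x y := map (fun z => sf z * ss z) primrec_mul' (prd x y)
  lt x y := ∀ᶠ t in (𝓤 : Filter ℕ), rep x t < rep y t
  S := {Z | LL j 1 (fun x => x ∈ Z) ∧ LL j 1 (fun x => x ∉ Z)}

lemma rep_zero : ∀ᶠ t in (𝓤 : Filter ℕ), rep ((mo j).zero) t = 0 := rep_cst 0

lemma rep_one : ∀ᶠ t in (𝓤 : Filter ℕ), rep ((mo j).one) t = 1 := rep_cst 1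

lemma rep_add (x y : Mo j) :
    ∀ᶠ t in (𝓤 : Filter ℕ), rep ((mo j).add x y) t = rep x t + rep y t := by
  filter_upwards [rep_map primrec_add' (prd x y), rep_pp x y] with t h1 h2
  change rep (map _ primrec_add' (prd x y)) t = _
  rw [h1, h2, sf_sp, ss_sp]

lemma rep_mul (x y : Mo j) :
    ∀ᶠ t in (𝓤 : Filter ℕ), rep ((mo j).mul x y) t = rep x t * rep y t := by
  filter_upwards [rep_map primrec_mul' (prd x y), rep_pp x y] with t h1 h2
  change rep (map _ primrec_mul' (prd x y)) t = _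
  rw [h1, h2, sf_sp, ss_sp]

lemma rep_succ (x : Mo j) :
    ∀ᶠ t in (𝓤 : Filter ℕ), rep ((mo j).add x (mo j).one) t = rep x t + 1 := by
  filter_upwards [rep_add x (mo j).one, rep_one (j := j)] with t h1 h2
  rw [h1, h2]

lemma lt_def (x y : Mo j) : (mo j).lt x y ↔ ∀ᶠ t in (𝓤 : Filter ℕ), rep x t < rep y t := Iff.rfl

lemma basic_mo (j : ℕ) : BasicAxioms (mo j) where
  succ_ne_zero a h := by
    have h' := ext_iff'.1 h
    obtain ⟨t, h1, h2, h3⟩ := (h'.and ((rep_succ a).and (rep_zero (j := j)))).exists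
    rw [h2, h3] at h1; omega
  succ_inj a b h := by
    rw [ext_iff'] at h ⊢
    filter_upwards [h, rep_succ a, rep_succ b] with t h1 h2 h3
    rw [h2, h3] at h1; omega
  add_zero a := by
    rw [ext_iff']
    filter_upwards [rep_add a (mo j).zero, rep_zero (j := j)] with t h1 h2
    rw [h1, h2]; omega
  add_succ a b := by
    rw [ext_iff']
    filter_upwards [rep_add a ((mo j).add b (mo j).one), rep_succ b,
      rep_succ ((mo j).add a b), rep_add a b] with t h1 h2 h3 h4
    rw [h1, h2, h3, h4]; omega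
  mul_zero a := by
    rw [ext_iff']
    filter_upwards [rep_mul a (mo j).zero, rep_zero (j := j)] with t h1 h2
    rw [h1, h2]; omega
  mul_succ a b := by
    rw [ext_iff']
    filter_upwards [rep_mul a ((mo j).add b (mo j).one), rep_succ b,
      rep_add ((mo j).mul a b) a, rep_mul a b] with t h1 h2 h3 h4
    rw [h1, h2, h3, h4]; ring
  not_lt_zero a h := by
    obtain ⟨t, h1, h2⟩ := (h.and (rep_zero (j := j))).exists
    rw [h2] at h1; omega
  lt_succ a b := by
    rw [lt_def, lt_def, ext_iff', ← ev_or]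
    refine ev_congr ?_
    filter_upwards [rep_succ b] with t h1
    rw [h1]; omega

/-! ### functions given by primitive recursive functions with a parameter -/

/-- primitive recursive functions with a parameter -/
def PF (g : Mo j → Mo j) : Prop :=
  ∃ (F : ℕ → ℕ) (hF : Primrec F) (p : Mo j), ∀ x, g x = map F hF (prd x p)

/-- first component -/
noncomputable def fstM (x : Mo j) : Mo j := map sf primrec_sf x

/-- second component -/
noncomputable def sndM (x : Mo j) : Mo j := map ss primrec_ss x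

@[simp] lemma fstM_pp (x y : Mo j) : fstM (prd x y) = x := by
  rw [ext_iff']
  filter_upwards [rep_map primrec_sf (prd x y), rep_pp x y] with t h1 h2
  change rep (map sf _ _) t = _
  rw [h1, h2, sf_sp]

@[simp] lemma sndM_pp (x y : Mo j) : sndM (prd x y) = y := by
  rw [ext_iff']
  filter_upwards [rep_map primrec_ss (prd x y), rep_pp x y] with t h1 h2
  change rep (map ss _ _) t = _
  rw [h1, h2, ss_sp]

lemma PF.id : PF fun x : Mo j => x :=
  ⟨sf, primrec_sf, cst j 0, fun x => (fstM_pp x _).symm⟩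

lemma PF.const (c : Mo j) : PF fun _ : Mo j => c :=
  ⟨ss, primrec_ss, c, fun x => (sndM_pp x _).symm⟩

lemma PF.rep {g : Mo j → Mo j} {F : ℕ → ℕ} {hF : Primrec F} {p : Mo j}
    (h : ∀ x, g x = map F hF (prd x p)) (x : Mo j) :
    ∀ᶠ t in (𝓤 : Filter ℕ), rep (g x) t = F (sp (rep x t) (rep p t)) := by
  filter_upwards [rep_map hF (prd x p), rep_pp x p] with t h1 h2
  rw [h, h1, h2]

lemma PF.pp {f g : Mo j → Mo j} (hf : PF f) (hg : PF g) : PF fun x => prd (f x) (g x) := by
  obtain ⟨F, hF, p, h⟩ := hf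
  obtain ⟨G, hG, q, h'⟩ := hg
  refine ⟨fun z => sp (F (sp (sf z) (sf (ss z)))) (G (sp (sf z) (ss (ss z)))),
    primrec_sp.comp (hF.comp (primrec_sp.comp primrec_sf (primrec_sf.comp primrec_ss)))
      (hG.comp (primrec_sp.comp primrec_sf (primrec_ss.comp primrec_ss))), prd p q, fun x => ?_⟩
  beta_reduce
  rw [ext_iff']
  filter_upwards [rep_map (primrec_sp.comp
    (hF.comp (primrec_sp.comp primrec_sf (primrec_sf.comp primrec_ss)))
      (hG.comp (primrec_sp.comp primrec_sf (primrec_ss.comp primrec_ss)))) (prd x (prd p q)),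
    rep_pp x (prd p q), rep_pp p q, rep_pp (f x) (g x), PF.rep h x, PF.rep h' x]
    with t h1 h2 h3 h4 h5 h6
  rw [h1, h2, h3, h4, h5, h6]
  simp

lemma PF.map {g : Mo j → Mo j} (hg : PF g) {F : ℕ → ℕ} (hF : Primrec F) :
    PF fun x => map F hF (g x) := by
  obtain ⟨G, hG, q, h'⟩ := hg
  refine ⟨fun z => F (G z), hF.comp hG, q, fun x => ?_⟩
  beta_reduce
  rw [ext_iff']
  filter_upwards [rep_map hF (g x), PF.rep h' x, rep_map (hF.comp hG) (prd x q), rep_pp x q]
    with t h1 h2 h3 h4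
  rw [h1, h2, h3, h4]

lemma PF.comp {f g : Mo j → Mo j} (hf : PF f) (hg : PF g) : PF fun x => f (g x) := by
  obtain ⟨F, hF, p, h⟩ := hf
  have := (PF.pp hg (PF.const p)).map hF
  simpa only [h] using this

lemma PF.fst {g : Mo j → Mo j} (hg : PF g) : PF fun x => fstM (g x) := hg.map primrec_sf

lemma PF.snd {g : Mo j → Mo j} (hg : PF g) : PF fun x => sndM (g x) := hg.map primrec_ss

lemma PF.add {f g : Mo j → Mo j} (hf : PF f) (hg : PF g) : PF fun x => (mo j).add (f x) (g x) :=
  (hf.pp hg).map primrec_add'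

lemma PF.mul {f g : Mo j → Mo j} (hf : PF f) (hg : PF g) : PF fun x => (mo j).mul (f x) (g x) :=
  (hf.pp hg).map primrec_mul'

/-! ### the classes `LL` -/

lemma LL.congr {i : ℕ} {P P' : Mo j → Prop} (h : LL j i P) (e : ∀ x, P x ↔ P' x) : LL j i P' := by
  obtain ⟨R, hR, p, h⟩ := h
  exact ⟨R, hR, p, fun x => (e x).symm.trans (h x)⟩

lemma LL.mono {i i' : ℕ} (hi : i ≤ i') {P : Mo j → Prop} (h : LL j i P) : LL j i' P := by
  obtain ⟨R, hR, p, h⟩ := h
  exact ⟨R, sigR_mono hi hR, p, h⟩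

lemma LL.not_mono {i : ℕ} {P : Mo j → Prop} (h : LL j i P) : LL j (i + 1) fun x => ¬ P x := by
  obtain ⟨R, hR, p, h⟩ := h
  exact ⟨fun z => ¬ R z, sigR_of_pi hR.not, p, fun x => by beta_reduce; rw [h, lift_not]⟩

lemma LL.comp {i : ℕ} {P : Mo j → Prop} (h : LL j i P) {g : Mo j → Mo j} (hg : PF g) :
    LL j i fun x => P (g x) := by
  obtain ⟨R, hR, p, h⟩ := h
  obtain ⟨G, hG, q, h'⟩ := hg
  refine ⟨fun z => R (sp (G (sp (sf z) (sf (ss z)))) (ss (ss z))),
    SigR.comp hR (primrec_sp.comp (hG.comp (primrec_sp.comp primrec_sf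
      (primrec_sf.comp primrec_ss))) (primrec_ss.comp primrec_ss)), prd q p, fun x => ?_⟩
  beta_reduce
  rw [h, lift_pp, lift_pp]
  refine ev_congr ?_
  filter_upwards [PF.rep h' x, rep_pp q p] with t h1 h2
  rw [h1, h2]; simp

lemma LL.and {i : ℕ} {P P' : Mo j → Prop} (h : LL j i P) (h' : LL j i P') :
    LL j i fun x => P x ∧ P' x := by
  obtain ⟨R, hR, p, h⟩ := h
  obtain ⟨R', hR', p', h'⟩ := h'
  refine ⟨fun z => R (sp (sf z) (sf (ss z))) ∧ R' (sp (sf z) (ss (ss z))),
    SigR.and (hR.comp (primrec_sp.comp primrec_sf (primrec_sf.comp primrec_ss)))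
      (hR'.comp (primrec_sp.comp primrec_sf (primrec_ss.comp primrec_ss))), prd p p', fun x => ?_⟩
  beta_reduce
  rw [h, h', lift_pp, lift_pp, lift_pp, ← eventually_and]
  refine ev_congr ?_
  filter_upwards [rep_pp p p'] with t h2
  rw [h2]; simp

lemma LL.or {i : ℕ} {P P' : Mo j → Prop} (h : LL j i P) (h' : LL j i P') :
    LL j i fun x => P x ∨ P' x := by
  obtain ⟨R, hR, p, h⟩ := h
  obtain ⟨R', hR', p', h'⟩ := h'
  refine ⟨fun z => R (sp (sf z) (sf (ss z))) ∨ R' (sp (sf z) (ss (ss z))),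
    SigR.or (hR.comp (primrec_sp.comp primrec_sf (primrec_sf.comp primrec_ss)))
      (hR'.comp (primrec_sp.comp primrec_sf (primrec_ss.comp primrec_ss))), prd p p', fun x => ?_⟩
  beta_reduce
  rw [h, h', lift_pp, lift_pp, lift_pp, ← ev_or]
  refine ev_congr ?_
  filter_upwards [rep_pp p p'] with t h2
  rw [h2]; simp

/-- bounded existential quantifier -/
lemma LL.bex {i : ℕ} {P : Mo j → Prop} (h : LL j i P) {g : Mo j → Mo j} (hg : PF g) :
    LL j i fun x => ∃ a, (mo j).lt a (g x) ∧ P (prd x a) := by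
  obtain ⟨R, hR, p, h⟩ := h
  obtain ⟨G, hG, q, h'⟩ := hg
  -- on `sp a (sp x (sp p q))`
  have h1 : SigR i fun z => R (sp (sp (sf (ss z)) (sf z)) (sf (ss (ss z)))) :=
    hR.comp (primrec_sp.comp (primrec_sp.comp (primrec_sf.comp primrec_ss) primrec_sf)
      (primrec_sf.comp (primrec_ss.comp primrec_ss)))
  have h2 := SigR.bex (f := fun z => G (sp (sf z) (ss (ss z)))) h1
    (hG.comp (primrec_sp.comp primrec_sf (primrec_ss.comp primrec_ss)))
  simp only [sf_sp, ss_sp] at h2
  refine ⟨_, h2, prd p q, fun x => ?_⟩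
  have h3 : BP j fun z => R (sp (sp (sf (ss z)) (sf z)) (ss (ss z))) := by
    exact (BP.of_sigR hR).comp (Bf.of_primrec (primrec_sp.comp (primrec_sp.comp
      (primrec_sf.comp primrec_ss) primrec_sf) (primrec_ss.comp primrec_ss)))
  have h4 := lift_bex h3 (prd x p) (g x)
  have h5 : (∃ a, (mo j).lt a (g x) ∧ P (prd x a)) ↔
      ∃ y : Mo j, (∀ᶠ t in (𝓤 : Filter ℕ), rep y t < rep (g x) t) ∧
        lift (fun z => R (sp (sp (sf (ss z)) (sf z)) (ss (ss z)))) (prd y (prd x p)) := by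
    refine exists_congr fun a => and_congr Iff.rfl ?_
    rw [h, lift_pp, lift_pp]
    refine ev_congr ?_
    filter_upwards [rep_pp x a, rep_pp x p] with t e1 e2
    rw [e1, e2]; simp
  beta_reduce
  rw [h5, ← h4, lift_pp]
  refine ev_congr ?_
  filter_upwards [rep_pp x p, rep_pp p q, PF.rep h' x] with t e1 e2 e3
  rw [e1, e2, e3]; simp

/-- bounded universal quantifier -/
lemma LL.ball {i : ℕ} {P : Mo j → Prop} (h : LL j i P) {g : Mo j → Mo j} (hg : PF g) :
    LL j i fun x => ∀ a, (mo j).lt a (g x) → P (prd x a) := by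
  obtain ⟨R, hR, p, h⟩ := h
  obtain ⟨G, hG, q, h'⟩ := hg
  -- on `sp a (sp x (sp p q))`
  have h1 : SigR i fun z => R (sp (sp (sf (ss z)) (sf z)) (sf (ss (ss z)))) :=
    hR.comp (primrec_sp.comp (primrec_sp.comp (primrec_sf.comp primrec_ss) primrec_sf)
      (primrec_sf.comp (primrec_ss.comp primrec_ss)))
  have h2 := SigR.ball (f := fun z => G (sp (sf z) (ss (ss z)))) h1
    (hG.comp (primrec_sp.comp primrec_sf (primrec_ss.comp primrec_ss)))
  simp only [sf_sp, ss_sp] at h2
  refine ⟨_, h2, prd p q, fun x => ?_⟩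
  have h3 : BP j fun z => R (sp (sp (sf (ss z)) (sf z)) (ss (ss z))) := by
    exact (BP.of_sigR hR).comp (Bf.of_primrec (primrec_sp.comp (primrec_sp.comp
      (primrec_sf.comp primrec_ss) primrec_sf) (primrec_ss.comp primrec_ss)))
  have h4 := lift_ball h3 (prd x p) (g x)
  have h5 : (∀ a, (mo j).lt a (g x) → P (prd x a)) ↔
      ∀ y : Mo j, (∀ᶠ t in (𝓤 : Filter ℕ), rep y t < rep (g x) t) →
        lift (fun z => R (sp (sp (sf (ss z)) (sf z)) (ss (ss z)))) (prd y (prd x p)) := by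
    refine forall_congr' fun a => imp_congr Iff.rfl ?_
    rw [h, lift_pp, lift_pp]
    refine ev_congr ?_
    filter_upwards [rep_pp x a, rep_pp x p] with t e1 e2
    rw [e1, e2]; simp
  beta_reduce
  rw [h5, ← h4, lift_pp]
  refine ev_congr ?_
  filter_upwards [rep_pp x p, rep_pp p q, PF.rep h' x] with t e1 e2 e3
  rw [e1, e2, e3]; simp

/-- unbounded existential quantifier -/
lemma LL.ex {i : ℕ} (hi : i ≤ j) {P : Mo j → Prop} (h : LL j (i + 1) P) :
    LL j (i + 1) fun x => ∃ a, P (prd x a) := by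
  obtain ⟨R, hR, p, h⟩ := h
  -- on `sp a (sp x p)`
  have h1 : SigR (i + 1) fun z => R (sp (sp (sf (ss z)) (sf z)) (ss (ss z))) :=
    hR.comp (primrec_sp.comp (primrec_sp.comp (primrec_sf.comp primrec_ss) primrec_sf)
      (primrec_ss.comp primrec_ss))
  refine ⟨_, SigR.ex h1, p, fun x => ?_⟩
  beta_reduce
  rw [lift_ex (sigR_mono (by omega) h1)]
  refine exists_congr fun a => ?_
  rw [h, lift_pp, lift_pp]
  refine ev_congr ?_
  filter_upwards [rep_pp x a, rep_pp x p] with t e1 e2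
  rw [e1, e2]; simp

/-- `Σ_{j+2}` predicates on the model -/
def LT (j : ℕ) (P : Mo j → Prop) : Prop :=
  ∃ Q : Mo j → Prop, LL j (j + 1) (fun x => ¬ Q x) ∧ ∀ x, P x ↔ ∃ y, Q (prd x y)

lemma LT.ex {P : Mo j → Prop} (h : LT j P) : LT j fun x => ∃ a, P (prd x a) := by
  obtain ⟨Q, hQ, e⟩ := h
  refine ⟨fun z => Q (prd (prd (fstM z) (fstM (sndM z))) (sndM (sndM z))), ?_, fun x => ?_⟩
  · exact hQ.comp (((PF.id.fst).pp (PF.id.snd.fst)).pp PF.id.snd.snd)
  · constructor
    · rintro ⟨a, ha⟩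
      obtain ⟨y, hy⟩ := (e _).1 ha
      exact ⟨prd a y, by simpa using hy⟩
    · rintro ⟨u, hu⟩
      simp only [fstM_pp, sndM_pp] at hu
      exact ⟨_, (e _).2 ⟨_, hu⟩⟩

lemma LT.of_LL {P : Mo j → Prop} (h : LL j (j + 1) fun x => ¬ P x) : LT j P :=
  ⟨fun z => P (fstM z), h.comp PF.id.fst, fun x => by
    simp only [fstM_pp]
    exact ⟨fun h => ⟨cst j 0, h⟩, fun ⟨_, h⟩ => h⟩⟩

/-! ### formulas -/

lemma Tm.val_update {𝓜 : Str} {t : Tm} {x : ℕ} (h : ¬ t.Occurs x) (v : ℕ → 𝓜.M) (a : 𝓜.M) :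
    t.val 𝓜 (Function.update v x a) = t.val 𝓜 v := by
  induction t with
  | var i => exact Function.update_of_ne h _ _
  | zero => rfl
  | one => rfl
  | add s t ihs iht =>
    simp only [Tm.Occurs, not_or] at h
    simp only [Tm.val, ihs h.1, iht h.2]
  | mul s t ihs iht =>
    simp only [Tm.Occurs, not_or] at h
    simp only [Tm.val, ihs h.1, iht h.2]

lemma PF.val {w : Mo j → ℕ → Mo j} (hw : ∀ i, PF fun x => w x i) (t : Tm) :
    PF fun x => t.val (mo j) (w x) := by
  induction t with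
  | var i => exact hw i
  | zero => exact PF.const _
  | one => exact PF.const _
  | add s t ihs iht => exact ihs.add iht
  | mul s t ihs iht => exact ihs.mul iht

/-- substituting the second component for a variable -/
noncomputable def upd (w : Mo j → ℕ → Mo j) (x : ℕ) (z : Mo j) : ℕ → Mo j :=
  Function.update (w (fstM z)) x (sndM z)

lemma PF.upd {w : Mo j → ℕ → Mo j} (hw : ∀ i, PF fun x => w x i) (x i : ℕ) :
    PF fun z => upd w x z i := by
  unfold Pool.Agent.Lib.MP_0d2548_lc.upd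
  by_cases h : i = x
  · subst h; simpa using PF.id.snd
  · simp only [Function.update_of_ne h]
    exact (hw i).comp PF.id.fst

lemma upd_pp (w : Mo j → ℕ → Mo j) (x : ℕ) (z a : Mo j) :
    upd w x (prd z a) = Function.update (w z) x a := by
  unfold upd; simp

lemma LL.eq {f g : Mo j → Mo j} (hf : PF f) (hg : PF g) (i : ℕ) :
    LL j i (fun x => f x = g x) ∧ LL j i fun x => ¬ f x = g x := by
  have h0 : PrimrecPred fun z => sf z = ss z := Primrec.eq.comp primrec_sf primrec_ss
  have h1 : LL j i fun x => fstM x = sndM x := by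
    refine ⟨fun z => (fun z => sf z = ss z) (sf z),
      sigR_of_primrec (h0.comp primrec_sf), cst j 0, fun x => ?_⟩
    beta_reduce
    rw [ext_iff', lift_pp]
    refine ev_congr ?_
    filter_upwards [rep_map primrec_sf x, rep_map primrec_ss x] with t e1 e2
    unfold fstM sndM
    rw [e1, e2]; simp
  have h2 : LL j i fun x => ¬ fstM x = sndM x := by
    refine ⟨fun z => ¬ (fun z => sf z = ss z) (sf z),
      sigR_of_primrec (h0.comp primrec_sf).not, cst j 0, fun x => ?_⟩
    beta_reduce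
    rw [ext_iff', lift_not, lift_pp]
    refine not_congr (ev_congr ?_)
    filter_upwards [rep_map primrec_sf x, rep_map primrec_ss x] with t e1 e2
    unfold fstM sndM
    rw [e1, e2]; simp
  have h3 := h1.comp (hf.pp hg)
  have h4 := h2.comp (hf.pp hg)
  simp only [fstM_pp, sndM_pp] at h3 h4
  exact ⟨h3, h4⟩

lemma LL.lt {f g : Mo j → Mo j} (hf : PF f) (hg : PF g) (i : ℕ) :
    LL j i (fun x => (mo j).lt (f x) (g x)) ∧ LL j i fun x => ¬ (mo j).lt (f x) (g x) := by
  have h0 : PrimrecPred fun z => sf z < ss z := Primrec.nat_lt.comp primrec_sf primrec_ss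
  have h1 : LL j i fun x => (mo j).lt (fstM x) (sndM x) := by
    refine ⟨fun z => (fun z => sf z < ss z) (sf z),
      sigR_of_primrec (h0.comp primrec_sf), cst j 0, fun x => ?_⟩
    beta_reduce
    rw [lt_def, lift_pp]
    refine ev_congr ?_
    filter_upwards [rep_map primrec_sf x, rep_map primrec_ss x] with t e1 e2
    unfold fstM sndM
    rw [e1, e2]; simp
  have h2 : LL j i fun x => ¬ (mo j).lt (fstM x) (sndM x) := by
    refine ⟨fun z => ¬ (fun z => sf z < ss z) (sf z),
      sigR_of_primrec (h0.comp primrec_sf).not, cst j 0, fun x => ?_⟩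
    beta_reduce
    rw [lt_def, lift_not, lift_pp]
    refine not_congr (ev_congr ?_)
    filter_upwards [rep_map primrec_sf x, rep_map primrec_ss x] with t e1 e2
    unfold fstM sndM
    rw [e1, e2]; simp
  have h3 := h1.comp (hf.pp hg)
  have h4 := h2.comp (hf.pp hg)
  simp only [fstM_pp, sndM_pp] at h3 h4
  exact ⟨h3, h4⟩

lemma delta0_LL {φ : Fm} (hφ : IsDelta0 φ) {V : ℕ → Set (Mo j)} (hV : ∀ i, V i ∈ (mo j).S) :
    ∀ w : Mo j → ℕ → Mo j, (∀ i, PF fun x => w x i) →
      LL j 1 (fun x => Sat (mo j) (w x) V φ) ∧ LL j 1 fun x => ¬ Sat (mo j) (w x) V φ := by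
  induction hφ with
  | eq s t => intro w hw; exact LL.eq (PF.val hw s) (PF.val hw t) 1
  | lt s t => intro w hw; exact LL.lt (PF.val hw s) (PF.val hw t) 1
  | mem t X =>
    intro w hw
    obtain ⟨h1, h2⟩ := hV X
    exact ⟨h1.comp (PF.val hw t), h2.comp (PF.val hw t)⟩
  | not _ ih =>
    intro w hw
    obtain ⟨h1, h2⟩ := ih w hw
    exact ⟨h2, h1.congr fun x => not_not.symm⟩
  | and _ _ ih1 ih2 =>
    intro w hw
    obtain ⟨h1, h2⟩ := ih1 w hw
    obtain ⟨h3, h4⟩ := ih2 w hw
    exact ⟨h1.and h3, (h2.or h4).congr fun x => by simp only [Sat]; tauto⟩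
  | or _ _ ih1 ih2 =>
    intro w hw
    obtain ⟨h1, h2⟩ := ih1 w hw
    obtain ⟨h3, h4⟩ := ih2 w hw
    exact ⟨h1.or h3, (h2.and h4).congr fun x => by simp only [Sat]; tauto⟩
  | @bex x t φ ht _ ih =>
    intro w hw
    obtain ⟨h1, h2⟩ := ih (upd w x) (PF.upd hw x)
    have h3 := h1.bex (PF.val hw t)
    have h4 := h2.ball (PF.val hw t)
    simp only [upd_pp] at h3 h4
    refine ⟨h3.congr fun z => ?_, h4.congr fun z => ?_⟩
    · refine exists_congr fun a => and_congr ?_ Iff.rfl
      simp only [Sat, Tm.val_update ht]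
      simp [Tm.val]
    · simp only [Sat, Tm.val_update ht, Tm.val, Function.update_self]
      push Not; rfl
  | @ball x t φ ht _ ih =>
    intro w hw
    obtain ⟨h1, h2⟩ := ih (upd w x) (PF.upd hw x)
    have h3 := h1.ball (PF.val hw t)
    have h4 := h2.bex (PF.val hw t)
    simp only [upd_pp] at h3 h4
    refine ⟨h3.congr fun z => ?_, h4.congr fun z => ?_⟩
    · refine forall_congr' fun a => ?_
      simp only [Sat, Tm.val_update ht, Tm.val, Function.update_self]
      tauto
    · simp only [Sat, Tm.val_update ht, Tm.val, Function.update_self]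
      push Not; rfl

end Pool.Agent.Lib.MP_0d2548_lc
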