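import Mathlib
import Pool.Agent.Lib.MP_0d2548_lc.Model

/-!
# The model satisfies `RCA₀` and `BΣ_{j+2}`
-/

set_option autoImplicit false

namespace Pool.Agent.Lib.MP_0d2548_lc

open Filter

variable {j : ℕ}

/-- The statement proved by induction on formulas. -/
def SigGood (j : ℕ) (V : ℕ → Set (Mo j)) (i : ℕ) (φ : Fm) : Prop :=
  ∀ w : Mo j → ℕ → Mo j, (∀ k, PF fun x => w x k) →
    (i ≤ j + 1 → LL j (max i 1) fun x => Sat (mo j) (w x) V φ) ∧
    (i = j + 2 → LT j fun x => Sat (mo j) (w x) V φ)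

/-- The statement proved by induction on formulas. -/
def PiGood (j : ℕ) (V : ℕ → Set (Mo j)) (i : ℕ) (φ : Fm) : Prop :=
  ∀ w : Mo j → ℕ → Mo j, (∀ k, PF fun x => w x k) →
    (i ≤ j + 1 → LL j (max i 1) fun x => ¬ Sat (mo j) (w x) V φ)

lemma sigma_good {V : ℕ → Set (Mo j)} (hV : ∀ i, V i ∈ (mo j).S) {i : ℕ} {φ : Fm}
    (h : IsSigma i φ) : SigGood j V i φ := by
  refine IsSigma.rec (motive_1 := fun i φ _ => SigGood j V i φ)
    (motive_2 := fun i φ _ => PiGood j V i φ) ?_ ?_ ?_ ?_ ?_ ?_ h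
  · intro φ hφ w hw
    exact ⟨fun _ => by simpa using (delta0_LL hφ hV w hw).1, fun h => by omega⟩
  · intro n φ hφ ih w hw
    refine ⟨fun hn => ?_, fun hn => ?_⟩
    · rcases Nat.eq_zero_or_pos n with rfl | hpos
      · -- `Π_0` formulas are `Δ_0`
        cases hφ with
        | zero hd => simpa using (delta0_LL hd hV w hw).1
      · have h1 := ih w hw (by omega)
        have h2 : LL j (n + 1) fun x => Sat (mo j) (w x) V φ := by
          have := h1.not_mono
          rw [max_eq_left (by omega)] at this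
          exact this.congr fun x => not_not
        rwa [max_eq_left (by omega)]
    · have hn' : n = j + 1 := by omega
      subst hn'
      have h1 := ih w hw le_rfl
      rw [max_eq_left (by omega)] at h1
      exact LT.of_LL h1
  · intro n φ x _ ih w hw
    have h1 := ih (upd w x) (PF.upd hw x)
    refine ⟨fun hn => ?_, fun hn => ?_⟩
    · have h2 := h1.1 hn
      rw [max_eq_left (by omega)] at h2 ⊢
      have h3 := LL.ex (i := n) (by omega) h2
      simp only [upd_pp] at h3
      exact h3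
    · have h2 := (h1.2 hn).ex
      simp only [upd_pp] at h2
      exact h2
  · intro φ hφ w hw _
    simpa using (delta0_LL hφ hV w hw).2
  · intro n φ hφ ih w hw hn
    rcases Nat.eq_zero_or_pos n with rfl | hpos
    · cases hφ with
      | zero hd => simpa using (delta0_LL hd hV w hw).2
    · have h1 := (ih w hw).1 (by omega)
      have h2 := h1.not_mono
      rw [max_eq_left (by omega)] at h2
      rwa [max_eq_left (by omega)]
  · intro n φ x _ ih w hw hn
    have h1 := ih (upd w x) (PF.upd hw x) hn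
    rw [max_eq_left (by omega)] at h1 ⊢
    have h3 := LL.ex (i := n) (by omega) h1
    simp only [upd_pp] at h3
    refine h3.congr fun z => ?_
    simp only [Sat]; push Not; rfl

lemma pi_good {V : ℕ → Set (Mo j)} (hV : ∀ i, V i ∈ (mo j).S) {i : ℕ} {φ : Fm}
    (h : IsPi i φ) : PiGood j V i φ := by
  intro w hw hi
  cases h with
  | zero hd => simpa using (delta0_LL hd hV w hw).2
  | @ofSigma n φ h =>
    rcases Nat.eq_zero_or_pos n with rfl | hpos
    · cases h with
      | zero hd => simpa using (delta0_LL hd hV w hw).2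
    · have h2 := ((sigma_good hV h w hw).1 (by omega)).not_mono
      rw [max_eq_left (by omega)] at h2
      rwa [max_eq_left (by omega)]
  | @all n φ x h =>
    -- use the formula `∃ x ¬ φ`
    have : ∀ {i : ℕ} {φ : Fm}, IsPi i φ → PiGood j V i φ := by
      intro i φ h
      refine IsPi.rec (motive_1 := fun i φ _ => True)
        (motive_2 := fun i φ _ => PiGood j V i φ) ?_ ?_ ?_ ?_ ?_ ?_ h
      · intros; trivial
      · intros; trivial
      · intros; trivial
      · intro φ hφ w hw _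
        simpa using (delta0_LL hφ hV w hw).2
      · intro n φ hφ _ w hw hn
        rcases Nat.eq_zero_or_pos n with rfl | hpos
        · cases hφ with
          | zero hd => simpa using (delta0_LL hd hV w hw).2
        · have h1 := (sigma_good hV hφ w hw).1 (by omega)
          have h2 := h1.not_mono
          rw [max_eq_left (by omega)] at h2
          rwa [max_eq_left (by omega)]
      · intro n φ x _ ih w hw hn
        have h1 := ih (upd w x) (PF.upd hw x) hn
        rw [max_eq_left (by omega)] at h1 ⊢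
        have h3 := LL.ex (i := n) (by omega) h1
        simp only [upd_pp] at h3
        refine h3.congr fun z => ?_
        simp only [Sat]; push Not; rfl
    exact this (IsPi.all x h) w hw hi

/-- one variable -/
lemma PF.update (v : ℕ → Mo j) (x i : ℕ) : PF fun a : Mo j => Function.update v x a i := by
  by_cases h : i = x
  · subst h; simpa using PF.id
  · simpa only [Function.update_of_ne h] using PF.const _

/-- induction for the classes `LL` -/
lemma LL.induction {i : ℕ} {P : Mo j → Prop} (h : LL j i P) (h0 : P (mo j).zero)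
    (hs : ∀ a, P a → P ((mo j).add a (mo j).one)) : ∀ a, P a := by
  obtain ⟨R, hR, p, h⟩ := h
  intro a
  by_contra ha
  rw [h, ← lift_not, lift_pp] at ha
  have hB : BP j fun z => ¬ R z := (BP.of_sigR hR).not
  obtain ⟨x, hx1, hx2⟩ := los_Mo hB (rep_bf p) ⟨rep a, rep_bd a, ha.mono fun t ht => ⟨_, le_rfl, ht⟩⟩
  have hx : ¬ P x := by rw [h, ← lift_not, lift_pp]; exact hx1
  by_cases hz : ∀ᶠ t in (𝓤 : Filter ℕ), rep x t = 0
  · apply hx
    have : x = (mo j).zero := by
      rw [ext_iff']; filter_upwards [hz, rep_zero (j := j)] with t h1 h2; rw [h1, h2]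
    rw [this]; exact h0
  · rw [← ev_not] at hz
    let y : Mo j := map Nat.pred Primrec.pred x
    have hy : ∀ᶠ t in (𝓤 : Filter ℕ), rep y t = rep x t - 1 := rep_map _ _
    have h1 : P y := by
      rw [h, lift_pp]
      filter_upwards [hx2, hz, hy] with t h1 h2 h3
      have := h1 (rep y t) (by omega)
      exact not_not.1 this
    have h2 := hs y h1
    apply hx
    have h3 : (mo j).add y (mo j).one = x := by
      rw [ext_iff']; filter_upwards [rep_succ y, hy, hz] with t h1 h2 h3
      rw [h1, h2]; omega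
    rwa [h3] at h2

lemma isigma_mo {n : ℕ} (hn : n ≤ j + 1) : ISigma (mo j) n := by
  intro φ hφ v V hV x h0 hs
  have h1 := (sigma_good hV hφ (fun a => Function.update v x a) (PF.update v x)).1 hn
  exact h1.induction h0 hs

lemma delta1CA_mo (j : ℕ) : Delta1CA (mo j) := by
  intro φ ψ hφ hψ v V hV x h
  have h1 := (sigma_good hV hφ (fun a => Function.update v x a) (PF.update v x)).1 (by omega)
  have h2 := pi_good hV hψ (fun a => Function.update v x a) (PF.update v x) (by omega)
  rw [max_self] at h1 h2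
  refine ⟨{a | Sat (mo j) (Function.update v x a) V φ}, ⟨h1, ?_⟩, fun a => Iff.rfl⟩
  exact h2.congr fun a => not_congr (h a).symm

lemma rca0_mo (j : ℕ) : RCA0 (mo j) := ⟨basic_mo j, isigma_mo (by omega), delta1CA_mo j⟩

/-- the function `hh` iterated beyond the cut -/
lemma above_cut {f : ℕ → ℕ} (hf : ¬ Bd j f) (k : ℕ) :
    ∀ᶠ t in (𝓤 : Filter ℕ), hh j (t + k) ≤ f t := by
  by_contra hc
  rw [← ev_not] at hc
  exact hf ⟨k, hc.mono fun t ht => not_le.1 ht⟩

/-- collection for `Σ_{j+2}` predicates -/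
lemma LT.collection {P : Mo j → Prop} (h : LT j P) (a : Mo j)
    (ha : ∀ c, (mo j).lt c a → ∃ d, P (prd c d)) :
    ∃ b, ∀ c, (mo j).lt c a → ∃ d, (mo j).lt d b ∧ P (prd c d) := by
  obtain ⟨Q, ⟨R, hR, p, hQ⟩, e⟩ := h
  have hQ' : ∀ x, Q x ↔ lift (fun z => ¬ R z) (prd x p) := fun x => by
    rw [lift_not, ← hQ, not_not]
  have hB : BP j fun z => ¬ R z := (BP.of_sigR hR).not
  -- `z = sp u (sp y (sp x (sp b (sp a p))))`
  have h1 : BP j fun z => ¬ R (sp (sp (sp (sf (ss (ss z))) (sf (ss z))) (sf z))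
      (ss (ss (ss (ss (ss z)))))) := by
    refine hB.comp (Bf.of_primrec (primrec_sp.comp (primrec_sp.comp (primrec_sp.comp
      (primrec_sf.comp (primrec_ss.comp primrec_ss)) (primrec_sf.comp primrec_ss)) primrec_sf)
      (primrec_ss.comp (primrec_ss.comp (primrec_ss.comp (primrec_ss.comp primrec_ss))))))
  have h2 := h1.bex (f := fun z => sf (ss (ss z)))
    (Bf.of_primrec (primrec_sf.comp (primrec_ss.comp primrec_ss)))
  simp only [sf_sp, ss_sp] at h2
  -- `z = sp y (sp x (sp b (sp a p)))`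
  have h3 := h2.bex (f := fun z => sf (ss z)) (Bf.of_primrec (primrec_sf.comp primrec_ss))
  simp only [sf_sp, ss_sp] at h3
  -- `z = sp x (sp b (sp a p))`
  have h4 := h3.ball (f := fun z => sf (ss z)) (Bf.of_primrec (primrec_sf.comp primrec_ss))
  simp only [sf_sp, ss_sp] at h4
  -- `z = sp b (sp a p)`
  set CC : ℕ → Prop := fun z => ∀ x < sf (ss z), ∃ y < sf z, ∃ u < sf z,
    ¬ R (sp (sp (sp x y) u) (ss (ss z))) with hCC
  have key : ∀ g : ℕ → ℕ, Bf j g → (∀ k, ∀ᶠ t in (𝓤 : Filter ℕ), hh j (t + k) ≤ g t) →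
      ∀ᶠ t in (𝓤 : Filter ℕ), CC (sp (g t) (sp (rep a t) (rep p t))) := by
    intro g hg hgk
    by_contra hc
    rw [← ev_not] at hc
    have h5 : BP j fun z => ¬ ∃ y < sf (ss z), ∃ u < sf (ss z),
        ¬ R (sp (sp (sp (sf z) y) u) (ss (ss (ss z)))) := h3.not
    have h6 : BP j fun z => sf z < sf (ss (ss z)) := BP.of_primrec
      (Primrec.nat_lt.comp primrec_sf (primrec_sf.comp (primrec_ss.comp primrec_ss)))
    obtain ⟨x, hx, -⟩ := los_Mo (h6.and h5) (hg.pair ((rep_bf a).pair (rep_bf p)))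
      ⟨rep a, rep_bd a, hc.mono fun t ht => by
        simp only [hCC, sf_sp, ss_sp] at ht ⊢
        push Not at ht
        obtain ⟨x, hx1, hx2⟩ := ht
        refine ⟨x, hx1.le, hx1, ?_⟩
        push Not
        exact hx2⟩
    simp only [sf_sp, ss_sp] at hx
    obtain ⟨d, hd⟩ := ha x (hx.mono fun t ht => ht.1)
    obtain ⟨u, hu⟩ := (e _).1 hd
    rw [hQ', lift_pp] at hu
    obtain ⟨k1, hk1⟩ := rep_bd d
    obtain ⟨k2, hk2⟩ := rep_bd u
    obtain ⟨t, ⟨⟨e1, e2⟩, e3⟩, ⟨e4, e5⟩, ⟨e6, e7⟩, e8, e9⟩ :=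
      ((hx.and hu).and ((hk1.and hk2).and ((((hgk k1).and (hgk k2))).and
        ((rep_pp (prd x d) u).and (rep_pp x d))))).exists
    refine e2 ⟨rep d t, by omega, rep u t, by omega, ?_⟩
    rwa [e8, e9] at e3
  -- the least bound
  have hex : ∀ᶠ t in (𝓤 : Filter ℕ), ∃ b, CC (sp b (sp (rep a t) (rep p t))) := by
    have := key (fun t => hh j (t + t)) (Bf.h.comp (Bf.of_primrec (Primrec.nat_add.comp
      Primrec.id Primrec.id))) fun k => (ev_ge k).mono fun t ht =>
        (hh_strictMono j).monotone (by omega)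
    exact this.mono fun t ht => ⟨_, ht⟩
  obtain ⟨f, hf, hf2⟩ := los h4 ((rep_bf a).pair (rep_bf p)) hex
  have hfb : Bd j f := by
    by_contra hc
    have h5 := above_cut hc
    have h6 := key (fun t => f t - 1) ((Bf.of_primrec (f := Nat.pred) Primrec.pred).comp hf)
      fun k => by
        filter_upwards [h5 (k + 1)] with t ht
        have := hh_lt_succ j (t + k)
        have e : t + (k + 1) = t + k + 1 := rfl
        rw [e] at ht
        omega
    obtain ⟨t, e1, e2, e3⟩ := (h6.and (hf2.and (h5 1))).exists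
    have : 0 < f t := by have := hh_lt_succ j t; omega
    exact e2.2 (f t - 1) (by omega) e1
  refine ⟨mk f hf hfb, fun c hc => ?_⟩
  have hf3 := rep_mk hf hfb
  -- choose `y`
  have h5 : ∀ᶠ t in (𝓤 : Filter ℕ), ∃ y < rep (mk f hf hfb) t, (fun z => ∃ u < sf (ss (ss z)),
      ¬ R (sp (sp (sp (sf (ss z)) (sf z)) u) (ss (ss (ss (ss z))))))
        (sp y (rep (prd c (prd (mk f hf hfb) (prd a p))) t)) := by
    filter_upwards [hc, hf2, hf3, rep_pp c (prd (mk f hf hfb) (prd a p)),
      rep_pp (mk f hf hfb) (prd a p), rep_pp a p] with t e1 e2 e3 e4 e5 e6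
    have e7 := e2.1
    simp only [hCC, sf_sp, ss_sp] at e7
    obtain ⟨y, hy, u, hu, hr⟩ := e7 (rep c t) e1
    refine ⟨y, by rw [e3]; exact hy, ?_⟩
    simp only [e4, e5, e6, sf_sp, ss_sp, e3]
    exact ⟨u, hu, hr⟩
  obtain ⟨d, hd1, hd2⟩ := (lift_bex h2 _ _).1 h5
  refine ⟨d, hd1, (e _).2 ?_⟩
  rw [lift_pp] at hd2
  have h6 : ∀ᶠ t in (𝓤 : Filter ℕ), ∃ u < rep (mk f hf hfb) t,
      (fun z => ¬ R (sp (sp (sf (ss z)) (sf z)) (ss (ss z)))) (sp u (rep (prd (prd c d) p) t)) := by
    filter_upwards [hd2, rep_pp c (prd (mk f hf hfb) (prd a p)),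
      rep_pp (mk f hf hfb) (prd a p), rep_pp a p, rep_pp (prd c d) p, rep_pp c d]
      with t e1 e2 e3 e4 e5 e6
    simp only [e2, e3, e4, sf_sp, ss_sp] at e1
    simp only [e5, e6, sf_sp, ss_sp]
    exact e1
  have h7 : BP j fun z => ¬ R (sp (sp (sf (ss z)) (sf z)) (ss (ss z))) :=
    hB.comp (Bf.of_primrec (primrec_sp.comp (primrec_sp.comp (primrec_sf.comp primrec_ss)
      primrec_sf) (primrec_ss.comp primrec_ss)))
  obtain ⟨u, -, hu⟩ := (lift_bex h7 _ _).1 h6
  refine ⟨u, ?_⟩
  rw [hQ', lift_pp]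
  rw [lift_pp] at hu
  filter_upwards [hu, rep_pp (prd c d) p, rep_pp (prd c d) u] with t e1 e2 e3
  simp only [e2, sf_sp, ss_sp] at e1
  rw [e3]
  exact e1

lemma bsigma_mo (j : ℕ) : BSigma (mo j) (j + 2) := by
  intro φ hφ v V hV x y hxy a ha
  let w : Mo j → ℕ → Mo j := fun z => Function.update (Function.update v x (fstM z)) y (sndM z)
  have hw : ∀ i, PF fun z => w z i := by
    intro i
    by_cases h : i = y
    · subst h; simpa [w] using PF.id.snd
    · simp only [w, Function.update_of_ne h]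
      exact (PF.update v x i).comp PF.id.fst
  have h1 := (sigma_good hV hφ w hw).2 rfl
  have h2 := h1.collection a
  simp only [w, fstM_pp, sndM_pp] at h2
  exact h2 ha

end Pool.Agent.Lib.MP_0d2548_lc
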