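import Mathlib
import Pool.Agent.Lib.MP_0d2548_lc.Axioms

/-!
# Types over the canonical cofinal sequence, and their extension property
-/

set_option autoImplicit false

namespace Pool.Agent.Lib.MP_0d2548_lc

open Filter

variable {j : ℕ}

/-- the bounded type of an element: program `e` accepts `(x, H(k))` within `H(k+2)` steps -/
def ty (x : Mo j) (e k : ℕ) : Prop :=
  ∀ᶠ t in (𝓤 : Filter ℕ), Acc e (sp (rep x t) (hh j (t + k))) (hh j (t + k + 2))

/-- two elements have the same type -/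
def Eqv (x y : Mo j) : Prop := ∀ e k, ty x e k ↔ ty y e k

lemma Eqv.symm {x y : Mo j} (h : Eqv x y) : Eqv y x := fun e k => (h e k).symm

lemma halt_dom (j e : ℕ) : ∃ k₀, ∀ k ≥ k₀, ∀ z ≤ hh j k, (∃ w, Halt e z w) →
    Halt e z (hh j (k + 1)) := by
  have h : SigR (j + 1) fun z => Halt e (ss z) (sf z) :=
    sigR_of_primrec (ppred_halt (Primrec.const e) primrec_ss primrec_sf)
  obtain ⟨k₀, hk⟩ := dom_sigma h
  refine ⟨k₀, fun k hk0 z hz hw => ?_⟩
  obtain ⟨w, hw⟩ := hw
  obtain ⟨w', h1, h2⟩ := hk k hk0 z hz ⟨w, by simpa using hw⟩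
  simp only [sf_sp, ss_sp] at h2
  exact h2.mono h1.le

/-- primitive recursive predicates are part of the type -/
lemma primty {P : ℕ → Prop} (hP : PrimrecPred P) : ∃ e, (∀ z w, Acc e z w → P z) ∧
    ∀ k, ∀ x : ℕ → ℕ, (∀ᶠ t in (𝓤 : Filter ℕ), x t ≤ hh j (t + k)) →
      ∀ᶠ t in (𝓤 : Filter ℕ), (Acc e (sp (x t) (hh j (t + k))) (hh j (t + k + 2)) ↔
        P (sp (x t) (hh j (t + k)))) := by
  obtain ⟨e, h1, h2, h3⟩ := exists_decider hP
  refine ⟨e, h1, fun k x hx => ?_⟩
  obtain ⟨k₀, hk⟩ := halt_dom j e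
  filter_upwards [hx, ev_ge k₀] with t e1 e2
  refine ⟨h1 _ _, h2 _ _ ?_⟩
  exact hk (t + k + 1) (by omega) _ (sp_le_hh e1 le_rfl) (h3 _)

lemma exists_bound (x : Mo j) : ∃ k₀, ∀ k ≥ k₀, ∀ᶠ t in (𝓤 : Filter ℕ),
    rep x t < hh j (t + k) := by
  obtain ⟨k₀, hk⟩ := rep_bd x
  exact ⟨k₀, fun k hk0 => hk.mono fun t ht => ht.trans_le (hh_le hk0 t)⟩

lemma Eqv.lift {x y : Mo j} (h : Eqv x y) {P : ℕ → Prop} (hP : PrimrecPred P) (k : ℕ) :
    (∀ᶠ t in (𝓤 : Filter ℕ), P (sp (rep x t) (hh j (t + k)))) ↔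
      ∀ᶠ t in (𝓤 : Filter ℕ), P (sp (rep y t) (hh j (t + k))) := by
  obtain ⟨k1, hk1⟩ := exists_bound x
  obtain ⟨k2, hk2⟩ := exists_bound y
  set K := max k (max k1 k2) with hK
  have hP' : PrimrecPred fun z => P (sp (sf z) (pr (ss z) (K - k))) :=
    PrimrecPred.comp (p := P) hP (primrec_sp.comp primrec_sf
      (primrec_pr.comp primrec_ss (Primrec.const _)))
  obtain ⟨e, -, he⟩ := primty (j := j) hP'
  have key : ∀ x : Mo j, (∀ᶠ t in (𝓤 : Filter ℕ), rep x t < hh j (t + K)) →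
      (ty x e K ↔ ∀ᶠ t in (𝓤 : Filter ℕ), P (sp (rep x t) (hh j (t + k)))) := by
    intro x hx
    refine ev_congr ?_
    filter_upwards [he K (rep x) (hx.mono fun t ht => ht.le)] with t e1
    rw [e1]
    simp only [sf_sp, ss_sp]
    rw [pr_hh' j (show K - k ≤ t + K by omega), show t + K - (K - k) = t + k by omega]
  rw [← key x (hk1 K (by omega)), ← key y (hk2 K (by omega)), h]

lemma Eqv.lift' {x y : Mo j} (h : Eqv x y) {P : ℕ → Prop} (hP : PrimrecPred P) :
    Pool.Agent.Lib.MP_0d2548_lc.lift P x ↔ Pool.Agent.Lib.MP_0d2548_lc.lift P y := by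
  have := h.lift (P := fun z => P (sf z)) (PrimrecPred.comp (p := P) hP primrec_sf) 0
  simp only [sf_sp] at this
  exact this

lemma ppred_forall_fin {α : Type*} [Primcodable α] {P : ℕ → α → Prop}
    (h : ∀ i, PrimrecPred (P i)) (n : ℕ) : PrimrecPred fun a => ∀ i < n, P i a := by
  induction n with
  | zero => exact (ppred_const True).of_eq fun a => by simp
  | succ n ih =>
    refine (ih.and (h n)).of_eq fun a => ?_
    constructor
    · rintro ⟨h1, h2⟩ i hi
      rcases Nat.lt_succ_iff_lt_or_eq.1 hi with h | rfl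
      · exact h1 i h
      · exact h2
    · intro h
      exact ⟨fun i hi => h i (by omega), h n (by omega)⟩

/-- agreement of `a` and `b` on all pairs of indices below `i`, at `t` -/
def Agr (j t i a b : ℕ) : Prop := ∀ e < i, ∀ k < i,
  (Acc e (sp a (hh j (t + k))) (hh j (t + k + 2)) ↔ Acc e (sp b (hh j (t + k))) (hh j (t + k + 2)))

lemma bp_acc {f g h : ℕ → ℕ} (hf : Bf j f) (hg : Bf j g) (hh : Bf j h) :
    BP j fun z => Acc (f z) (g z) (h z) := by
  have h0 : PrimrecPred fun z => Acc (sf z) (sf (ss z)) (ss (ss z)) :=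
    ppred_acc primrec_sf (primrec_sf.comp primrec_ss) (primrec_ss.comp primrec_ss)
  have := (BP.of_primrec (j := j) h0).comp (hf.pair (hg.pair hh))
  simpa only [sf_sp, ss_sp] using this

/-- `Agr` is internal: on `z = sp t (sp i (sp a b))` -/
lemma bp_agr : BP j fun z => Agr j (sf z) (sf (ss z)) (sf (ss (ss z))) (ss (ss (ss z))) := by
  -- on `sp k (sp e z)`
  have pt : Primrec fun z => sf (ss (ss z)) := primrec_sf.comp (primrec_ss.comp primrec_ss)
  have pa : Primrec fun z => sf (ss (ss (ss (ss z)))) :=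
    primrec_sf.comp (primrec_ss.comp (primrec_ss.comp (primrec_ss.comp primrec_ss)))
  have pb : Primrec fun z => ss (ss (ss (ss (ss z)))) :=
    primrec_ss.comp (primrec_ss.comp (primrec_ss.comp (primrec_ss.comp primrec_ss)))
  have ph1 : Bf j fun z => hh j (sf (ss (ss z)) + sf z) :=
    Bf.h.comp (Bf.of_primrec (Primrec.nat_add.comp pt primrec_sf))
  have ph2 : Bf j fun z => hh j (sf (ss (ss z)) + sf z + 2) :=
    Bf.h.comp (Bf.of_primrec (Primrec.nat_add.comp (Primrec.nat_add.comp pt primrec_sf)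
      (Primrec.const 2)))
  have pe : Bf j fun z => sf (ss z) := Bf.of_primrec (primrec_sf.comp primrec_ss)
  have h1 := bp_acc pe ((Bf.of_primrec pa).pair ph1) ph2
  have h2 := bp_acc pe ((Bf.of_primrec pb).pair ph1) ph2
  have h3 := (h1.iff h2).ball (f := fun z => sf (ss (ss z))) (Bf.of_primrec pt')
  simp only [sf_sp, ss_sp] at h3
  have h4 := h3.ball (f := fun z => sf (ss z)) (Bf.of_primrec (primrec_sf.comp primrec_ss))
  simp only [sf_sp, ss_sp] at h4
  exact h4
where
  pt' : Primrec fun z => sf (ss (ss z)) := primrec_sf.comp (primrec_ss.comp primrec_ss)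

/-- overspill -/
lemma overspill {D : ℕ → Prop} (hD : BP j D) {q : ℕ → ℕ} (hq : Bf j q)
    (h : ∀ i, ∀ᶠ t in (𝓤 : Filter ℕ), D (sp i (q t))) :
    ∃ f, Bf j f ∧ (∀ i, ∀ᶠ t in (𝓤 : Filter ℕ), i ≤ f t) ∧
      ∀ᶠ t in (𝓤 : Filter ℕ), D (sp (f t) (q t)) := by
  -- on `sp i (sp t q)`
  have hE : BP j fun z => ¬ D (sp (sf z + 1) (ss (ss z))) ∨ sf (ss z) ≤ sf z := by
    refine BP.or (hD.comp (Bf.of_primrec ?_)).not (BP.of_primrec ?_)
    · exact primrec_sp.comp (Primrec.succ.comp primrec_sf) (primrec_ss.comp primrec_ss)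
    · exact Primrec.nat_le.comp (primrec_sf.comp primrec_ss) primrec_sf
  obtain ⟨f, hf, h1⟩ := los hE (Bf.id.pair hq) (Eventually.of_forall fun t => ⟨t, by simp⟩)
  simp only [sf_sp, ss_sp] at h1
  refine ⟨f, hf, fun i => ?_, ?_⟩
  · induction i with
    | zero => exact Eventually.of_forall fun t => Nat.zero_le _
    | succ i ih =>
      filter_upwards [ih, h (i + 1), h1, ev_ge (i + 1)] with t e1 e2 e3 e4
      rcases Nat.lt_or_ge i (f t) with h5 | h5
      · exact h5
      · have : f t = i := by omega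
        rw [this] at e3
        rcases e3.1 with h6 | h6
        · exact absurd e2 h6
        · omega
  · filter_upwards [h 0, h1] with t e1 e2
    rcases Nat.eq_zero_or_pos (f t) with h5 | h5
    · rw [h5]; exact e1
    · have := e2.2 (f t - 1) (by omega)
      push Not at this
      have h6 := this.1
      rwa [show f t - 1 + 1 = f t by omega] at h6

/-- realization of types by overspill -/
lemma realize (y xu w : Mo j) (l : ℕ)
    (h : ∀ i, ∀ᶠ t in (𝓤 : Filter ℕ), ∃ v < hh j (t + l), v ≠ rep w t ∧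
      Agr j t i (rep xu t) (sp (rep y t) v)) :
    ∃ v : Mo j, v ≠ w ∧ Eqv xu (prd y v) := by
  -- inner predicate on `z = sp v (sp i (sp t (sp xu (sp y w))))`
  have hI : BP j fun z => (sf z < hh j (sf (ss (ss z)) + l) ∧ sf z ≠ ss (ss (ss (ss (ss z))))) ∧
      Agr j (sf (ss (ss z))) (sf (ss z)) (sf (ss (ss (ss z))))
        (sp (sf (ss (ss (ss (ss z))))) (sf z)) := by
    have pt : Primrec fun z => sf (ss (ss z)) := primrec_sf.comp (primrec_ss.comp primrec_ss)
    refine BP.and (BP.and ?_ ?_) ?_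
    · have h0 : PrimrecPred fun z => sf z < ss z := Primrec.nat_lt.comp primrec_sf primrec_ss
      have := (BP.of_primrec (j := j) h0).comp ((Bf.of_primrec primrec_sf).pair
        (Bf.h.comp (Bf.of_primrec (Primrec.nat_add.comp pt (Primrec.const l)))))
      simpa only [sf_sp, ss_sp] using this
    · refine (BP.of_primrec ?_).not
      exact Primrec.eq.comp primrec_sf
        (primrec_ss.comp (primrec_ss.comp (primrec_ss.comp (primrec_ss.comp primrec_ss))))
    · have := (bp_agr (j := j)).comp (Bf.of_primrec (f := fun z => sp (sf (ss (ss z)))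
        (sp (sf (ss z)) (sp (sf (ss (ss (ss z)))) (sp (sf (ss (ss (ss (ss z))))) (sf z)))))
        (primrec_sp.comp pt (primrec_sp.comp (primrec_sf.comp primrec_ss)
          (primrec_sp.comp (primrec_sf.comp (primrec_ss.comp (primrec_ss.comp primrec_ss)))
            (primrec_sp.comp (primrec_sf.comp (primrec_ss.comp (primrec_ss.comp
              (primrec_ss.comp primrec_ss)))) primrec_sf)))))
      simpa only [sf_sp, ss_sp] using this
  have hD := hI.ex
  simp only [sf_sp, ss_sp] at hD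
  have hq : Bf j fun t => sp t (sp (rep xu t) (sp (rep y t) (rep w t))) :=
    Bf.id.pair ((rep_bf xu).pair ((rep_bf y).pair (rep_bf w)))
  obtain ⟨f, hf, hf1, hf2⟩ := overspill hD hq (fun i => (h i).mono fun t ht => by
    obtain ⟨v, h1, h2, h3⟩ := ht
    refine ⟨v, ?_⟩
    simp only [sf_sp, ss_sp]
    exact ⟨⟨h1, h2⟩, h3⟩)
  simp only [sf_sp, ss_sp] at hf2
  obtain ⟨v, hv, -⟩ := los_Mo hI (hf.pair hq) ⟨fun t => hh j (t + l), ⟨l + 1,
    Eventually.of_forall fun t => hh_lt_succ j _⟩, hf2.mono fun t ht => by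
      obtain ⟨v, h1, h2⟩ := ht
      refine ⟨v, h1.1.le, ?_⟩
      simp only [sf_sp, ss_sp]
      exact ⟨h1, h2⟩⟩
  simp only [sf_sp, ss_sp] at hv
  refine ⟨v, ?_, ?_⟩
  · intro hvw
    obtain ⟨t, h1⟩ := hv.exists
    exact h1.1.2 (by rw [hvw])
  · intro e k
    refine ev_congr ?_
    filter_upwards [hv, hf1 (e + k + 1), rep_pp y v] with t h1 h2 h3
    rw [h3]
    exact h1.2 e (by omega) k (by omega)

/-- the finite patterns realized by an element -/
lemma pattern_primrec (b : ℕ → ℕ → Prop) (i K l : ℕ) :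
    PrimrecPred fun z => ∃ v < pr (ss z) (K - l), ∀ e < i, ∀ k < i,
      (Acc e (sp (sp (sf z) v) (pr (ss z) (K - k))) (pr (ss z) (K - (k + 2))) ↔ b e k) := by
  refine ppred_bex (R := fun z v => ∀ e < i, ∀ k < i,
      (Acc e (sp (sp (sf z) v) (pr (ss z) (K - k))) (pr (ss z) (K - (k + 2))) ↔ b e k))
    (primrec_pr.comp primrec_ss (Primrec.const _)) ?_
  refine ppred_forall_fin (P := fun e (q : ℕ × ℕ) => ∀ k < i,
    (Acc e (sp (sp (sf q.1) q.2) (pr (ss q.1) (K - k))) (pr (ss q.1) (K - (k + 2))) ↔ b e k))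
    (fun e => ?_) i
  refine ppred_forall_fin (P := fun k (q : ℕ × ℕ) =>
    (Acc e (sp (sp (sf q.1) q.2) (pr (ss q.1) (K - k))) (pr (ss q.1) (K - (k + 2))) ↔ b e k))
    (fun k => ?_) i
  have hs : Primrec fun q : ℕ × ℕ => ss q.1 := primrec_ss.comp Primrec.fst
  refine ppred_iff (ppred_acc (Primrec.const e) ?_ ?_) (ppred_const _)
  · exact primrec_sp.comp (primrec_sp.comp (primrec_sf.comp Primrec.fst) Primrec.snd)
      (primrec_pr.comp hs (Primrec.const _))
  · exact primrec_pr.comp hs (Primrec.const _)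

/-- extension property -/
lemma Eqv.extend {x y : Mo j} (h : Eqv x y) (u : Mo j) : ∃ v, Eqv (prd x u) (prd y v) := by
  obtain ⟨l, hl⟩ := exists_bound u
  have hl := hl l le_rfl
  let w : Mo j := mk (fun t => hh j (t + l)) (Bf.h.comp (Bf.of_primrec (Primrec.nat_add.comp
    Primrec.id (Primrec.const l)))) ⟨l + 1, Eventually.of_forall fun t => hh_lt_succ j _⟩
  have hw : ∀ᶠ t in (𝓤 : Filter ℕ), rep w t = hh j (t + l) := rep_mk _ _
  obtain ⟨v, -, hv⟩ := realize y (prd x u) w l (fun i => by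
    -- truth values on the side of `x ⊗ u`
    let b : ℕ → ℕ → Prop := fun e k => ∀ᶠ t in (𝓤 : Filter ℕ),
      Acc e (sp (sp (rep x t) (rep u t)) (hh j (t + k))) (hh j (t + k + 2))
    have hb : ∀ e k, ∀ᶠ t in (𝓤 : Filter ℕ),
        (Acc e (sp (sp (rep x t) (rep u t)) (hh j (t + k))) (hh j (t + k + 2)) ↔ b e k) := by
      intro e k
      by_cases hc : b e k
      · filter_upwards [(show ∀ᶠ t in (𝓤 : Filter ℕ), _ from hc)] with t ht
        exact ⟨fun _ => hc, fun _ => ht⟩
      · have hc' := hc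
        rw [← ev_not] at hc'
        filter_upwards [hc'] with t ht
        exact ⟨fun h => absurd h ht, fun h => absurd h hc⟩
    have hb' : ∀ᶠ t in (𝓤 : Filter ℕ), ∀ e < i, ∀ k < i,
        (Acc e (sp (sp (rep x t) (rep u t)) (hh j (t + k))) (hh j (t + k + 2)) ↔ b e k) := by
      have h1 : ∀ e ∈ Set.Iio i, ∀ᶠ t in (𝓤 : Filter ℕ), ∀ k < i,
          (Acc e (sp (sp (rep x t) (rep u t)) (hh j (t + k))) (hh j (t + k + 2)) ↔ b e k) := by
        intro e _
        have h2 : ∀ k ∈ Set.Iio i, ∀ᶠ t in (𝓤 : Filter ℕ),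
          (Acc e (sp (sp (rep x t) (rep u t)) (hh j (t + k))) (hh j (t + k + 2)) ↔ b e k) :=
          fun k _ => hb e k
        exact (Set.finite_Iio i).eventually_all.2 h2
      exact (Set.finite_Iio i).eventually_all.2 h1
    let K := i + l + 2
    have hev : ∀ {t k : ℕ}, k ≤ K → pr (hh j (t + K)) (K - k) = hh j (t + k) := by
      intro t k hk
      rw [pr_hh' j (show K - k ≤ t + K by omega), show t + K - (K - k) = t + k by omega]
    have hx : ∀ᶠ t in (𝓤 : Filter ℕ), (fun z => ∃ v < pr (ss z) (K - l), ∀ e < i, ∀ k < i,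
        (Acc e (sp (sp (sf z) v) (pr (ss z) (K - k))) (pr (ss z) (K - (k + 2))) ↔ b e k))
        (sp (rep x t) (hh j (t + K))) := by
      filter_upwards [hb', hl] with t h1 h2
      simp only [sf_sp, ss_sp]
      rw [hev (show l ≤ K by omega)]
      refine ⟨rep u t, h2, fun e he k hk => ?_⟩
      rw [hev (show k ≤ K by omega), hev (show k + 2 ≤ K by omega)]
      exact h1 e he k hk
    have hy := (h.lift (pattern_primrec b i K l) K).1 hx
    filter_upwards [hy, hb', hw, rep_pp x u] with t h1 h2 h3 h4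
    simp only [sf_sp, ss_sp] at h1
    obtain ⟨v, hv1, hv2⟩ := h1
    rw [hev (show l ≤ K by omega)] at hv1
    refine ⟨v, hv1, by rw [h3]; exact hv1.ne, fun e he k hk => ?_⟩
    have h5 := hv2 e he k hk
    rw [hev (show k ≤ K by omega), hev (show k + 2 ≤ K by omega)] at h5
    rw [h4, h2 e he k hk]
    exact h5.symm)
  exact ⟨v, hv⟩

end Pool.Agent.Lib.MP_0d2548_lc
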