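import Mathlib
import Pool.Agent.Lib.MP_0d2548_lc.Types

/-!
# Automorphisms of the model
-/

set_option autoImplicit false

namespace Pool.Agent.Lib.MP_0d2548_lc

open Filter

variable {j : ℕ}

/-- bijections preserving pairing and all primitive recursive predicates -/
def IsAut (σ : Mo j ≃ Mo j) : Prop :=
  (∀ a b, σ (prd a b) = prd (σ a) (σ b)) ∧ ∀ P : ℕ → Prop, PrimrecPred P → ∀ a, lift P (σ a) ↔ lift P a

lemma map_eq_iff {F G : ℕ → ℕ} (hF : Primrec F) (hG : Primrec G) (x : Mo j) :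
    map F hF x = map G hG x ↔ lift (fun z => F z = G z) x := by
  rw [ext_iff']
  refine ev_congr ?_
  filter_upwards [rep_map hF x, rep_map hG x] with t h1 h2
  rw [h1, h2]

lemma map_map {F G : ℕ → ℕ} (hF : Primrec F) (hG : Primrec G) (x : Mo j) :
    map F hF (map G hG x) = map (fun z => F (G z)) (hF.comp hG) x := by
  rw [ext_iff']
  filter_upwards [rep_map hF (map G hG x), rep_map hG x, rep_map (hF.comp hG) x] with t h1 h2 h3
  rw [h1, h2, h3]

lemma map_pp_map {F G : ℕ → ℕ} (hF : Primrec F) (hG : Primrec G) (x : Mo j) :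
    prd (map F hF x) (map G hG x) = map (fun z => sp (F z) (G z)) (primrec_sp.comp hF hG) x := by
  rw [ext_iff']
  filter_upwards [rep_pp (map F hF x) (map G hG x), rep_map hF x, rep_map hG x,
    rep_map (primrec_sp.comp hF hG) x] with t h1 h2 h3 h4
  rw [h1, h2, h3, h4]

lemma map_id' (x : Mo j) : map (fun z => z) Primrec.id x = x := by
  rw [ext_iff']
  exact rep_map Primrec.id x

theorem exists_aut {x y : Mo j} (h : Eqv x y) : ∃ σ : Mo j ≃ Mo j, σ x = y ∧ IsAut σ := by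
  have : Nonempty (Mo j) := ⟨cst j 0⟩
  obtain ⟨c, hc⟩ := exists_surjective_nat (Mo j)
  -- the steps
  have step : ∀ (p : {p : Mo j × Mo j // Eqv p.1 p.2}) (n : ℕ),
      ∃ q : {p : Mo j × Mo j // Eqv p.1 p.2}, ∃ v v' : Mo j,
        q.1.1 = prd (prd p.1.1 (c n)) v' ∧ q.1.2 = prd (prd p.1.2 v) (c n) := by
    rintro ⟨⟨a, b⟩, hab⟩ n
    obtain ⟨v, hv⟩ := hab.extend (c n)
    obtain ⟨v', hv'⟩ := hv.symm.extend (c n)
    exact ⟨⟨(prd (prd a (c n)) v', prd (prd b v) (c n)), hv'.symm⟩, v, v', rfl, rfl⟩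
  choose nxt v v' hn1 hn2 using step
  let st : ℕ → {p : Mo j × Mo j // Eqv p.1 p.2} :=
    fun n => Nat.rec ⟨(x, y), h⟩ (fun n p => nxt p n) n
  have st0 : st 0 = ⟨(x, y), h⟩ := rfl
  have stS : ∀ n, st (n + 1) = nxt (st n) n := fun n => rfl
  -- going up
  have up1 : ∀ n, (st n).1.1 = fstM (fstM (st (n + 1)).1.1) ∧
      (st n).1.2 = fstM (fstM (st (n + 1)).1.2) := by
    intro n
    rw [stS, hn1, hn2]; simp
  have up : ∀ n m, n ≤ m → ∃ (G : ℕ → ℕ) (hG : Primrec G), (st n).1.1 = map G hG (st m).1.1 ∧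
      (st n).1.2 = map G hG (st m).1.2 := by
    intro n m hnm
    induction hnm with
    | refl => exact ⟨fun z => z, Primrec.id, (map_id' _).symm, (map_id' _).symm⟩
    | @step m _ ih =>
      obtain ⟨G, hG, h1, h2⟩ := ih
      obtain ⟨h3, h4⟩ := up1 m
      refine ⟨fun z => G (sf (sf z)), hG.comp (primrec_sf.comp primrec_sf), ?_, ?_⟩
      · rw [h1, h3]; unfold fstM; rw [map_map, map_map]
      · rw [h2, h4]; unfold fstM; rw [map_map, map_map]
  let R : Mo j → Mo j → Prop := fun a b => ∃ n, ∃ (F : ℕ → ℕ) (hF : Primrec F),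
    a = map F hF (st n).1.1 ∧ b = map F hF (st n).1.2
  have lvl : ∀ {a b : Mo j}, R a b → ∃ n, ∀ m ≥ n, ∃ (F : ℕ → ℕ) (hF : Primrec F),
      a = map F hF (st m).1.1 ∧ b = map F hF (st m).1.2 := by
    rintro a b ⟨n, F, hF, h1, h2⟩
    refine ⟨n, fun m hm => ?_⟩
    obtain ⟨G, hG, h3, h4⟩ := up n m hm
    refine ⟨fun z => F (G z), hF.comp hG, ?_, ?_⟩
    · rw [h1, h3, map_map]
    · rw [h2, h4, map_map]
  have tot : ∀ a, ∃ b, R a b := by
    intro a
    obtain ⟨n, rfl⟩ := hc a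
    refine ⟨sndM (fstM (st (n + 1)).1.2), n + 1, fun z => ss (sf z),
      primrec_ss.comp primrec_sf, ?_, ?_⟩
    · have : c n = sndM (fstM (st (n + 1)).1.1) := by rw [stS, hn1]; simp
      conv_lhs => rw [this]
      unfold fstM sndM; rw [map_map]
    · unfold fstM sndM; rw [map_map]
  have sur : ∀ b, ∃ a, R a b := by
    intro b
    obtain ⟨n, rfl⟩ := hc b
    refine ⟨sndM (st (n + 1)).1.1, n + 1, ss, primrec_ss, rfl, ?_⟩
    have : c n = sndM (st (n + 1)).1.2 := by rw [stS, hn2]; simp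
    conv_lhs => rw [this]
    rfl
  have funct : ∀ {a b b'}, R a b → R a b' → b = b' := by
    intro a b b' h1 h2
    obtain ⟨n, hn⟩ := lvl h1
    obtain ⟨m, hm⟩ := lvl h2
    obtain ⟨F, hF, e1, e2⟩ := hn (max n m) (le_max_left _ _)
    obtain ⟨G, hG, e3, e4⟩ := hm (max n m) (le_max_right _ _)
    rw [e2, e4, map_eq_iff, ← (st (max n m)).2.lift' (Primrec.eq.comp hF hG), ← map_eq_iff hF hG,
      ← e1, ← e3]
  have inj : ∀ {a a' b}, R a b → R a' b → a = a' := by
    intro a b b' h1 h2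
    obtain ⟨n, hn⟩ := lvl h1
    obtain ⟨m, hm⟩ := lvl h2
    obtain ⟨F, hF, e1, e2⟩ := hn (max n m) (le_max_left _ _)
    obtain ⟨G, hG, e3, e4⟩ := hm (max n m) (le_max_right _ _)
    rw [e1, e3, map_eq_iff, (st (max n m)).2.lift' (Primrec.eq.comp hF hG), ← map_eq_iff hF hG,
      ← e2, ← e4]
  choose f hf using tot
  have hbij : Function.Bijective f := by
    constructor
    · intro a a' haa
      exact inj (hf a) (haa ▸ hf a')
    · intro b
      obtain ⟨a, ha⟩ := sur b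
      exact ⟨a, funct (hf a) ha⟩
  refine ⟨Equiv.ofBijective f hbij, ?_, ?_, ?_⟩
  · refine funct (hf x) ⟨0, fun z => z, Primrec.id, ?_, ?_⟩
    · rw [st0, map_id']
    · rw [st0, map_id']
  · intro a b
    change f _ = prd (f _) (f _)
    obtain ⟨n, hn⟩ := lvl (hf a)
    obtain ⟨m, hm⟩ := lvl (hf b)
    obtain ⟨F, hF, e1, e2⟩ := hn (max n m) (le_max_left _ _)
    obtain ⟨G, hG, e3, e4⟩ := hm (max n m) (le_max_right _ _)
    refine funct (hf _) ⟨max n m, fun z => sp (F z) (G z), primrec_sp.comp hF hG, ?_, ?_⟩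
    · conv_lhs => rw [e1, e3]
      rw [map_pp_map]
    · conv_lhs => rw [e2, e4]
      rw [map_pp_map]
  · intro P hP a
    change lift P (f a) ↔ _
    obtain ⟨n, F, hF, e1, e2⟩ := hf a
    conv_lhs => rw [e2]
    conv_rhs => rw [e1]
    rw [lift_map, lift_map]
    exact ((st n).2.lift' (P := fun z => P (F z)) (PrimrecPred.comp (p := P) hP hF)).symm

lemma IsAut.symm {σ : Mo j ≃ Mo j} (h : IsAut σ) : IsAut σ.symm := by
  refine ⟨fun a b => ?_, fun P hP a => ?_⟩
  · apply σ.injective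
    rw [h.1]; simp
  · have := h.2 P hP (σ.symm a)
    rw [σ.apply_symm_apply] at this
    exact this.symm

lemma IsAut.map {σ : Mo j ≃ Mo j} (h : IsAut σ) {F : ℕ → ℕ} (hF : Primrec F) (a : Mo j) :
    σ (map F hF a) = Pool.Agent.Lib.MP_0d2548_lc.map F hF (σ a) := by
  have hP : PrimrecPred fun z => ss z = F (sf z) :=
    Primrec.eq.comp primrec_ss (hF.comp primrec_sf)
  have h1 : lift (fun z => ss z = F (sf z)) (prd a (Pool.Agent.Lib.MP_0d2548_lc.map F hF a)) := by
    rw [lift_pp]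
    filter_upwards [rep_map hF a] with t ht
    simp [ht]
  rw [← h.2 _ hP, h.1, lift_pp] at h1
  rw [ext_iff']
  filter_upwards [h1, rep_map hF (σ a)] with t h2 h3
  simp only [sf_sp, ss_sp] at h2
  rw [h2, h3]

lemma IsAut.add {σ : Mo j ≃ Mo j} (h : IsAut σ) (a b : Mo j) :
    σ ((mo j).add a b) = (mo j).add (σ a) (σ b) := by
  change σ (Pool.Agent.Lib.MP_0d2548_lc.map _ primrec_add' (prd a b)) = _
  rw [h.map, h.1]

lemma IsAut.mul {σ : Mo j ≃ Mo j} (h : IsAut σ) (a b : Mo j) :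
    σ ((mo j).mul a b) = (mo j).mul (σ a) (σ b) := by
  change σ (Pool.Agent.Lib.MP_0d2548_lc.map _ primrec_mul' (prd a b)) = _
  rw [h.map, h.1]

lemma IsAut.cst {σ : Mo j ≃ Mo j} (h : IsAut σ) (c : ℕ) :
    σ (cst j c) = Pool.Agent.Lib.MP_0d2548_lc.cst j c := by
  have h1 : lift (fun z => z = c) (Pool.Agent.Lib.MP_0d2548_lc.cst j c) := rep_cst c
  have hP : PrimrecPred fun z : ℕ => z = c := Primrec.eq.comp Primrec.id (Primrec.const c)
  rw [← h.2 _ hP] at h1
  rw [ext_iff']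
  filter_upwards [h1, rep_cst (j := j) c] with t h2 h3
  rw [h2, h3]

lemma IsAut.lt {σ : Mo j ≃ Mo j} (h : IsAut σ) (a b : Mo j) :
    (mo j).lt (σ a) (σ b) ↔ (mo j).lt a b := by
  have h1 : ∀ a b : Mo j, (mo j).lt a b ↔ lift (fun z => sf z < ss z) (prd a b) := by
    intro a b
    rw [lift_pp, lt_def]
    simp
  rw [h1, h1, ← h.1, h.2 _ (Primrec.nat_lt.comp primrec_sf primrec_ss)]

lemma IsAut.sig1 {σ : Mo j ≃ Mo j} (h : IsAut σ) {R : ℕ → Prop} (hR : SigR 1 R) (a : Mo j) :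
    lift R (σ a) ↔ lift R a := by
  obtain ⟨Q, hQ, e⟩ := hR
  have hQ' : PrimrecPred Q := piR_zero.1 hQ
  have e' : R = fun z => ∃ y, Q (sp y z) := funext fun z => propext (e z)
  rw [e', lift_ex (sigR_of_primrec hQ'), lift_ex (sigR_of_primrec hQ')]
  constructor
  · rintro ⟨y, hy⟩
    refine ⟨σ.symm y, ?_⟩
    rw [← h.2 _ hQ', h.1, σ.apply_symm_apply]; exact hy
  · rintro ⟨y, hy⟩
    refine ⟨σ y, ?_⟩
    rw [← h.1, h.2 _ hQ']; exact hy

lemma IsAut.LL1 {σ : Mo j ≃ Mo j} (h : IsAut σ) {P : Mo j → Prop} (hP : LL j 1 P) :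
    LL j 1 fun x => P (σ.symm x) := by
  obtain ⟨R, hR, p, e⟩ := hP
  refine ⟨R, hR, σ p, fun x => ?_⟩
  beta_reduce
  rw [e, ← h.sig1 hR, h.1, σ.apply_symm_apply]

lemma IsAut.mem_S {σ : Mo j ≃ Mo j} (h : IsAut σ) {Z : Set (Mo j)} (hZ : Z ∈ (mo j).S) :
    σ '' Z ∈ (mo j).S := by
  obtain ⟨h1, h2⟩ := hZ
  refine ⟨(h.LL1 h1).congr fun x => ?_, (h.LL1 h2).congr fun x => ?_⟩
  · rw [σ.image_eq_preimage_symm]; rfl
  · rw [σ.image_eq_preimage_symm]; rfl

lemma IsAut.val {σ : Mo j ≃ Mo j} (h : IsAut σ) (v : ℕ → Mo j) (t : Tm) :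
    t.val (mo j) (fun i => σ (v i)) = σ (t.val (mo j) v) := by
  induction t with
  | var i => rfl
  | zero => exact (h.cst 0).symm
  | one => exact (h.cst 1).symm
  | add s t ihs iht => simp only [Tm.val]; rw [ihs, iht]; exact (h.add _ _).symm
  | mul s t ihs iht => simp only [Tm.val]; rw [ihs, iht]; exact (h.mul _ _).symm

lemma update_comp_aut (σ : Mo j ≃ Mo j) (v : ℕ → Mo j) (x : ℕ) (a : Mo j) :
    (fun i => σ (Function.update v x a i)) = Function.update (fun i => σ (v i)) x (σ a) := by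
  funext i
  by_cases h : i = x
  · subst h; simp
  · simp [Function.update_of_ne h]

lemma update_image_aut (σ : Mo j ≃ Mo j) (V : ℕ → Set (Mo j)) (x : ℕ) (Z : Set (Mo j)) :
    (fun i => σ '' (Function.update V x Z i)) = Function.update (fun i => σ '' (V i)) x (σ '' Z) := by
  funext i
  by_cases h : i = x
  · subst h; simp
  · simp [Function.update_of_ne h]

lemma IsAut.sat {σ : Mo j ≃ Mo j} (h : IsAut σ) (φ : Fm) : ∀ (v : ℕ → Mo j) (V : ℕ → Set (Mo j)),
    Sat (mo j) (fun i => σ (v i)) (fun i => σ '' (V i)) φ ↔ Sat (mo j) v V φ := by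
  induction φ with
  | eq s t => intro v V; simp only [Sat]; rw [h.val, h.val]; exact σ.injective.eq_iff
  | lt s t => intro v V; simp only [Sat]; rw [h.val, h.val]; exact h.lt _ _
  | mem t X =>
    intro v V; simp only [Sat]; rw [h.val]; exact σ.injective.mem_set_image
  | not φ ih => intro v V; simp only [Sat]; rw [ih]
  | and φ ψ ih1 ih2 => intro v V; simp only [Sat]; rw [ih1, ih2]
  | or φ ψ ih1 ih2 => intro v V; simp only [Sat]; rw [ih1, ih2]
  | exN x φ ih =>
    intro v V; simp only [Sat]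
    constructor
    · rintro ⟨a, ha⟩
      refine ⟨σ.symm a, ?_⟩
      rw [← ih, update_comp_aut, σ.apply_symm_apply]; exact ha
    · rintro ⟨a, ha⟩
      refine ⟨σ a, ?_⟩
      rw [← update_comp_aut, ih]; exact ha
  | allN x φ ih =>
    intro v V; simp only [Sat]
    constructor
    · intro ha a
      rw [← ih, update_comp_aut]; exact ha _
    · intro ha a
      have := ha (σ.symm a)
      rw [← ih, update_comp_aut, σ.apply_symm_apply] at this
      exact this
  | exS X φ ih =>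
    intro v V; simp only [Sat]
    constructor
    · rintro ⟨Z, hZ, ha⟩
      refine ⟨σ.symm '' Z, h.symm.mem_S hZ, ?_⟩
      rw [← ih, update_image_aut]
      rw [← Set.image_comp, show (σ ∘ σ.symm : Mo j → Mo j) = id by funext; simp, Set.image_id]
      exact ha
    · rintro ⟨Z, hZ, ha⟩
      refine ⟨σ '' Z, h.mem_S hZ, ?_⟩
      rw [← update_image_aut, ih]; exact ha
  | allS X φ ih =>
    intro v V; simp only [Sat]
    constructor
    · intro ha Z hZ
      rw [← ih, update_image_aut]; exact ha _ (h.mem_S hZ)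
    · intro ha Z hZ
      have := ha (σ.symm '' Z) (h.symm.mem_S hZ)
      rw [← ih, update_image_aut] at this
      rwa [← Set.image_comp, show (σ ∘ σ.symm : Mo j → Mo j) = id by funext; simp,
        Set.image_id] at this

/-- satisfaction depends on finitely many variables only -/
lemma val_congr (𝓜 : Str) (t : Tm) : ∃ N, ∀ v v' : ℕ → 𝓜.M, (∀ i < N, v i = v' i) →
    t.val 𝓜 v = t.val 𝓜 v' := by
  induction t with
  | var i => exact ⟨i + 1, fun v v' h => h i (Nat.lt_succ_self i)⟩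
  | zero => exact ⟨0, fun v v' h => rfl⟩
  | one => exact ⟨0, fun v v' h => rfl⟩
  | add s t ihs iht =>
    obtain ⟨N, hN⟩ := ihs
    obtain ⟨M, hM⟩ := iht
    refine ⟨max N M, fun v v' h => ?_⟩
    simp only [Tm.val]
    rw [hN v v' fun i hi => h i (by omega), hM v v' fun i hi => h i (by omega)]
  | mul s t ihs iht =>
    obtain ⟨N, hN⟩ := ihs
    obtain ⟨M, hM⟩ := iht
    refine ⟨max N M, fun v v' h => ?_⟩
    simp only [Tm.val]
    rw [hN v v' fun i hi => h i (by omega), hM v v' fun i hi => h i (by omega)]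

lemma sat_congr (𝓜 : Str) (φ : Fm) : ∃ N, ∀ (v v' : ℕ → 𝓜.M) (V V' : ℕ → Set 𝓜.M),
    (∀ i < N, v i = v' i) → (∀ i < N, V i = V' i) → (Sat 𝓜 v V φ ↔ Sat 𝓜 v' V' φ) := by
  have hup : ∀ {α : Type} (v v' : ℕ → α) (N x : ℕ) (a : α), (∀ i < N, v i = v' i) →
      ∀ i < N, Function.update v x a i = Function.update v' x a i := by
    intro α v v' N x a h i hi
    by_cases hx : i = x
    · subst hx; simp
    · simp [Function.update_of_ne hx, h i hi]
  induction φ with
  | eq s t =>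
    obtain ⟨N, hN⟩ := val_congr 𝓜 s
    obtain ⟨M, hM⟩ := val_congr 𝓜 t
    refine ⟨max N M, fun v v' V V' h _ => ?_⟩
    simp only [Sat]
    rw [hN v v' fun i hi => h i (by omega), hM v v' fun i hi => h i (by omega)]
  | lt s t =>
    obtain ⟨N, hN⟩ := val_congr 𝓜 s
    obtain ⟨M, hM⟩ := val_congr 𝓜 t
    refine ⟨max N M, fun v v' V V' h _ => ?_⟩
    simp only [Sat]
    rw [hN v v' fun i hi => h i (by omega), hM v v' fun i hi => h i (by omega)]
  | mem t X =>
    obtain ⟨M, hM⟩ := val_congr 𝓜 t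
    refine ⟨max (X + 1) M, fun v v' V V' h h' => ?_⟩
    simp only [Sat]
    rw [hM v v' fun i hi => h i (by omega), h' X (by omega)]
  | not φ ih =>
    obtain ⟨N, hN⟩ := ih
    exact ⟨N, fun v v' V V' h h' => not_congr (hN v v' V V' h h')⟩
  | and φ ψ ih1 ih2 =>
    obtain ⟨N, hN⟩ := ih1
    obtain ⟨M, hM⟩ := ih2
    exact ⟨max N M, fun v v' V V' h h' => and_congr
      (hN v v' V V' (fun i hi => h i (by omega)) fun i hi => h' i (by omega))
      (hM v v' V V' (fun i hi => h i (by omega)) fun i hi => h' i (by omega))⟩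
  | or φ ψ ih1 ih2 =>
    obtain ⟨N, hN⟩ := ih1
    obtain ⟨M, hM⟩ := ih2
    exact ⟨max N M, fun v v' V V' h h' => or_congr
      (hN v v' V V' (fun i hi => h i (by omega)) fun i hi => h' i (by omega))
      (hM v v' V V' (fun i hi => h i (by omega)) fun i hi => h' i (by omega))⟩
  | exN x φ ih =>
    obtain ⟨N, hN⟩ := ih
    exact ⟨N, fun v v' V V' h h' => exists_congr fun a => hN _ _ _ _ (hup v v' N x a h) h'⟩
  | allN x φ ih =>
    obtain ⟨N, hN⟩ := ih
    exact ⟨N, fun v v' V V' h h' => forall_congr' fun a => hN _ _ _ _ (hup v v' N x a h) h'⟩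
  | exS X φ ih =>
    obtain ⟨N, hN⟩ := ih
    exact ⟨N, fun v v' V V' h h' => exists_congr fun Z => and_congr Iff.rfl
      (hN _ _ _ _ h (hup V V' N X Z h'))⟩
  | allS X φ ih =>
    obtain ⟨N, hN⟩ := ih
    exact ⟨N, fun v v' V V' h h' => forall_congr' fun Z => imp_congr Iff.rfl
      (hN _ _ _ _ h (hup V V' N X Z h'))⟩

/-- one element coding finitely many -/
lemma exists_code_fin (w : ℕ → Mo j) (N : ℕ) : ∃ q : Mo j, ∀ σ : Mo j ≃ Mo j, IsAut σ → σ q = q →
    ∀ i < N, σ (w i) = w i := by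
  induction N with
  | zero => exact ⟨cst j 0, fun σ _ _ i hi => by omega⟩
  | succ N ih =>
    obtain ⟨q, hq⟩ := ih
    refine ⟨prd q (w N), fun σ hσ hfix i hi => ?_⟩
    rw [hσ.1] at hfix
    obtain ⟨h1, h2⟩ := pp_inj hfix
    rcases Nat.lt_succ_iff_lt_or_eq.1 hi with h | rfl
    · exact hq σ hσ h1 i h
    · exact h2

/-- parameters of a definition are fixed by automorphisms fixing one suitable element -/
lemma exists_param (φ : Fm) (v : ℕ → Mo j) (V : ℕ → Set (Mo j)) (hV : ∀ i, V i ∈ (mo j).S)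
    (x y : ℕ) : ∃ q : Mo j, ∀ σ : Mo j ≃ Mo j, IsAut σ → σ q = q → ∀ a b : Mo j,
      (Sat (mo j) (Function.update (Function.update v x a) y b) V φ ↔
        Sat (mo j) (Function.update (Function.update v x (σ a)) y (σ b)) V φ) := by
  obtain ⟨N, hN⟩ := sat_congr (mo j) φ
  obtain ⟨q1, h1⟩ := exists_code_fin v N
  have hp : ∀ i, ∃ (R : ℕ → Prop) (p : Mo j), SigR 1 R ∧ ∀ x, x ∈ V i ↔ lift R (prd x p) := by
    intro i
    obtain ⟨⟨R, hR, p, h⟩, -⟩ := hV i
    exact ⟨R, p, hR, h⟩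
  choose R p hR hRp using hp
  obtain ⟨q2, h2⟩ := exists_code_fin p N
  refine ⟨prd q1 q2, fun σ hσ hfix a b => ?_⟩
  rw [hσ.1] at hfix
  obtain ⟨f1, f2⟩ := pp_inj hfix
  have h3 := h1 σ hσ f1
  have h4 := h2 σ hσ f2
  rw [← hσ.sat, update_comp_aut, update_comp_aut]
  apply hN
  · intro i hi
    by_cases hy : i = y
    · subst hy; simp
    · rw [Function.update_of_ne hy, Function.update_of_ne hy]
      by_cases hx : i = x
      · subst hx; simp
      · rw [Function.update_of_ne hx, Function.update_of_ne hx]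
        exact h3 i hi
  · intro i hi
    ext z
    rw [σ.image_eq_preimage_symm, Set.mem_preimage, hRp, hRp, ← hσ.sig1 (hR i), hσ.1,
      σ.apply_symm_apply, h4 i hi]

end Pool.Agent.Lib.MP_0d2548_lc
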