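import Mathlib
import Pool.Agent.Lib.MP_0d2548_lc.Aut

/-!
# The `Π_n` set, and the failure of definable choice
-/

set_option autoImplicit false

namespace Pool.Agent.Lib.MP_0d2548_lc

open Filter

variable {j : ℕ}

/-- `x` is the only number below `a` accepted by program `e` with parameters `p, s, a` within `b`
steps -/
def KK (e p s x a b : ℕ) : Prop :=
  x < a ∧ Acc e (sp (sp (sp p s) x) a) b ∧ ∀ y < a, Acc e (sp (sp (sp p s) y) a) b → y = x

/-- killed elements -/
def Killed (s x : Mo j) : Prop := ∃ e k : ℕ, ∃ p : Mo j,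
  (∀ᶠ t in (𝓤 : Filter ℕ), rep p t < rep s t + 1) ∧
  ∀ᶠ t in (𝓤 : Filter ℕ), KK e (rep p t) (rep s t) (rep x t) (hh j (t + k)) (hh j (t + k + 2))

/-- the element `d` represented by the identity function -/
noncomputable def dd (j : ℕ) : Mo j := mk (fun t => t) Bf.id
  ⟨1, Eventually.of_forall fun t => by have := le_hh j (t + 1); exact this⟩

lemma rep_dd : ∀ᶠ t in (𝓤 : Filter ℕ), rep (dd j) t = t := rep_mk _ _

/-- the `M`-finite sets `A_s = {(s, x) : x < d (s + 1)}` -/
def AA (s : Mo j) : Set (Mo j) :=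
  {z | ∃ x, z = prd s x ∧ ∀ᶠ t in (𝓤 : Filter ℕ), rep x t < t * (rep s t + 1)}

/-- the `Π_n` set -/
def XX (j : ℕ) : Set (Mo j) := {z | ∃ s x : Mo j, z = prd s x ∧ z ∈ AA s ∧ ¬ Killed s x}

lemma AA_disjoint {s s' : Mo j} (h : s ≠ s') : Disjoint (AA s) (AA s') := by
  rw [Set.disjoint_left]
  rintro z ⟨x, rfl, -⟩ ⟨x', h', -⟩
  exact h (pp_inj h').1

/-! ### `X` meets every `A_s` -/

lemma bp_KK {fe fp fs fx fa fb : ℕ → ℕ} (he : Bf j fe) (hp : Bf j fp) (hs : Bf j fs)
    (hx : Bf j fx) (ha : Bf j fa) (hb : Bf j fb) :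
    BP j fun z => KK (fe z) (fp z) (fs z) (fx z) (fa z) (fb z) := by
  unfold KK
  refine BP.and ?_ (BP.and ?_ ?_)
  · have h0 : PrimrecPred fun z => sf z < ss z := Primrec.nat_lt.comp primrec_sf primrec_ss
    have := (BP.of_primrec (j := j) h0).comp (hx.pair ha)
    simpa only [sf_sp, ss_sp] using this
  · exact bp_acc he (((hp.pair hs).pair hx).pair ha) hb
  · -- on `sp y z`
    have c : ∀ {f : ℕ → ℕ}, Bf j f → Bf j fun z => f (ss z) :=
      fun hf => hf.comp (Bf.of_primrec primrec_ss)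
    have h1 : BP j fun z => Acc (fe (ss z)) (sp (sp (sp (fp (ss z)) (fs (ss z))) (sf z))
        (fa (ss z))) (fb (ss z)) → sf z = fx (ss z) := by
      refine BP.imp (bp_acc (c he) ((((c hp).pair (c hs)).pair
        (Bf.of_primrec primrec_sf)).pair (c ha)) (c hb)) ?_
      have h0 : PrimrecPred fun z => sf z = ss z := Primrec.eq.comp primrec_sf primrec_ss
      have := (BP.of_primrec (j := j) h0).comp ((Bf.of_primrec primrec_sf).pair (c hx))
      simpa only [sf_sp, ss_sp] using this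
    have h2 := h1.ball ha
    simpa only [sf_sp, ss_sp] using h2

/-- counting -/
lemma count_killed (t s i : ℕ) (hi : i * i < t) : ∃ x < t * (s + 1),
    ∀ e < i, ∀ k < i, ∀ p < s + 1, ¬ KK e p s x (hh j (t + k)) (hh j (t + k + 2)) := by
  classical
  by_contra hc
  push Not at hc
  -- the map `x ↦ (e, k, p)` is injective on `range (t * (s+1))`
  let S := Finset.range (t * (s + 1))
  let T := (Finset.range i ×ˢ Finset.range i) ×ˢ Finset.range (s + 1)
  have h1 : T.card < S.card := by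
    simp only [S, T, Finset.card_product, Finset.card_range]
    exact Nat.mul_lt_mul_of_pos_right hi (Nat.succ_pos s)
  have hex : ∀ x < t * (s + 1), ∃ q : (ℕ × ℕ) × ℕ, q ∈ T ∧
      KK q.1.1 q.2 s x (hh j (t + q.1.2)) (hh j (t + q.1.2 + 2)) := by
    intro x hx
    obtain ⟨e, he, k, hk, p, hp, h⟩ := hc x hx
    exact ⟨((e, k), p), by simp [T, he, hk, hp], h⟩
  choose! g hg1 hg2 using hex
  obtain ⟨x, hx, y, hy, hxy, hgxy⟩ := Finset.exists_ne_map_eq_of_card_lt_of_maps_to h1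
    (f := g) (fun x hx => hg1 x (Finset.mem_range.1 hx))
  have e1 := hg2 x (Finset.mem_range.1 hx)
  have e2 := hg2 y (Finset.mem_range.1 hy)
  rw [← hgxy] at e2
  exact hxy (e2.2.2 x e1.1 e1.2.1)

/-- internal predicate used to find an element which is not killed:
on `sp x (sp t (sp g s))` -/
lemma bp_notkilled : BP j fun z => sf z < sf (ss z) * (ss (ss (ss z)) + 1) ∧
    ∀ e < sf (ss (ss z)), ∀ k < sf (ss (ss z)), ∀ p < ss (ss (ss z)) + 1,
      ¬ KK e p (ss (ss (ss z))) (sf z) (hh j (sf (ss z) + k)) (hh j (sf (ss z) + k + 2)) := by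
  have a1 : Primrec sf := primrec_sf
  have a2 : Primrec ss := primrec_ss
  have s2 : Primrec fun z => ss (ss z) := a2.comp a2
  have s3 : Primrec fun z => ss (ss (ss z)) := a2.comp s2
  have s4 : Primrec fun z => ss (ss (ss (ss z))) := a2.comp s3
  have s5 : Primrec fun z => ss (ss (ss (ss (ss z)))) := a2.comp s4
  have s6 : Primrec fun z => ss (ss (ss (ss (ss (ss z))))) := a2.comp s5
  have f1 : Primrec fun z => sf (ss z) := a1.comp a2
  have f2 : Primrec fun z => sf (ss (ss z)) := a1.comp s2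
  have f3 : Primrec fun z => sf (ss (ss (ss z))) := a1.comp s3
  have f4 : Primrec fun z => sf (ss (ss (ss (ss z)))) := a1.comp s4
  have g1 : Primrec fun z => sf (ss (ss (ss (ss z)))) + sf (ss z) := Primrec.nat_add.comp f4 f1
  have g2 : Primrec fun z => sf (ss (ss (ss (ss z)))) + sf (ss z) + 2 :=
    Primrec.nat_add.comp g1 (Primrec.const 2)
  -- on `sp p (sp k (sp e (sp x (sp t (sp g s)))))`
  have h1 : BP j fun z => ¬ KK (sf (ss (ss z))) (sf z) (ss (ss (ss (ss (ss (ss z))))))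
      (sf (ss (ss (ss z)))) (hh j (sf (ss (ss (ss (ss z)))) + sf (ss z)))
      (hh j (sf (ss (ss (ss (ss z)))) + sf (ss z) + 2)) :=
    (bp_KK (Bf.of_primrec f2) (Bf.of_primrec a1) (Bf.of_primrec s6) (Bf.of_primrec f3)
      (Bf.h.comp (Bf.of_primrec g1)) (Bf.h.comp (Bf.of_primrec g2))).not
  have h2 := h1.ball (f := fun z => ss (ss (ss (ss (ss z)))) + 1)
    (Bf.of_primrec (Primrec.succ.comp s5))
  simp only [sf_sp, ss_sp] at h2
  have h3 := h2.ball (f := fun z => sf (ss (ss (ss z)))) (Bf.of_primrec f3)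
  simp only [sf_sp, ss_sp] at h3
  have h4 := h3.ball (f := fun z => sf (ss (ss z))) (Bf.of_primrec f2)
  simp only [sf_sp, ss_sp] at h4
  have h5 : BP j fun z => sf z < sf (ss z) * (ss (ss (ss z)) + 1) :=
    BP.of_primrec (Primrec.nat_lt.comp a1 (Primrec.nat_mul.comp f1 (Primrec.succ.comp s3)))
  exact h5.and h4

lemma XX_meets (s : Mo j) : (AA s ∩ XX j).Nonempty := by
  have hpr : Primrec fun t => Nat.sqrt (t - 1) := by
    have h0 : Primrec fun t : ℕ => t - 1 := Primrec.nat_sub.comp Primrec.id (Primrec.const 1)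
    exact primrec_sqrt.comp h0
  have hgB : Bf j fun t => Nat.sqrt (t - 1) := Bf.of_primrec hpr
  have hb : Bd j fun t => t * (rep s t + 1) := by
    have h6 : Bd j fun t => (fun z => sf z * (ss z + 1)) (rep (prd (dd j) s) t) :=
      (rep_bd (prd (dd j) s)).primrec (Primrec.nat_mul.comp primrec_sf
        (Primrec.succ.comp primrec_ss))
    refine h6.mono ?_
    filter_upwards [rep_pp (dd j) s, rep_dd (j := j)] with t e1 e2
    simp [e1, e2]
  obtain ⟨x, hx1, -⟩ := los_Mo bp_notkilled (Bf.id.pair (hgB.pair (rep_bf s)))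
    ⟨fun t => t * (rep s t + 1), hb, (ev_ge 1).mono fun t ht => by
      obtain ⟨x, h6, h7⟩ := count_killed (j := j) t (rep s t) (Nat.sqrt (t - 1)) (by
        have := Nat.sqrt_le (t - 1); omega)
      refine ⟨x, h6.le, ?_⟩
      simp only [sf_sp, ss_sp]
      exact ⟨h6, h7⟩⟩
  simp only [sf_sp, ss_sp] at hx1
  have hA : prd s x ∈ AA s := ⟨x, rfl, hx1.mono fun t ht => ht.1⟩
  refine ⟨prd s x, hA, s, x, rfl, hA, ?_⟩
  rintro ⟨e, k, p, hp, hk⟩
  have hbig : ∀ᶠ t in (𝓤 : Filter ℕ), e + k + 1 ≤ Nat.sqrt (t - 1) := by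
    filter_upwards [ev_ge ((e + k + 1) * (e + k + 1) + 1)] with t ht
    rw [Nat.le_sqrt]; omega
  obtain ⟨t, e1, e2, e3, e4⟩ := (hx1.and (hp.and (hk.and hbig))).exists
  exact e1.2 e (by omega) k (by omega) _ e2 e3

/-! ### definability of the set -/

lemma LL.lift_pf {i : ℕ} {R : ℕ → Prop} (hR : SigR i R) {g : Mo j → Mo j} (hg : PF g) :
    LL j i fun x => lift R (g x) := by
  have h1 : LL j i fun x => lift R x := by
    refine ⟨fun z => R (sf z), hR.comp primrec_sf, cst j 0, fun x => ?_⟩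
    rw [lift_pp]; simp only [sf_sp]; rfl
  exact h1.comp hg

lemma LT.comp {P : Mo j → Prop} (h : LT j P) {g : Mo j → Mo j} (hg : PF g) :
    LT j fun x => P (g x) := by
  obtain ⟨Q, hQ, e⟩ := h
  refine ⟨fun w => Q (prd (g (fstM w)) (sndM w)), hQ.comp ((hg.comp PF.id.fst).pp PF.id.snd),
    fun x => ?_⟩
  simp only [fstM_pp, sndM_pp]
  exact e _

lemma LT.and {P P' : Mo j → Prop} (h : LT j P) (h' : LT j P') : LT j fun x => P x ∧ P' x := by
  obtain ⟨Q, hQ, e⟩ := h
  obtain ⟨Q', hQ', e'⟩ := h'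
  refine ⟨fun w => Q (prd (fstM w) (fstM (sndM w))) ∧ Q' (prd (fstM w) (sndM (sndM w))), ?_, fun x => ?_⟩
  · exact ((hQ.comp (PF.id.fst.pp PF.id.snd.fst)).or
      (hQ'.comp (PF.id.fst.pp PF.id.snd.snd))).congr fun x => by tauto
  · beta_reduce
    rw [e, e']
    constructor
    · rintro ⟨⟨y, hy⟩, ⟨z, hz⟩⟩
      exact ⟨prd y z, by simpa using ⟨hy, hz⟩⟩
    · rintro ⟨y, hy⟩
      simp only [fstM_pp, sndM_pp] at hy
      exact ⟨⟨_, hy.1⟩, ⟨_, hy.2⟩⟩

lemma LT.or {P P' : Mo j → Prop} (h : LT j P) (h' : LT j P') : LT j fun x => P x ∨ P' x := by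
  obtain ⟨Q, hQ, e⟩ := h
  obtain ⟨Q', hQ', e'⟩ := h'
  refine ⟨fun w => Q w ∨ Q' w, (hQ.and hQ').congr fun x => by tauto, fun x => ?_⟩
  beta_reduce
  rw [e, e']
  constructor
  · rintro (⟨y, hy⟩ | ⟨y, hy⟩)
    · exact ⟨y, Or.inl hy⟩
    · exact ⟨y, Or.inr hy⟩
  · rintro ⟨y, hy | hy⟩
    · exact Or.inl ⟨y, hy⟩
    · exact Or.inr ⟨y, hy⟩

lemma LT.congr {P P' : Mo j → Prop} (h : LT j P) (e : ∀ x, P x ↔ P' x) : LT j P' := by
  obtain ⟨Q, hQ, e'⟩ := h
  exact ⟨Q, hQ, fun x => (e x).symm.trans (e' x)⟩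

/-- lifts of `Π_{j+1}` predicates -/
lemma LT.lift_pi {R : ℕ → Prop} (hR : PiR (j + 1) R) {g : Mo j → Mo j} (hg : PF g) :
    LT j fun x => lift R (g x) :=
  LT.of_LL ((LL.lift_pf hR hg).congr fun x => by rw [lift_not])

/-- lifts of `Σ_{j+1}` predicates -/
lemma LT.lift_sig {R : ℕ → Prop} (hR : SigR (j + 1) R) {g : Mo j → Mo j} (hg : PF g) :
    LT j fun x => lift R (g x) := by
  obtain ⟨Q, hQ, e⟩ := hR
  have e' : R = fun z => ∃ y, Q (sp y z) := funext fun z => propext (e z)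
  refine ⟨fun w => lift Q (prd (sndM w) (g (fstM w))), ?_, fun x => ?_⟩
  · exact (LL.lift_pf (sigR_mono_succ hQ) (PF.id.snd.pp (hg.comp PF.id.fst))).congr fun x => by
      rw [lift_not]
  · beta_reduce
    rw [e', lift_ex (sigR_of_pi hQ)]
    simp

lemma LT.lift_prim {R : ℕ → Prop} (hR : PrimrecPred R) {g : Mo j → Mo j} (hg : PF g) :
    LT j fun x => lift R (g x) := LT.lift_sig (sigR_of_primrec hR) hg

lemma ppred_KK {fe fp fs fx fa fb : ℕ → ℕ} (he : Primrec fe) (hp : Primrec fp)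
    (hs : Primrec fs) (hx : Primrec fx) (ha : Primrec fa) (hb : Primrec fb) :
    PrimrecPred fun z => KK (fe z) (fp z) (fs z) (fx z) (fa z) (fb z) := by
  unfold KK
  refine PrimrecPred.and (Primrec.nat_lt.comp hx ha) (PrimrecPred.and ?_ ?_)
  · exact ppred_acc he (primrec_sp.comp (primrec_sp.comp (primrec_sp.comp hp hs) hx) ha) hb
  · refine ppred_ball (R := fun z y => Acc (fe z) (sp (sp (sp (fp z) (fs z)) y) (fa z)) (fb z) →
      y = fx z) ha ?_
    refine ppred_imp (ppred_acc (he.comp Primrec.fst) (primrec_sp.comp (primrec_sp.comp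
      (primrec_sp.comp (hp.comp Primrec.fst) (hs.comp Primrec.fst)) Primrec.snd)
      (ha.comp Primrec.fst)) (hb.comp Primrec.fst)) ?_
    exact Primrec.eq.comp Primrec.snd (hx.comp Primrec.fst)

lemma const_of_lt {f : ℕ → ℕ} {l : ℕ} (h : ∀ᶠ t in (𝓤 : Filter ℕ), f t < l) :
    ∃ c, ∀ᶠ t in (𝓤 : Filter ℕ), f t = c := by
  induction l with
  | zero => obtain ⟨t, ht⟩ := h.exists; omega
  | succ l ih =>
    by_cases hc : ∀ᶠ t in (𝓤 : Filter ℕ), f t = l
    · exact ⟨l, hc⟩
    · rw [← ev_not] at hc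
      exact ih ((h.and hc).mono fun t ht => by omega)

/-- coordinates on `sp (sp (sp s x) (sp (sp c K) (sp (sp e k) p))) d` -/
def B3 (z : ℕ) : Prop :=
  sf (sf (ss (ss (sf z)))) ≤ ss (sf (ss (sf z))) ∧
  ss (sf (ss (ss (sf z)))) ≤ ss (sf (ss (sf z))) ∧
  ss (ss (ss (sf z))) < sf (sf (sf z)) + 1 ∧
  KK (sf (sf (ss (ss (sf z))))) (ss (ss (ss (sf z)))) (sf (sf (sf z))) (ss (sf (sf z)))
    (pr (sf (sf (ss (sf z)))) (ss (sf (ss (sf z))) + 2 - ss (sf (ss (ss (sf z))))))
    (pr (sf (sf (ss (sf z)))) (ss (sf (ss (sf z))) - ss (sf (ss (ss (sf z))))))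

lemma ppred_B3 : PrimrecPred B3 := by
  have a1 := primrec_sf
  have a2 := primrec_ss
  have pu : Primrec fun z => ss (sf z) := a2.comp a1
  have pc : Primrec fun z => sf (sf (ss (sf z))) := a1.comp (a1.comp pu)
  have pK : Primrec fun z => ss (sf (ss (sf z))) := a2.comp (a1.comp pu)
  have pe : Primrec fun z => sf (sf (ss (ss (sf z)))) := a1.comp (a1.comp (a2.comp pu))
  have pk : Primrec fun z => ss (sf (ss (ss (sf z)))) := a2.comp (a1.comp (a2.comp pu))
  have pp' : Primrec fun z => ss (ss (ss (sf z))) := a2.comp (a2.comp pu)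
  have ps : Primrec fun z => sf (sf (sf z)) := a1.comp (a1.comp a1)
  have px : Primrec fun z => ss (sf (sf z)) := a2.comp (a1.comp a1)
  unfold B3
  refine PrimrecPred.and (Primrec.nat_le.comp pe pK) (PrimrecPred.and (Primrec.nat_le.comp pk pK)
    (PrimrecPred.and (Primrec.nat_lt.comp pp' (Primrec.succ.comp ps)) ?_))
  refine ppred_KK pe pp' ps px (primrec_pr.comp pc (Primrec.nat_sub.comp
    (Primrec.nat_add.comp pK (Primrec.const 2)) pk)) (primrec_pr.comp pc
    (Primrec.nat_sub.comp pK pk))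

/-- the pair `(c, d + K + 2)` -/
def gc (z : ℕ) : ℕ := sp (sf (sf (ss (sf z)))) (ss z + ss (sf (ss (sf z))) + 2)

lemma primrec_gc : Primrec gc := by
  have a1 := primrec_sf
  have a2 := primrec_ss
  have pu : Primrec fun z => ss (sf z) := a2.comp a1
  have pc : Primrec fun z => sf (sf (ss (sf z))) := a1.comp (a1.comp pu)
  have pK : Primrec fun z => ss (sf (ss (sf z))) := a2.comp (a1.comp pu)
  exact primrec_sp.comp pc (Primrec.nat_add.comp (Primrec.nat_add.comp a2 pK) (Primrec.const 2))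

lemma killed_iff (s x : Mo j) : Killed s x ↔ ∃ u : Mo j,
    (lift (fun z => Gr1 j (gc z)) (prd (prd (prd s x) u) (dd j)) ∧
     lift (fun z => Gr2 j (gc z)) (prd (prd (prd s x) u) (dd j))) ∧
     lift B3 (prd (prd (prd s x) u) (dd j)) := by
  constructor
  · rintro ⟨e, k, p, h1, h2⟩
    let K := max e k
    have hcB : Bf j fun t => hh j (t + (K + 2)) :=
      Bf.h.comp (Bf.of_primrec (Primrec.nat_add.comp Primrec.id (Primrec.const (K + 2))))
    let c : Mo j := mk (fun t => hh j (t + (K + 2))) hcB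
      ⟨K + 3, Eventually.of_forall fun t => hh_lt_succ j _⟩
    have hc : ∀ᶠ t in (𝓤 : Filter ℕ), rep c t = hh j (t + (K + 2)) := rep_mk _ _
    let u : Mo j := prd (prd c (cst j K)) (prd (prd (cst j e) (cst j k)) p)
    refine ⟨u, ?_⟩
    have hrep : ∀ᶠ t in (𝓤 : Filter ℕ), rep (prd (prd (prd s x) u) (dd j)) t =
        sp (sp (sp (rep s t) (rep x t)) (sp (sp (hh j (t + (K + 2))) K) (sp (sp e k) (rep p t)))) t := by
      filter_upwards [rep_pp (prd (prd s x) u) (dd j), rep_pp (prd s x) u, rep_pp s x,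
        rep_pp (prd c (cst j K)) (prd (prd (cst j e) (cst j k)) p), rep_pp c (cst j K),
        rep_pp (prd (cst j e) (cst j k)) p, rep_pp (cst j e) (cst j k), rep_cst (j := j) e,
        rep_cst (j := j) k, rep_cst (j := j) K, hc, rep_dd (j := j)]
        with t a1 a2 a3 a4 a5 a6 a7 a8 a9 a10 a11 a12
      rw [a1, a2, a3, a4, a5, a6, a7, a8, a9, a10, a11, a12]
    refine ⟨⟨?_, ?_⟩, ?_⟩
    · unfold lift
      filter_upwards [hrep] with t ht
      rw [ht]
      simp only [gc, sf_sp, ss_sp]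
      exact ((graph_hh j _ (t + K + 2)).1 rfl).1
    · unfold lift
      filter_upwards [hrep] with t ht
      rw [ht]
      simp only [gc, sf_sp, ss_sp]
      exact ((graph_hh j _ (t + K + 2)).1 rfl).2
    · unfold lift
      filter_upwards [hrep, h1, h2] with t ht h3 h4
      rw [ht]
      simp only [B3, sf_sp, ss_sp]
      have hk : k ≤ K := le_max_right _ _
      refine ⟨le_max_left _ _, hk, h3, ?_⟩
      rw [pr_hh' j (show K + 2 - k ≤ t + (K + 2) by omega),
        pr_hh' j (show K - k ≤ t + (K + 2) by omega),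
        show t + (K + 2) - (K + 2 - k) = t + k by omega,
        show t + (K + 2) - (K - k) = t + k + 2 by omega]
      exact h4
  · rintro ⟨u, ⟨h1, h2⟩, h3⟩
    let c := fstM (fstM u)
    let K := sndM (fstM u)
    let e := fstM (fstM (sndM u))
    let k := sndM (fstM (sndM u))
    let p := sndM (sndM u)
    have hrep : ∀ᶠ t in (𝓤 : Filter ℕ), rep (prd (prd (prd s x) u) (dd j)) t =
        sp (sp (sp (rep s t) (rep x t)) (rep u t)) t := by
      filter_upwards [rep_pp (prd (prd s x) u) (dd j), rep_pp (prd s x) u, rep_pp s x,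
        rep_dd (j := j)] with t a1 a2 a3 a4
      rw [a1, a2, a3, a4]
    have hcc : ∀ᶠ t in (𝓤 : Filter ℕ), rep c t = sf (sf (rep u t)) := by
      filter_upwards [rep_map primrec_sf (fstM u), rep_map primrec_sf u] with t a1 a2
      exact a1.trans (congrArg sf a2)
    have hKK : ∀ᶠ t in (𝓤 : Filter ℕ), rep K t = ss (sf (rep u t)) := by
      filter_upwards [rep_map primrec_ss (fstM u), rep_map primrec_sf u] with t a1 a2
      exact a1.trans (congrArg ss a2)
    have hpp : ∀ᶠ t in (𝓤 : Filter ℕ), rep p t = ss (ss (rep u t)) := by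
      filter_upwards [rep_map primrec_ss (sndM u), rep_map primrec_ss u] with t a1 a2
      exact a1.trans (congrArg ss a2)
    have hgr : ∀ᶠ t in (𝓤 : Filter ℕ), rep c t = hh j (t + rep K t + 2) := by
      unfold lift at h1 h2
      filter_upwards [h1, h2, hrep, hcc, hKK] with t a1 a2 a3 a4 a5
      rw [a3] at a1 a2
      simp only [gc, sf_sp, ss_sp] at a1 a2
      rw [a4, a5]
      exact (graph_hh j _ _).2 ⟨a1, a2⟩
    obtain ⟨l, hl⟩ := rep_bd c
    have hKl : ∀ᶠ t in (𝓤 : Filter ℕ), rep K t < l := by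
      filter_upwards [hgr, hl] with t a1 a2
      rw [a1] at a2
      have := (hh_strictMono j).lt_iff_lt.1 a2
      omega
    have h3' : ∀ᶠ t in (𝓤 : Filter ℕ), B3 (sp (sp (sp (rep s t) (rep x t)) (rep u t)) t) := by
      unfold lift at h3
      filter_upwards [h3, hrep] with t a1 a2
      rwa [a2] at a1
    simp only [B3, sf_sp, ss_sp] at h3'
    obtain ⟨K0, hK0⟩ := const_of_lt hKl
    obtain ⟨e0, he0⟩ := const_of_lt (f := fun t => sf (sf (ss (rep u t)))) (l := K0 + 1) (by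
      filter_upwards [h3', hK0, hKK] with t a1 a2 a3
      have := a1.1
      rw [← a3, a2] at this; omega)
    obtain ⟨k0, hk0⟩ := const_of_lt (f := fun t => ss (sf (ss (rep u t)))) (l := K0 + 1) (by
      filter_upwards [h3', hK0, hKK] with t a1 a2 a3
      have := a1.2.1
      rw [← a3, a2] at this; omega)
    refine ⟨e0, k0, p, ?_, ?_⟩
    · filter_upwards [h3', hpp] with t a1 a2
      rw [a2]; exact a1.2.2.1
    · filter_upwards [h3', hpp, hcc, hKK, hgr, hK0, he0, hk0] with t a1 a2 a3 a4 a5 a6 a7 a8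
      have h4 := a1.2.2.2
      have h5 := a1.2.1
      rw [← a4, a6] at h5
      rw [a8] at h5
      rw [← a3, ← a4, a7, a8, a5, a6] at h4
      rw [pr_hh' j (show K0 + 2 - k0 ≤ t + K0 + 2 by omega),
        pr_hh' j (show K0 - k0 ≤ t + K0 + 2 by omega),
        show t + K0 + 2 - (K0 + 2 - k0) = t + k0 by omega,
        show t + K0 + 2 - (K0 - k0) = t + k0 + 2 by omega] at h4
      rw [a2]
      exact h4

/-- membership in `⋃ A_s`: on `sp z d` -/
def C0 (z : ℕ) : Prop :=
  sf z = sp (sf (sf z)) (ss (sf z)) ∧ ss (sf z) < ss z * (sf (sf z) + 1)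

lemma ppred_C0 : PrimrecPred C0 := by
  have a1 := primrec_sf
  have a2 := primrec_ss
  unfold C0
  exact PrimrecPred.and (Primrec.eq.comp a1 (primrec_sp.comp (a1.comp a1) (a2.comp a1)))
    (Primrec.nat_lt.comp (a2.comp a1) (Primrec.nat_mul.comp a2 (Primrec.succ.comp (a1.comp a1))))

lemma XX_iff (z : Mo j) : z ∈ XX j ↔ lift C0 (prd z (dd j)) ∧ ¬ Killed (fstM z) (sndM z) := by
  constructor
  · rintro ⟨s, x, rfl, ⟨x', hx', h⟩, hk⟩
    obtain ⟨-, rfl⟩ := pp_inj hx'
    refine ⟨?_, by simpa using hk⟩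
    rw [lift_pp]
    filter_upwards [h, rep_dd (j := j), rep_pp s x] with t a1 a2 a3
    rw [a2, a3]
    simp only [C0, sf_sp, ss_sp]
    exact ⟨trivial, a1⟩
  · rintro ⟨h, hk⟩
    rw [lift_pp] at h
    have hz : z = prd (fstM z) (sndM z) := by
      rw [ext_iff']
      filter_upwards [h, rep_pp (fstM z) (sndM z), rep_map primrec_sf z, rep_map primrec_ss z]
        with t a1 a2 a3 a4
      simp only [C0, sf_sp, ss_sp] at a1
      rw [a2]
      have a3' : rep (fstM z) t = sf (rep z t) := a3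
      have a4' : rep (sndM z) t = ss (rep z t) := a4
      rw [a3', a4']
      exact a1.1
    refine ⟨fstM z, sndM z, hz, ⟨sndM z, hz, ?_⟩, hk⟩
    filter_upwards [h, rep_map primrec_sf z, rep_map primrec_ss z, rep_dd (j := j)]
      with t a1 a3 a4 a5
    simp only [C0, sf_sp, ss_sp] at a1
    have a3' : rep (fstM z) t = sf (rep z t) := a3
    have a4' : rep (sndM z) t = ss (rep z t) := a4
    rw [a3', a4']
    rw [a5] at a1
    exact a1.2

lemma LT_not_XX (j : ℕ) : LT j fun z => z ∉ XX j := by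
  have h1 : LT j fun z => lift (fun z => ¬ C0 z) (prd z (dd j)) :=
    LT.lift_prim ppred_C0.not (PF.id.pp (PF.const _))
  have hg : PF fun w : Mo j => prd w (dd j) := PF.id.pp (PF.const _)
  have h2a : LT j fun w => lift (fun z => Gr1 j (gc z)) (prd w (dd j)) :=
    LT.lift_pi ((piR_Gr1 j).comp primrec_gc) hg
  have h2b : LT j fun w => lift (fun z => Gr2 j (gc z)) (prd w (dd j)) :=
    LT.lift_sig ((sigR_Gr2 j).comp primrec_gc) hg
  have h2c : LT j fun w => lift B3 (prd w (dd j)) := LT.lift_prim ppred_B3 hg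
  have h3 := ((h2a.and h2b).and h2c).ex
  have h4 : LT j fun z => Killed (fstM z) (sndM z) := by
    refine (h3.comp (PF.id.fst.pp PF.id.snd)).congr fun z => ?_
    rw [killed_iff]
  refine (h1.or h4).congr fun z => ?_
  rw [XX_iff, lift_not, not_and_or, not_not]

end Pool.Agent.Lib.MP_0d2548_lc
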