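import Mathlib
import Pool.Agent.Lib.MP_0d2548_lc.Kill

/-!
# Formulas for the classes, failure of `IΣ_{j+2}`
-/

set_option autoImplicit false

namespace Pool.Agent.Lib.MP_0d2548_lc

open Filter

variable {j : ℕ}

/-- the pairing term -/
def pairT (s t : Tm) : Tm := .add (.mul (.add s t) (.add s t)) s

lemma pair_mo (a b : Mo j) : (mo j).pair a b = prd a b := by
  rw [ext_iff']
  filter_upwards [rep_pp a b, rep_add a b, rep_mul ((mo j).add a b) ((mo j).add a b),
    rep_add ((mo j).mul ((mo j).add a b) ((mo j).add a b)) a] with t h1 h2 h3 h4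
  rw [h1]
  change rep ((mo j).add ((mo j).mul ((mo j).add a b) ((mo j).add a b)) a) t = _
  rw [h4, h3, h2]; rfl

lemma val_pairT (v : ℕ → Mo j) (s t : Tm) :
    (pairT s t).val (mo j) v = prd (s.val (mo j) v) (t.val (mo j) v) := by
  rw [← pair_mo]; rfl

mutual
/-- formula defining a `Σ_i` predicate of the term `t`; variables from `k` on are fresh -/
def fSig : ℕ → ℕ → Tm → Fm
  | 0, _, t => .mem t 0
  | i + 1, k, t => .exN k (fPi i (k + 1) (pairT (.var k) t))
/-- formula defining the complement of a `Σ_i` predicate of the term `t` -/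
def fPi : ℕ → ℕ → Tm → Fm
  | 0, _, t => .not (.mem t 0)
  | i + 1, k, t => .allN k (fSig i (k + 1) (pairT (.var k) t))
end

lemma fSig_zero (k : ℕ) (t : Tm) : fSig 0 k t = .mem t 0 := by rw [fSig]
lemma fPi_zero (k : ℕ) (t : Tm) : fPi 0 k t = .not (.mem t 0) := by rw [fPi]
lemma fSig_succ (i k : ℕ) (t : Tm) :
    fSig (i + 1) k t = .exN k (fPi i (k + 1) (pairT (.var k) t)) := by rw [fSig]
lemma fPi_succ (i k : ℕ) (t : Tm) :
    fPi (i + 1) k t = .allN k (fSig i (k + 1) (pairT (.var k) t)) := by rw [fPi]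

lemma isSigma_fSig (i : ℕ) : (∀ k t, IsSigma i (fSig i k t)) ∧ ∀ k t, IsPi i (fPi i k t) := by
  induction i with
  | zero =>
    refine ⟨fun k t => ?_, fun k t => ?_⟩
    · rw [fSig_zero]; exact .zero (.mem t 0)
    · rw [fPi_zero]; exact .zero (.not (.mem t 0))
  | succ i ih =>
    refine ⟨fun k t => ?_, fun k t => ?_⟩
    · rw [fSig_succ]; exact .ex k (.ofPi (ih.2 _ _))
    · rw [fPi_succ]; exact .all k (.ofSigma (ih.1 _ _))

lemma fresh_pairT {k : ℕ} {t : Tm} (h : ∀ x, t.Occurs x → x < k) :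
    ∀ x, (pairT (.var k) t).Occurs x → x < k + 1 := by
  intro x hx
  simp only [pairT, Tm.Occurs] at hx
  have : k = x ∨ t.Occurs x := by tauto
  rcases this with rfl | h'
  · exact Nat.lt_succ_self _
  · exact (h x h').trans (Nat.lt_succ_self _)

lemma sat_fSig (i : ℕ) (hi : i ≤ j + 1) : ∀ R : ℕ → Prop, SigR i R → ∃ Z ∈ (mo j).S,
    ∀ V : ℕ → Set (Mo j), V 0 = Z → ∀ (v : ℕ → Mo j) (k : ℕ) (t : Tm),
      (∀ x, t.Occurs x → x < k) →
      (Sat (mo j) v V (fSig i k t) ↔ lift R (t.val (mo j) v)) ∧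
      (Sat (mo j) v V (fPi i k t) ↔ ¬ lift R (t.val (mo j) v)) := by
  induction i with
  | zero =>
    intro R hR
    have h1 : LL j 1 fun x => lift R x := LL.lift_pf (sigR_mono (Nat.zero_le 1) hR) PF.id
    have h2 : LL j 1 fun x => ¬ lift R x :=
      (LL.lift_pf (sigR_of_primrec (PrimrecPred.not hR)) PF.id).congr fun x => lift_not
    refine ⟨{x | lift R x}, ⟨h1, h2⟩, fun V hV v k t _ => ?_⟩
    rw [fSig_zero, fPi_zero]
    simp only [Sat]
    rw [hV]
    exact ⟨Iff.rfl, Iff.rfl⟩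
  | succ i ih =>
    rintro R ⟨Q, hQ, e⟩
    obtain ⟨Z, hZ, h⟩ := ih (by omega) _ hQ
    refine ⟨Z, hZ, fun V hV v k t ht => ?_⟩
    have e' : R = fun z => ∃ y, Q (sp y z) := funext fun z => propext (e z)
    have hex : lift R (t.val (mo j) v) ↔ ∃ a : Mo j, lift Q (prd a (t.val (mo j) v)) := by
      rw [e', lift_ex (sigR_mono hi (sigR_of_pi hQ))]
    have hval : ∀ a : Mo j, (pairT (.var k) t).val (mo j) (Function.update v k a) =
        prd a (t.val (mo j) v) := by
      intro a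
      rw [val_pairT, Tm.val_update (fun hk => absurd (ht k hk) (lt_irrefl _))]
      simp [Tm.val]
    rw [fSig_succ, fPi_succ]
    simp only [Sat]
    constructor
    · rw [hex]
      refine exists_congr fun a => ?_
      rw [(h V hV _ _ _ (fresh_pairT ht)).2, hval, lift_not, not_not]
    · rw [hex]
      push Not
      refine forall_congr' fun a => ?_
      rw [(h V hV _ _ _ (fresh_pairT ht)).1, hval, lift_not]

/-- every `LT` predicate is defined by a `Σ_{j+2}` formula, its complement by a `Π_{j+2}` formula -/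
lemma LT.formula {P : Mo j → Prop} (h : LT j P) : ∃ φ ψ : Fm, IsSigma (j + 2) φ ∧
    IsPi (j + 2) ψ ∧ ∃ (v : ℕ → Mo j) (V : ℕ → Set (Mo j)), (∀ i, V i ∈ (mo j).S) ∧
      ∀ a, (P a ↔ Sat (mo j) (Function.update v 0 a) V φ) ∧
        (¬ P a ↔ Sat (mo j) (Function.update v 0 a) V ψ) := by
  obtain ⟨Q, ⟨R, hR, p, hQ⟩, e⟩ := h
  obtain ⟨Z, hZ, h⟩ := sat_fSig (j := j) (j + 1) le_rfl R hR
  let t : Tm := pairT (pairT (.var 0) (.var 2)) (.var 1)
  have ht : ∀ x, t.Occurs x → x < 3 := by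
    intro x hx
    simp only [t, pairT, Tm.Occurs] at hx
    omega
  let v : ℕ → Mo j := fun _ => p
  have hval : ∀ a b : Mo j, t.val (mo j) (Function.update (Function.update v 0 a) 2 b) =
      prd (prd a b) p := by
    intro a b
    simp only [t]
    rw [val_pairT, val_pairT]
    simp [Tm.val, Function.update, v]
  refine ⟨.exN 2 (fPi (j + 1) 3 t), .allN 2 (fSig (j + 1) 3 t),
    .ex 2 (.ofPi ((isSigma_fSig _).2 _ _)), .all 2 (.ofSigma ((isSigma_fSig _).1 _ _)),
    v, fun _ => Z, fun _ => hZ, fun a => ?_⟩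
  constructor
  · rw [e]
    simp only [Sat]
    refine exists_congr fun b => ?_
    rw [(h (fun _ => Z) rfl _ 3 t ht).2, hval]
    rw [← not_iff_not, not_not]
    exact hQ _
  · rw [e]
    simp only [Sat]
    push Not
    refine forall_congr' fun b => ?_
    rw [(h (fun _ => Z) rfl _ 3 t ht).1, hval]
    exact hQ _

lemma isPiSet_XX (j : ℕ) : IsPiSet (mo j) (j + 2) (XX j) := by
  obtain ⟨φ, ψ, -, h2, v, V, hV, h⟩ := (LT_not_XX j).formula
  exact ⟨ψ, h2, v, V, hV, 0, fun a => by rw [← (h a).2, not_not]⟩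

/-- the cut `{k : H(k) exists}` -/
def Cut (k : Mo j) : Prop := ∃ c : Mo j, ∀ᶠ t in (𝓤 : Filter ℕ), rep c t = hh j (t + rep k t)

lemma LT_cut : LT j (Cut (j := j)) := by
  -- on `sp (sp k c) d`
  have hp : Primrec fun z => sp (ss (sf z)) (ss z + sf (sf z)) :=
    primrec_sp.comp (primrec_ss.comp primrec_sf)
      (Primrec.nat_add.comp primrec_ss (primrec_sf.comp primrec_sf))
  have hg : PF fun w : Mo j => prd w (dd j) := PF.id.pp (PF.const _)
  have h1 : LT j fun w => lift (fun z => Gr1 j (sp (ss (sf z)) (ss z + sf (sf z)))) (prd w (dd j)) :=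
    LT.lift_pi ((piR_Gr1 j).comp hp) hg
  have h2 : LT j fun w => lift (fun z => Gr2 j (sp (ss (sf z)) (ss z + sf (sf z)))) (prd w (dd j)) :=
    LT.lift_sig ((sigR_Gr2 j).comp hp) hg
  refine (h1.and h2).ex.congr fun k => ?_
  unfold Cut
  refine exists_congr fun c => ?_
  rw [← lift_and, lift_pp]
  refine ev_congr ?_
  filter_upwards [rep_pp k c, rep_dd (j := j)] with t a1 a2
  rw [a1, a2]
  simp only [sf_sp, ss_sp]
  exact (graph_hh j _ _).symm

lemma not_isigma (j : ℕ) : ¬ ISigma (mo j) (j + 2) := by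
  intro hI
  obtain ⟨φ, ψ, h1, -, v, V, hV, h⟩ := (LT_cut (j := j)).formula
  have h2 := hI φ h1 v V hV 0 ((h _).1.1 ?_) (fun a ha => (h _).1.1 ?_) (dd j)
  · -- contradiction at `d`
    obtain ⟨c, hc⟩ := (h _).1.2 h2
    obtain ⟨l, hl⟩ := rep_bd c
    obtain ⟨t, a1, a2, a3, a4⟩ := (hc.and (hl.and ((rep_dd (j := j)).and (ev_ge l)))).exists
    rw [a1, a3] at a2
    have := (hh_strictMono j).lt_iff_lt.1 a2
    omega
  · -- zero
    refine ⟨mk (hh j) Bf.h ⟨1, Eventually.of_forall fun t => hh_lt_succ j t⟩, ?_⟩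
    filter_upwards [rep_mk (j := j) Bf.h ⟨1, Eventually.of_forall fun t => hh_lt_succ j t⟩,
      rep_zero (j := j)] with t a1 a2
    rw [a1, a2]; rfl
  · -- successor
    obtain ⟨c, hc⟩ := (h _).1.2 ha
    obtain ⟨l, hl⟩ := rep_bd c
    have hB : Bf j fun t => hh j (t + (rep a t + 1)) := by
      have h0 : Bf j fun t => (fun z => sf z + (ss z + 1)) (sp t (rep a t)) :=
        (Bf.of_primrec (Primrec.nat_add.comp primrec_sf (Primrec.succ.comp primrec_ss))).comp
          (Bf.id.pair (rep_bf a))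
      simp only [sf_sp, ss_sp] at h0
      exact Bf.h.comp h0
    have hbd : Bd j fun t => hh j (t + (rep a t + 1)) := by
      refine ⟨l + 1, ?_⟩
      filter_upwards [hc, hl] with t a1 a2
      rw [a1] at a2
      have := (hh_strictMono j).lt_iff_lt.1 a2
      exact (hh_strictMono j) (by omega)
    refine ⟨mk _ hB hbd, ?_⟩
    filter_upwards [rep_mk hB hbd, rep_succ a] with t a1 a2
    rw [a1, a2]

end Pool.Agent.Lib.MP_0d2548_lc
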