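import Mathlib
import Pool.Agent.Lib.MP_0d2548_lc.Formula

/-!
# Canonical codes of the sets `A_s`
-/

set_option autoImplicit false

namespace Pool.Agent.Lib.MP_0d2548_lc

open Filter

variable {j : ℕ}

/-! ### on `ℕ` -/

/-- `c = ((k, m), n)` is a code of `A_s` at `t`; on `sp c (sp s t)` -/
def PCN (z : ℕ) : Prop :=
  sf z = sp (sp (sf (sf (sf z))) (ss (sf (sf z)))) (ss (sf z)) ∧
  ∀ i < sp (sf (ss z)) (ss (ss z) * (sf (ss z) + 1)) + sf (sf (sf z)),
    ((∃ x < ss (ss z) * (sf (ss z) + 1), i = sp (sf (ss z)) x) ↔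
      (i < sf (sf (sf z)) ∧ (ss (sf (sf z)) * (i + 1) + 1) ∣ ss (sf z)))

lemma sp_lt_right (s : ℕ) {x y : ℕ} (h : x < y) : sp s x < sp s y := by
  unfold sp
  have : s + x < s + y := by omega
  nlinarith [Nat.mul_lt_mul'' this this]

lemma pcn_iff (k m n s t : ℕ) : PCN (sp (sp (sp k m) n) (sp s t)) ↔
    ∀ i, ((∃ x < t * (s + 1), i = sp s x) ↔ (i < k ∧ (m * (i + 1) + 1) ∣ n)) := by
  simp only [PCN, sf_sp, ss_sp]
  constructor
  · rintro ⟨-, h⟩ i
    by_cases hi : i < sp s (t * (s + 1)) + k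
    · exact h i hi
    · constructor
      · rintro ⟨x, hx, rfl⟩
        have := sp_lt_right s hx
        exact absurd (this.trans_le (Nat.le_add_right _ k)) hi
      · rintro ⟨h1, -⟩
        exact absurd (h1.trans_le (Nat.le_add_left _ _)) hi
  · intro h
    exact ⟨trivial, fun i _ => h i⟩

lemma exists_pcn (s t : ℕ) : ∃ c, PCN (sp c (sp s t)) := by
  classical
  let k := sp s (t * (s + 1)) + 1
  let m := k.factorial
  have hm : 0 < m := Nat.factorial_pos _
  have hcop1 : ∀ i i', i < i' → i' < k → Nat.Coprime (m * (i + 1) + 1) (m * (i' + 1) + 1) := by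
    intro i i' hne hi'
    rw [mul_comm m, mul_comm m]
    exact Nat.coprime_mul_succ (Nat.dvd_factorial (by omega) (by omega))
  have hcop : ∀ i < k, ∀ i' < k, i ≠ i' → Nat.Coprime (m * (i + 1) + 1) (m * (i' + 1) + 1) := by
    intro i hi i' hi' hne
    rcases Nat.lt_or_gt_of_ne hne with h | h
    · exact hcop1 i i' h hi'
    · exact (hcop1 i' i h hi).symm
  let A : Finset ℕ := (Finset.range k).filter fun i => ∃ x < t * (s + 1), i = sp s x
  let n := ∏ i ∈ A, (m * (i + 1) + 1)
  refine ⟨sp (sp k m) n, (pcn_iff _ _ _ _ _).2 fun i => ?_⟩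
  constructor
  · rintro ⟨x, hx, rfl⟩
    have hk : sp s x < k := by
      have := sp_mono (le_refl s) hx.le
      omega
    refine ⟨hk, ?_⟩
    exact Finset.dvd_prod_of_mem (fun i => m * (i + 1) + 1)
      (Finset.mem_filter.2 ⟨Finset.mem_range.2 hk, x, hx, rfl⟩)
  · rintro ⟨hk, hd⟩
    by_contra hc
    have h1 : Nat.Coprime (m * (i + 1) + 1) n := by
      refine Nat.Coprime.prod_right fun i' hi' => ?_
      have h2 := Finset.mem_filter.1 hi'
      refine hcop i hk i' (Finset.mem_range.1 h2.1) ?_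
      rintro rfl
      exact hc h2.2
    have h2 := Nat.Coprime.eq_one_of_dvd h1 hd
    have : 0 < m * (i + 1) := Nat.mul_pos hm (Nat.succ_pos i)
    omega

lemma ppred_dvd {α : Type*} [Primcodable α] {f g : α → ℕ} (hf : Primrec f) (hg : Primrec g) :
    PrimrecPred fun a => f a ∣ g a :=
  (Primrec.eq.comp (Primrec.nat_mod.comp hg hf) (Primrec.const 0)).of_eq fun _ =>
    (Nat.dvd_iff_mod_eq_zero).symm

lemma ppred_PCN : PrimrecPred PCN := by
  have a1 := primrec_sf
  have a2 := primrec_ss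
  have pc : Primrec fun z => sf z := a1
  have pk : Primrec fun z => sf (sf (sf z)) := a1.comp (a1.comp a1)
  have pm : Primrec fun z => ss (sf (sf z)) := a2.comp (a1.comp a1)
  have pn : Primrec fun z => ss (sf z) := a2.comp a1
  have ps : Primrec fun z => sf (ss z) := a1.comp a2
  have pb : Primrec fun z => ss (ss z) * (sf (ss z) + 1) :=
    Primrec.nat_mul.comp (a2.comp a2) (Primrec.succ.comp ps)
  unfold PCN
  refine PrimrecPred.and (Primrec.eq.comp pc (primrec_sp.comp (primrec_sp.comp pk pm) pn)) ?_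
  refine ppred_ball (R := fun z i =>
    ((∃ x < ss (ss z) * (sf (ss z) + 1), i = sp (sf (ss z)) x) ↔
      (i < sf (sf (sf z)) ∧ (ss (sf (sf z)) * (i + 1) + 1) ∣ ss (sf z))))
    (Primrec.nat_add.comp (primrec_sp.comp ps pb) pk) ?_
  refine ppred_iff ?_ (PrimrecPred.and ?_ ?_)
  · refine ppred_bex (R := fun (q : ℕ × ℕ) x => q.2 = sp (sf (ss q.1)) x)
      (pb.comp Primrec.fst) ?_
    exact Primrec.eq.comp (Primrec.snd.comp Primrec.fst)
      (primrec_sp.comp (ps.comp (Primrec.fst.comp Primrec.fst)) Primrec.snd)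
  · exact Primrec.nat_lt.comp Primrec.snd (pk.comp Primrec.fst)
  · exact ppred_dvd (Primrec.succ.comp (Primrec.nat_mul.comp (pm.comp Primrec.fst)
      (Primrec.succ.comp Primrec.snd))) (pn.comp Primrec.fst)

/-- least code: on `sp (sp s c) t` -/
def LC (w : ℕ) : Prop :=
  sf w = sp (sf (sf w)) (ss (sf w)) ∧ PCN (sp (ss (sf w)) (sp (sf (sf w)) (ss w))) ∧
    ∀ y < ss (sf w), ¬ PCN (sp y (sp (sf (sf w)) (ss w)))

lemma ppred_LC : PrimrecPred LC := by
  have a1 := primrec_sf
  have a2 := primrec_ss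
  have ps : Primrec fun w => sf (sf w) := a1.comp a1
  have pc : Primrec fun w => ss (sf w) := a2.comp a1
  unfold LC
  refine PrimrecPred.and (Primrec.eq.comp a1 (primrec_sp.comp ps pc)) (PrimrecPred.and ?_ ?_)
  · exact PrimrecPred.comp (p := PCN) ppred_PCN (primrec_sp.comp pc (primrec_sp.comp ps a2))
  · refine ppred_ball (R := fun w y => ¬ PCN (sp y (sp (sf (sf w)) (ss w)))) pc ?_
    exact PrimrecPred.not (PrimrecPred.comp (p := PCN) ppred_PCN
      (primrec_sp.comp Primrec.snd (primrec_sp.comp (ps.comp Primrec.fst) (a2.comp Primrec.fst))))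

/-! ### in the model -/

lemma mem_AA_iff (s i : Mo j) : i ∈ AA s ↔
    ∀ᶠ t in (𝓤 : Filter ℕ), ∃ x < t * (rep s t + 1), rep i t = sp (rep s t) x := by
  constructor
  · rintro ⟨x, rfl, hx⟩
    filter_upwards [hx, rep_pp s x] with t h1 h2
    exact ⟨_, h1, h2⟩
  · intro h
    refine ⟨sndM i, ?_, ?_⟩
    · rw [ext_iff']
      filter_upwards [h, rep_pp s (sndM i), rep_map primrec_ss i] with t h1 h2 h3
      obtain ⟨x, h4, h5⟩ := h1
      have h3' : rep (sndM i) t = ss (rep i t) := h3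
      rw [h2, h3', h5, ss_sp]
    · filter_upwards [h, rep_map primrec_ss i] with t h1 h3
      obtain ⟨x, h4, h5⟩ := h1
      have h3' : rep (sndM i) t = ss (rep i t) := h3
      rw [h3', h5, ss_sp]; exact h4

lemma dvd_iff_mo (a b : Mo j) : (∃ q, (mo j).mul a q = b) ↔
    ∀ᶠ t in (𝓤 : Filter ℕ), rep a t ∣ rep b t := by
  constructor
  · rintro ⟨q, rfl⟩
    filter_upwards [rep_mul a q] with t h1
    exact ⟨_, h1⟩
  · intro h
    have hP : BP j fun z => sf (ss z) * sf z = ss (ss z) :=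
      BP.of_primrec (Primrec.eq.comp (Primrec.nat_mul.comp (primrec_sf.comp primrec_ss) primrec_sf)
        (primrec_ss.comp primrec_ss))
    obtain ⟨q, hq, -⟩ := los_Mo hP ((rep_bf a).pair (rep_bf b)) ⟨rep b, rep_bd b,
      h.mono fun t ht => by
        obtain ⟨q, hq⟩ := ht
        simp only [sf_sp, ss_sp]
        rcases Nat.eq_zero_or_pos (rep a t) with h0 | h0
        · exact ⟨0, Nat.zero_le _, by rw [hq, h0]; simp⟩
        · exact ⟨q, by rw [hq]; exact Nat.le_mul_of_pos_left q h0, hq.symm⟩⟩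
    simp only [sf_sp, ss_sp] at hq
    refine ⟨q, ?_⟩
    rw [ext_iff']
    filter_upwards [hq, rep_mul a q] with t h1 h2
    rw [h2, h1]

lemma code_cond_iff (k m n i : Mo j) : ((mo j).lt i k ∧ ∃ q, (mo j).mul ((mo j).add
    ((mo j).mul m ((mo j).add i (mo j).one)) (mo j).one) q = n) ↔
    ∀ᶠ t in (𝓤 : Filter ℕ), rep i t < rep k t ∧ (rep m t * (rep i t + 1) + 1) ∣ rep n t := by
  rw [dvd_iff_mo, lt_def, ← eventually_and]
  refine ev_congr ?_
  filter_upwards [rep_succ ((mo j).mul m ((mo j).add i (mo j).one)),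
    rep_mul m ((mo j).add i (mo j).one), rep_succ i] with t h1 h2 h3
  rw [h1, h2, h3]

lemma bd_pairdd (s : Mo j) : Bd j fun t => sp (rep s t) t := by
  refine Bd.mono (g := rep (prd s (dd j))) (rep_bd _) ?_
  filter_upwards [rep_pp s (dd j), rep_dd (j := j)] with t h1 h2
  rw [h1, h2]

lemma preCode_iff (c s : Mo j) : (mo j).PreCode c (AA s) ↔
    ∀ᶠ t in (𝓤 : Filter ℕ), PCN (sp (rep c t) (sp (rep s t) t)) := by
  constructor
  · rintro ⟨k, m, n, hc, h⟩
    rw [pair_mo, pair_mo] at hc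
    by_contra hcon
    rw [← ev_not] at hcon
    have hrep : ∀ᶠ t in (𝓤 : Filter ℕ), rep c t = sp (sp (rep k t) (rep m t)) (rep n t) := by
      rw [hc]
      filter_upwards [rep_pp (prd k m) n, rep_pp k m] with t h1 h2
      rw [h1, h2]
    -- on `sp i (sp (sp (sp k m) n) (sp s t))`
    let B : ℕ → Prop := fun z => ¬ ((∃ x < ss (ss (ss z)) * (sf (ss (ss z)) + 1),
      sf z = sp (sf (ss (ss z))) x) ↔ (sf z < sf (sf (sf (ss z))) ∧
        (ss (sf (sf (ss z))) * (sf z + 1) + 1) ∣ ss (sf (ss z))))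
    have hB : BP j B := by
      refine BP.of_primrec (PrimrecPred.not ?_)
      have a1 := primrec_sf
      have a2 := primrec_ss
      have ps : Primrec fun z => sf (ss (ss z)) := a1.comp (a2.comp a2)
      have pt : Primrec fun z => ss (ss (ss z)) := a2.comp (a2.comp a2)
      have pk : Primrec fun z => sf (sf (sf (ss z))) := a1.comp (a1.comp (a1.comp a2))
      have pm : Primrec fun z => ss (sf (sf (ss z))) := a2.comp (a1.comp (a1.comp a2))
      have pn : Primrec fun z => ss (sf (ss z)) := a2.comp (a1.comp a2)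
      refine ppred_iff ?_ (PrimrecPred.and ?_ ?_)
      · refine ppred_bex (R := fun (z : ℕ) x => sf z = sp (sf (ss (ss z))) x)
          (Primrec.nat_mul.comp pt (Primrec.succ.comp ps)) ?_
        exact Primrec.eq.comp (a1.comp Primrec.fst)
          (primrec_sp.comp (ps.comp Primrec.fst) Primrec.snd)
      · exact Primrec.nat_lt.comp a1 pk
      · exact ppred_dvd (Primrec.succ.comp (Primrec.nat_mul.comp pm (Primrec.succ.comp a1))) pn
    have hbd : Bd j fun t => sp (rep s t) (t * (rep s t + 1)) + rep k t := by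
      have h6 : Bd j fun t => (fun z => sp (sf (sf z)) (ss (sf z) * (sf (sf z) + 1)) + ss z)
          (rep (prd (prd s (dd j)) k) t) := by
        have ps : Primrec fun z => sf (sf z) := primrec_sf.comp primrec_sf
        have hF : Primrec fun z => sp (sf (sf z)) (ss (sf z) * (sf (sf z) + 1)) + ss z :=
          Primrec.nat_add.comp (primrec_sp.comp ps (Primrec.nat_mul.comp
            (primrec_ss.comp primrec_sf) (Primrec.succ.comp ps))) primrec_ss
        exact (rep_bd (prd (prd s (dd j)) k)).primrec hF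
      refine h6.mono ?_
      filter_upwards [rep_pp (prd s (dd j)) k, rep_pp s (dd j), rep_dd (j := j)] with t e1 e2 e3
      simp [e1, e2, e3]
    obtain ⟨i, hi, -⟩ := los_Mo hB ((rep_bf c).pair ((rep_bf s).pair Bf.id))
      ⟨_, hbd, by
        filter_upwards [hcon, hrep] with t h1 h2
        rw [h2] at h1 ⊢
        simp only [PCN, sf_sp, ss_sp, true_and] at h1
        push Not at h1
        obtain ⟨i, h3, h4⟩ := h1
        refine ⟨i, h3.le, ?_⟩
        simp only [B, sf_sp, ss_sp]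
        intro h5
        rcases h4 with ⟨h6, h7⟩ | ⟨h6, h7⟩
        · exact h7 (h5.1 h6).1 (h5.1 h6).2
        · obtain ⟨x, h8, h9⟩ := h5.2 h7
          exact h6 x h8 h9⟩
    have h1 := h i
    rw [mem_AA_iff, code_cond_iff] at h1
    by_cases h2 : ∀ᶠ t in (𝓤 : Filter ℕ), ∃ x < t * (rep s t + 1), rep i t = sp (rep s t) x
    · obtain ⟨t, h3, h4, h5, h6⟩ := ((h1.1 h2).and (hi.and (hrep.and h2))).exists
      rw [h5] at h4
      simp only [B, sf_sp, ss_sp] at h4
      exact h4 ⟨fun _ => h3, fun _ => h6⟩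
    · have h2' : ¬ ∀ᶠ t in (𝓤 : Filter ℕ), rep i t < rep k t ∧
          (rep m t * (rep i t + 1) + 1) ∣ rep n t := fun h3 => h2 (h1.2 h3)
      rw [← ev_not] at h2'
      rw [← ev_not] at h2
      obtain ⟨t, h3, h4, h5, h6⟩ := (h2'.and (hi.and (hrep.and h2))).exists
      rw [h5] at h4
      simp only [B, sf_sp, ss_sp] at h4
      exact h4 ⟨fun h => absurd h h6, fun h => absurd h h3⟩
  · intro h
    have hrep : ∀ᶠ t in (𝓤 : Filter ℕ), rep (fstM (fstM c)) t = sf (sf (rep c t)) ∧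
        rep (sndM (fstM c)) t = ss (sf (rep c t)) ∧ rep (sndM c) t = ss (rep c t) := by
      filter_upwards [rep_map primrec_sf (fstM c), rep_map primrec_ss (fstM c),
        rep_map primrec_ss c, rep_map primrec_sf c] with t h1 h2 h3 h4
      exact ⟨h1.trans (congrArg sf h4), h2.trans (congrArg ss h4), h3⟩
    refine ⟨fstM (fstM c), sndM (fstM c), sndM c, ?_, fun i => ?_⟩
    · rw [pair_mo, pair_mo, ext_iff']
      filter_upwards [rep_pp (prd (fstM (fstM c)) (sndM (fstM c))) (sndM c),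
        rep_pp (fstM (fstM c)) (sndM (fstM c)), hrep, h] with t h1 h2 h3 h4
      rw [h1, h2, h3.1, h3.2.1, h3.2.2]
      simp only [PCN, sf_sp, ss_sp] at h4
      exact h4.1
    · rw [mem_AA_iff, code_cond_iff]
      refine ev_congr ?_
      filter_upwards [hrep, h] with t h3 h4
      have h5 := h4.1
      rw [sf_sp] at h5
      rw [h5] at h4
      rw [h3.1, h3.2.1, h3.2.2]
      exact (pcn_iff _ _ _ _ _).1 h4 (rep i t)

lemma exists_least_code (s : Mo j) : ∃ c : Mo j,
    (∀ᶠ t in (𝓤 : Filter ℕ), PCN (sp (rep c t) (sp (rep s t) t))) ∧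
    ∀ᶠ t in (𝓤 : Filter ℕ), ∀ y < rep c t, ¬ PCN (sp y (sp (rep s t) t)) := by
  obtain ⟨k, hk⟩ := dom_bd (Q := PCN) (sigR_of_primrec ppred_PCN) (bd_pairdd s)
    (Eventually.of_forall fun t => exists_pcn _ _)
  exact los_Mo (BP.of_primrec ppred_PCN) ((rep_bf s).pair Bf.id) ⟨fun t => hh j (t + k), ⟨k + 1,
    Eventually.of_forall fun t => hh_lt_succ j _⟩, hk.mono fun t ⟨y, h1, h2⟩ => ⟨y, h1.le, h2⟩⟩

/-- the graph of the sequence of canonical codes -/
def ZZ (j : ℕ) : Set (Mo j) := {z | lift LC (prd z (dd j))}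

lemma ZZ_mem (j : ℕ) : ZZ j ∈ (mo j).S := by
  have hg : PF fun w : Mo j => prd w (dd j) := PF.id.pp (PF.const _)
  refine ⟨LL.lift_pf (sigR_of_primrec ppred_LC) hg, ?_⟩
  exact (LL.lift_pf (sigR_of_primrec ppred_LC.not) hg).congr fun x => lift_not

lemma isSeq_ZZ (j : ℕ) : (mo j).IsSeq (ZZ j) AA := by
  intro s
  obtain ⟨c, h1, h2⟩ := exists_least_code s
  refine ⟨c, fun c' => ?_, (preCode_iff _ _).2 h1, fun c' hlt hc' => ?_⟩
  · rw [pair_mo]
    have key : (prd s c') ∈ ZZ j ↔ ∀ᶠ t in (𝓤 : Filter ℕ),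
        (PCN (sp (rep c' t) (sp (rep s t) t)) ∧ ∀ y < rep c' t, ¬ PCN (sp y (sp (rep s t) t))) := by
      change lift LC (prd (prd s c') (dd j)) ↔ _
      rw [lift_pp]
      refine ev_congr ?_
      filter_upwards [rep_pp s c', rep_dd (j := j)] with t e1 e2
      rw [e1, e2]
      simp only [LC, sf_sp, ss_sp, true_and]
    rw [key, ext_iff']
    constructor
    · intro h
      filter_upwards [h, h1, h2] with t h3 h4 h5
      rcases lt_trichotomy (rep c' t) (rep c t) with h6 | h6 | h6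
      · exact absurd h3.1 (h5 _ h6)
      · exact h6
      · exact absurd h4 (h3.2 _ h6)
    · intro h
      filter_upwards [h, h1, h2] with t h3 h4 h5
      rw [h3]
      exact ⟨h4, h5⟩
  · obtain ⟨t, h3, h4, h5⟩ := (((preCode_iff _ _).1 hc').and (h2.and hlt)).exists
    exact h4 _ h5 h3

end Pool.Agent.Lib.MP_0d2548_lc
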