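import Mathlib
import Pool.Agent.Lib.MP_0d2548_lc.Codes

/-!
# No definable choice function
-/

set_option autoImplicit false

namespace Pool.Agent.Lib.MP_0d2548_lc

open Filter

variable {j : ℕ}

/-- the finite pattern predicate, on `sp (sp w v) H(K)` -/
def Pat (b : ℕ → ℕ → Prop) (i K l : ℕ) (z : ℕ) : Prop :=
  ss (sf z) < pr (ss z) (K - l) ∧ ∀ e < i, ∀ k < i,
    (Acc e (sp (sf z) (pr (ss z) (K - k))) (pr (ss z) (K - (k + 2))) ↔ b e k)

lemma ppred_Pat (b : ℕ → ℕ → Prop) (i K l : ℕ) : PrimrecPred (Pat b i K l) := by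
  unfold Pat
  refine PrimrecPred.and (Primrec.nat_lt.comp (primrec_ss.comp primrec_sf)
    (primrec_pr.comp primrec_ss (Primrec.const _))) ?_
  refine ppred_forall_fin (P := fun e (z : ℕ) => ∀ k < i,
    (Acc e (sp (sf z) (pr (ss z) (K - k))) (pr (ss z) (K - (k + 2))) ↔ b e k))
    (fun e => ?_) i
  refine ppred_forall_fin (P := fun k (z : ℕ) =>
    (Acc e (sp (sf z) (pr (ss z) (K - k))) (pr (ss z) (K - (k + 2))) ↔ b e k))
    (fun k => ?_) i
  refine ppred_iff (ppred_acc (Primrec.const e) ?_ ?_) (ppred_const _)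
  · exact primrec_sp.comp primrec_sf (primrec_pr.comp primrec_ss (Primrec.const _))
  · exact primrec_pr.comp primrec_ss (Primrec.const _)

/-- an element that is not killed has a twin -/
lemma twin {q x : Mo j} (h : ¬ Killed q x) : ∃ v, v ≠ x ∧ Eqv (prd (prd q q) x) (prd (prd q q) v) := by
  obtain ⟨l, hl⟩ := exists_bound x
  obtain ⟨l', hl'⟩ := exists_bound (prd (prd q q) x)
  refine realize (prd q q) (prd (prd q q) x) x l fun i => ?_
  let b : ℕ → ℕ → Prop := fun e k => ∀ᶠ t in (𝓤 : Filter ℕ),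
    Acc e (sp (rep (prd (prd q q) x) t) (hh j (t + k))) (hh j (t + k + 2))
  have hb : ∀ e k, ∀ᶠ t in (𝓤 : Filter ℕ),
      (Acc e (sp (rep (prd (prd q q) x) t) (hh j (t + k))) (hh j (t + k + 2)) ↔ b e k) := by
    intro e k
    by_cases hc : b e k
    · filter_upwards [(show ∀ᶠ t in (𝓤 : Filter ℕ), _ from hc)] with t ht
      exact ⟨fun _ => hc, fun _ => ht⟩
    · have hc' := hc
      rw [← ev_not] at hc'
      filter_upwards [hc'] with t ht
      exact ⟨fun h => absurd h ht, fun h => absurd h hc⟩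
  have hb' : ∀ᶠ t in (𝓤 : Filter ℕ), ∀ e < i, ∀ k < i,
      (Acc e (sp (rep (prd (prd q q) x) t) (hh j (t + k))) (hh j (t + k + 2)) ↔ b e k) := by
    have h1 : ∀ e ∈ Set.Iio i, ∀ᶠ t in (𝓤 : Filter ℕ), ∀ k < i,
        (Acc e (sp (rep (prd (prd q q) x) t) (hh j (t + k))) (hh j (t + k + 2)) ↔ b e k) := by
      intro e _
      have h2 : ∀ k ∈ Set.Iio i, ∀ᶠ t in (𝓤 : Filter ℕ),
        (Acc e (sp (rep (prd (prd q q) x) t) (hh j (t + k))) (hh j (t + k + 2)) ↔ b e k) :=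
        fun k _ => hb e k
      exact (Set.finite_Iio i).eventually_all.2 h2
    exact (Set.finite_Iio i).eventually_all.2 h1
  let K := i + l + l' + 2
  have hev : ∀ {t k : ℕ}, k ≤ K → pr (hh j (t + K)) (K - k) = hh j (t + k) := by
    intro t k hk
    rw [pr_hh' j (show K - k ≤ t + K by omega), show t + K - (K - k) = t + k by omega]
  obtain ⟨e, he1, he2⟩ := primty (j := j) (ppred_Pat b i K l)
  have hx : ∀ᶠ t in (𝓤 : Filter ℕ), rep (prd (prd q q) x) t ≤ hh j (t + K) :=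
    (hl' K (by omega)).mono fun t ht => ht.le
  have hpatx : ∀ᶠ t in (𝓤 : Filter ℕ), Pat b i K l (sp (rep (prd (prd q q) x) t) (hh j (t + K))) := by
    filter_upwards [hb', hl l le_rfl, rep_pp (prd q q) x] with t h1 h2 h3
    unfold Pat
    simp only [sf_sp, ss_sp]
    refine ⟨?_, fun e he k hk => ?_⟩
    · rw [hev (show l ≤ K by omega), h3, ss_sp]; exact h2
    · rw [hev (show k ≤ K by omega), hev (show k + 2 ≤ K by omega)]
      exact h1 e he k hk
  -- `x` is not killed by `e, K, q`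
  have hnk : ¬ ∀ᶠ t in (𝓤 : Filter ℕ),
      KK e (rep q t) (rep q t) (rep x t) (hh j (t + K)) (hh j (t + K + 2)) := fun hk =>
    h ⟨e, K, q, Eventually.of_forall fun t => Nat.lt_succ_self _, hk⟩
  rw [← ev_not] at hnk
  filter_upwards [hnk, hb', hpatx, he2 K _ hx, rep_pp (prd q q) x, rep_pp q q, hl K (by omega)]
    with t h1 h2 h3 h4 h5 h6 h7
  rw [h5, h6] at h4 h3 h2
  have hacc := h4.2 h3
  unfold KK at h1
  push Not at h1
  obtain ⟨y, hy1, hy2, hy3⟩ := h1 h7 hacc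
  have hp := he1 _ _ hy2
  unfold Pat at hp
  simp only [sf_sp, ss_sp] at hp
  rw [hev (show l ≤ K by omega)] at hp
  refine ⟨y, hp.1, hy3, fun e' he' k hk => ?_⟩
  have h8 := hp.2 e' he' k hk
  rw [hev (show k ≤ K by omega), hev (show k + 2 ≤ K by omega)] at h8
  rw [h5, h6, h2 e' he' k hk]
  exact h8.symm

theorem no_choice (f : Mo j → Mo j) (hf : IsDefinableFun (mo j) f) :
    ∃ s, f s ∉ AA s ∩ XX j := by
  by_contra hcon
  push Not at hcon
  obtain ⟨φ, v, V, x, y, hV, hxy, hdef⟩ := hf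
  obtain ⟨q, hq⟩ := exists_param φ v V hV x y
  obtain ⟨⟨a, ha, -⟩, ⟨s', a', ha', -, hk⟩⟩ := hcon q
  have h0 := ha.symm.trans ha'
  obtain ⟨rfl, rfl⟩ := pp_inj h0
  obtain ⟨a', hne, heqv⟩ := twin hk
  obtain ⟨σ, hσ, hA⟩ := exists_aut heqv
  rw [hA.1, hA.1] at hσ
  obtain ⟨h1, h2⟩ := pp_inj hσ
  obtain ⟨h3, -⟩ := pp_inj h1
  have h4 := (hq σ hA h3 q (prd q a)).1 ((hdef _ _).1 ha)
  rw [hA.1, h3, h2] at h4
  have h5 := (hdef _ _).2 h4
  exact hne (pp_inj (h5.symm.trans ha)).2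

end Pool.Agent.Lib.MP_0d2548_lc
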